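import Pool.Agent.Helper49.LT.Defs

/-!
# Project LT: basic facts
-/

open MeasureTheory Set Filter Metric

namespace Helper49.LT

open Helper97.CB

theorem ee_zero : ee 0 = 1 := by simp [ee]

theorem ee_add (a b : ℝ) : ee (a + b) = ee a * ee b := by
  unfold ee
  rw [← Complex.exp_add]
  congr 1
  push_cast
  ring

theorem ee_re (t : ℝ) : (ee t).re = Real.cos t := by
  unfold ee; rw [Complex.exp_ofReal_mul_I_re]

theorem ee_im (t : ℝ) : (ee t).im = Real.sin t := by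
  unfold ee; rw [Complex.exp_ofReal_mul_I_im]

theorem ee_eq (t : ℝ) : ee t = (Real.cos t : ℂ) + (Real.sin t : ℂ) * Complex.I := by
  apply Complex.ext <;> simp [ee_re, ee_im, -Complex.ofReal_cos, -Complex.ofReal_sin]

theorem norm_ee (t : ℝ) : ‖ee t‖ = 1 := by
  unfold ee; exact Complex.norm_exp_ofReal_mul_I t

theorem ee_ne (t : ℝ) : ee t ≠ 0 := by
  unfold ee; exact Complex.exp_ne_zero _

theorem ee_neg (t : ℝ) : ee (-t) = (starRingEnd ℂ) (ee t) := by
  apply Complex.ext <;> simp [ee_re, ee_im]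

theorem ee_conj_mul (t : ℝ) : (starRingEnd ℂ) (ee t) * ee t = 1 := by
  rw [← ee_neg, ← ee_add]; simp [ee_zero]

theorem ee_mul_conj (t : ℝ) : ee t * (starRingEnd ℂ) (ee t) = 1 := by
  rw [mul_comm, ee_conj_mul]

theorem ee_two_pi : ee (2 * Real.pi) = 1 := by
  apply Complex.ext <;> simp [ee_re, ee_im]

theorem ee_pi : ee Real.pi = -1 := by
  apply Complex.ext <;> simp [ee_re, ee_im]

theorem ee_per (t : ℝ) : ee (t + 2 * Real.pi) = ee t := by
  rw [ee_add, ee_two_pi, mul_one]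

theorem ee_int (n : ℤ) (t : ℝ) : ee ((n : ℝ) * (t + 2 * Real.pi)) = ee ((n : ℝ) * t) := by
  have h : ee ((n : ℝ) * (2 * Real.pi)) = 1 := by
    apply Complex.ext
    · rw [ee_re]; simp
    · rw [ee_im]
      have := Real.sin_int_mul_pi (2 * n)
      simp only [Complex.one_im]
      rw [← this]; congr 1; push_cast; ring
  rw [mul_add, ee_add, h, mul_one]

theorem ee_int_mul (n : ℤ) (t : ℝ) : ee ((n : ℝ) * t) = ee t ^ n := by
  unfold ee
  rw [← Complex.exp_int_mul]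
  congr 1
  push_cast
  ring

theorem hasDerivAt_ee (c t : ℝ) :
    HasDerivAt (fun s : ℝ => ee (c * s)) ((c : ℂ) * Complex.I * ee (c * t)) t := by
  have h1 : HasDerivAt (fun s : ℝ => (((c * s : ℝ) : ℂ)) * Complex.I) ((c : ℂ) * Complex.I) t := by
    have h2 : HasDerivAt (fun s : ℝ => c * s) c t := by
      simpa using (hasDerivAt_id t).const_mul c
    have h3 := h2.ofReal_comp
    simpa using h3.mul_const Complex.I
  have h4 := h1.cexp
  unfold ee
  convert h4 using 1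
  ring

theorem hasDerivAt_ee' (t : ℝ) : HasDerivAt ee (Complex.I * ee t) t := by
  have h := hasDerivAt_ee 1 t
  simpa using h

theorem continuous_ee : Continuous ee := by
  unfold ee; fun_prop

theorem contDiff_ee : ContDiff ℝ ⊤ ee := by
  unfold ee
  exact (Complex.ofRealCLM.contDiff.mul contDiff_const).cexp

/-- the derivative of the base curve -/
theorem hasDerivAt_zh (v : ℂ × ℂ) (s : ℝ) : HasDerivAt (zh v) (zd v s) s := by
  have h1 := hasDerivAt_ee' s
  have h2 := (hasDerivAt_ee (-2) s).const_mul v.1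
  have h3 := (hasDerivAt_ee (-4) s).const_mul v.2
  have h := (h1.add h2).add h3
  have e : zd v s = Complex.I * ee s + v.1 * (((-2 : ℝ) : ℂ) * Complex.I * ee (-2 * s)) +
      v.2 * (((-4 : ℝ) : ℂ) * Complex.I * ee (-4 * s)) := by
    unfold zd; push_cast; ring
  rw [e]
  exact h

theorem zh_rot (x : ℂ × ℂ) (t s : ℝ) : zh x (t + s) = ee t * zh (rot t x) s := by
  have h2 : ee (-2 * (t + s)) = ee t * ee (-3 * t) * ee (-2 * s) := by
    rw [← ee_add, ← ee_add]; congr 1; ring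
  have h4 : ee (-4 * (t + s)) = ee t * ee (-5 * t) * ee (-4 * s) := by
    rw [← ee_add, ← ee_add]; congr 1; ring
  simp only [zh, rot, h2, h4, ee_add t s]
  ring

theorem zd_rot (x : ℂ × ℂ) (t s : ℝ) : zd x (t + s) = ee t * zd (rot t x) s := by
  have h2 : ee (-2 * (t + s)) = ee t * ee (-3 * t) * ee (-2 * s) := by
    rw [← ee_add, ← ee_add]; congr 1; ring
  have h4 : ee (-4 * (t + s)) = ee t * ee (-5 * t) * ee (-4 * s) := by
    rw [← ee_add, ← ee_add]; congr 1; ring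
  simp only [zd, rot, h2, h4, ee_add t s]
  ring

theorem zh_eq (x : ℂ × ℂ) (t : ℝ) : zh x t = ee t * (1 + (rot t x).1 + (rot t x).2) := by
  have h := zh_rot x t 0
  rw [add_zero] at h
  rw [h]; simp [zh, ee_zero]

theorem zd_eq (x : ℂ × ℂ) (t : ℝ) :
    zd x t = Complex.I * ee t * (1 - 2 * (rot t x).1 - 4 * (rot t x).2) := by
  have h := zd_rot x t 0
  rw [add_zero] at h
  rw [h]; simp [zd, ee_zero]; ring

theorem zh_per (v : ℂ × ℂ) (s : ℝ) : zh v (s + 2 * Real.pi) = zh v s := by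
  have h2 := ee_int (-2) s
  have h4 := ee_int (-4) s
  push_cast at h2 h4
  simp only [zh, ee_per, h2, h4]

theorem zd_per (v : ℂ × ℂ) (s : ℝ) : zd v (s + 2 * Real.pi) = zd v s := by
  have h2 := ee_int (-2) s
  have h4 := ee_int (-4) s
  push_cast at h2 h4
  simp only [zd, ee_per, h2, h4]

theorem rot_per (t : ℝ) (v : ℂ × ℂ) : rot (t + 2 * Real.pi) v = rot t v := by
  have h2 := ee_int (-3) t
  have h4 := ee_int (-5) t
  push_cast at h2 h4
  simp only [rot, h2, h4]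

theorem rot_zero (v : ℂ × ℂ) : rot 0 v = v := by
  simp [rot, ee_zero]

theorem rot_add (s t : ℝ) (v : ℂ × ℂ) : rot (s + t) v = rot s (rot t v) := by
  have h2 : ee (-3 * (s + t)) = ee (-3 * s) * ee (-3 * t) := by
    rw [← ee_add]; congr 1; ring
  have h4 : ee (-5 * (s + t)) = ee (-5 * s) * ee (-5 * t) := by
    rw [← ee_add]; congr 1; ring
  simp only [rot, h2, h4, mul_assoc]

theorem rot_pi (t : ℝ) (v : ℂ × ℂ) : rot (t + Real.pi) v = -rot t v := by
  have h3 : ee (-3 * (t + Real.pi)) = -ee (-3 * t) := by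
    have : -3 * (t + Real.pi) = -3 * t + (-Real.pi) + ((-1 : ℤ) : ℝ) * (2 * Real.pi) := by
      push_cast; ring
    rw [this, ee_add, ee_add, ee_neg Real.pi, ee_pi]
    have h : ee (((-1 : ℤ) : ℝ) * (2 * Real.pi)) = 1 := by
      have := ee_int (-1) 0
      simpa [ee_zero] using this
    rw [h]; simp
  have h5 : ee (-5 * (t + Real.pi)) = -ee (-5 * t) := by
    have : -5 * (t + Real.pi) = -5 * t + (-Real.pi) + ((-2 : ℤ) : ℝ) * (2 * Real.pi) := by
      push_cast; ring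
    rw [this, ee_add, ee_add, ee_neg Real.pi, ee_pi]
    have h : ee (((-2 : ℤ) : ℝ) * (2 * Real.pi)) = 1 := by
      have := ee_int (-2) 0
      simpa [ee_zero] using this
    rw [h]; simp
  apply Prod.ext
  · show ee (-3 * (t + Real.pi)) * v.1 = -(ee (-3 * t) * v.1)
    rw [h3]; ring
  · show ee (-5 * (t + Real.pi)) * v.2 = -(ee (-5 * t) * v.2)
    rw [h5]; ring

theorem norm_rot (t : ℝ) (v : ℂ × ℂ) : ‖rot t v‖ = ‖v‖ := by
  simp [rot, Prod.norm_def, norm_ee]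

theorem norm_rot_fst (t : ℝ) (v : ℂ × ℂ) : ‖(rot t v).1‖ = ‖v.1‖ := by
  simp [rot, norm_ee]

theorem norm_rot_snd (t : ℝ) (v : ℂ × ℂ) : ‖(rot t v).2‖ = ‖v.2‖ := by
  simp [rot, norm_ee]

theorem rot_neg (t : ℝ) (v : ℂ × ℂ) : rot t (-v) = -rot t v := by
  apply Prod.ext <;> simp [rot]

theorem rot_sub (t : ℝ) (v v' : ℂ × ℂ) : rot t (v - v') = rot t v - rot t v' := by
  apply Prod.ext <;> simp [rot, mul_sub]

theorem continuous_rot (x : ℂ × ℂ) : Continuous (fun t => rot t x) := by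
  unfold rot
  have := continuous_ee
  fun_prop

theorem continuous_zh (v : ℂ × ℂ) : Continuous (zh v) := by
  unfold zh
  have := continuous_ee
  fun_prop

theorem continuous_zd (v : ℂ × ℂ) : Continuous (zd v) := by
  unfold zd
  have := continuous_ee
  fun_prop

theorem contDiff_zh : ContDiff ℝ ⊤ (fun p : (ℂ × ℂ) × ℝ => zh p.1 p.2) := by
  unfold zh
  have h := contDiff_ee
  fun_prop

theorem hasDerivAt_rot (x : ℂ × ℂ) (t : ℝ) :
    HasDerivAt (fun s => rot s x)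
      (-3 * Complex.I * (rot t x).1, -5 * Complex.I * (rot t x).2) t := by
  have h1 := (hasDerivAt_ee (-3) t).mul_const x.1
  have h2 := (hasDerivAt_ee (-5) t).mul_const x.2
  have h := h1.prodMk h2
  unfold rot
  convert h using 1
  apply Prod.ext
  · push_cast; ring
  · push_cast; ring

theorem abs_k3 (v : ℂ × ℂ) : |k3 v| ≤ ‖v.1‖ := Complex.abs_re_le_norm _
theorem abs_s3 (v : ℂ × ℂ) : |s3 v| ≤ ‖v.1‖ := by
  unfold s3; rw [abs_neg]; exact Complex.abs_im_le_norm _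
theorem abs_k5 (v : ℂ × ℂ) : |k5 v| ≤ ‖v.2‖ := Complex.abs_re_le_norm _
theorem abs_s5 (v : ℂ × ℂ) : |s5 v| ≤ ‖v.2‖ := by
  unfold s5; rw [abs_neg]; exact Complex.abs_im_le_norm _

theorem ksq3 (v : ℂ × ℂ) : k3 v ^ 2 + s3 v ^ 2 = ‖v.1‖ ^ 2 := by
  rw [← Complex.normSq_eq_norm_sq, Complex.normSq_apply]; simp [k3, s3]; ring

theorem ksq5 (v : ℂ × ℂ) : k5 v ^ 2 + s5 v ^ 2 = ‖v.2‖ ^ 2 := by
  rw [← Complex.normSq_eq_norm_sq, Complex.normSq_apply]; simp [k5, s5]; ring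

theorem cr_mul (u z w : ℂ) : cr (u * z) (u * w) = ‖u‖ ^ 2 * cr z w := by
  rw [← Complex.normSq_eq_norm_sq, Complex.normSq_apply]
  simp [cr]; ring

theorem cr_zh_zd (x : ℂ × ℂ) (t : ℝ) : cr (zh x t) (zd x t) = h0 (rot t x) := by
  rw [zh_eq, zd_eq]
  have : Complex.I * ee t * (1 - 2 * (rot t x).1 - 4 * (rot t x).2) =
      ee t * (Complex.I * (1 - 2 * (rot t x).1 - 4 * (rot t x).2)) := by ring
  rw [this, cr_mul, norm_ee]
  simp [cr, h0, k3, s3, k5, s5]
  ring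

theorem norm_zd (x : ℂ × ℂ) (t : ℝ) : ‖zd x t‖ = sg (rot t x) := by
  rw [zd_eq]; simp [sg, norm_ee]

theorem fst_le (v : ℂ × ℂ) : ‖v.1‖ ≤ ‖v‖ := norm_fst_le v
theorem snd_le (v : ℂ × ℂ) : ‖v.2‖ ≤ ‖v‖ := norm_snd_le v

theorem zh_sub_ee (v : ℂ × ℂ) (s : ℝ) : ‖zh v s - ee s‖ ≤ 2 * ‖v‖ := by
  have h : zh v s - ee s = v.1 * ee (-2 * s) + v.2 * ee (-4 * s) := by unfold zh; ring
  rw [h]
  calc ‖v.1 * ee (-2 * s) + v.2 * ee (-4 * s)‖ ≤ ‖v.1 * ee (-2 * s)‖ + ‖v.2 * ee (-4 * s)‖ :=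
        norm_add_le _ _
    _ = ‖v.1‖ + ‖v.2‖ := by simp [norm_ee]
    _ ≤ 2 * ‖v‖ := by linarith [fst_le v, snd_le v]

theorem zd_sub_ee (v : ℂ × ℂ) (s : ℝ) : ‖zd v s - Complex.I * ee s‖ ≤ 6 * ‖v‖ := by
  have h : zd v s - Complex.I * ee s =
      Complex.I * (-(2 * v.1 * ee (-2 * s)) + -(4 * v.2 * ee (-4 * s))) := by unfold zd; ring
  rw [h, norm_mul, Complex.norm_I, one_mul]
  calc ‖-(2 * v.1 * ee (-2 * s)) + -(4 * v.2 * ee (-4 * s))‖
      ≤ ‖-(2 * v.1 * ee (-2 * s))‖ + ‖-(4 * v.2 * ee (-4 * s))‖ := norm_add_le _ _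
    _ = 2 * ‖v.1‖ + 4 * ‖v.2‖ := by simp [norm_ee]
    _ ≤ 6 * ‖v‖ := by linarith [fst_le v, snd_le v]

theorem norm_zh_le (v : ℂ × ℂ) (s : ℝ) : ‖zh v s‖ ≤ 1 + 2 * ‖v‖ := by
  have h := zh_sub_ee v s
  have h2 : ‖zh v s‖ ≤ ‖zh v s - ee s‖ + ‖ee s‖ := by
    simpa using norm_add_le (zh v s - ee s) (ee s)
  rw [norm_ee] at h2; linarith

theorem le_norm_zh (v : ℂ × ℂ) (s : ℝ) : 1 - 2 * ‖v‖ ≤ ‖zh v s‖ := by
  have h := zh_sub_ee v s
  have h2 : ‖ee s‖ ≤ ‖zh v s‖ + ‖ee s - zh v s‖ := by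
    simpa using norm_add_le (zh v s) (ee s - zh v s)
  rw [norm_ee, norm_sub_rev] at h2; linarith

theorem abs_sg_sub (v : ℂ × ℂ) : |sg v - 1| ≤ 6 * ‖v‖ := by
  have h := zd_sub_ee v 0
  have h2 := abs_norm_sub_norm_le (zd v 0) (Complex.I * ee 0)
  have h3 := norm_zd v 0
  rw [rot_zero] at h3
  rw [h3] at h2
  simp only [ee_zero, mul_one, Complex.norm_I] at h2 h
  linarith

theorem continuous_h0 : Continuous h0 := by
  unfold h0 k3 s3 k5 s5; fun_prop

theorem continuous_sg : Continuous sg := by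
  unfold sg; fun_prop

theorem abs_h0_sub (v : ℂ × ℂ) (hv : ‖v‖ ≤ 1) : |h0 v - 1| ≤ 30 * ‖v‖ := by
  have a := abs_k3 v
  have b := abs_s3 v
  have c := abs_k5 v
  have d := abs_s5 v
  have e := fst_le v
  have f := snd_le v
  have g := norm_nonneg v
  have h1 : |k3 v| ≤ ‖v‖ := a.trans e
  have h2 : |s3 v| ≤ ‖v‖ := b.trans e
  have h3 : |k5 v| ≤ ‖v‖ := c.trans f
  have h4 : |s5 v| ≤ ‖v‖ := d.trans f
  have q3 := ksq3 v
  have q5 := ksq5 v
  have p3 : ‖v.1‖ ^ 2 ≤ ‖v‖ := by nlinarith [norm_nonneg v.1]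
  have p5 : ‖v.2‖ ^ 2 ≤ ‖v‖ := by nlinarith [norm_nonneg v.2]
  have m1 : |k3 v * k5 v| ≤ ‖v‖ := by
    rw [abs_mul]; nlinarith [abs_nonneg (k3 v), abs_nonneg (k5 v)]
  have m2 : |s3 v * s5 v| ≤ ‖v‖ := by
    rw [abs_mul]; nlinarith [abs_nonneg (s3 v), abs_nonneg (s5 v)]
  rw [abs_le] at *
  unfold h0
  rw [q3, q5]
  constructor <;> nlinarith [norm_nonneg v.1, norm_nonneg v.2, sq_nonneg ‖v.1‖, sq_nonneg ‖v.2‖]

namespace Rough

variable {η : ℝ} {w w' : ℝ → ℝ}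

theorem eta_nonneg (h : Rough η w w') : 0 ≤ η := le_trans (abs_nonneg _) (h.bdd 0)

/-- a rough function is Lipschitz -/
theorem lip (h : Rough η w w') (a b : ℝ) : |w a - w b| ≤ η * |a - b| := by
  wlog hab : b ≤ a generalizing a b
  · rw [abs_sub_comm, abs_sub_comm a b]
    exact this b a (le_of_lt (not_le.mp hab))
  have h1 := norm_image_sub_le_of_norm_deriv_right_le_segment (f := w) (f' := w') (a := b) (b := a)
    (C := η) h.con.continuousOn
    (fun x _ => (h.der x).Ici_of_Ioi) (fun x _ => by simpa using h.bdd' x) a ⟨hab, le_rfl⟩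
  rw [abs_of_nonneg (sub_nonneg.2 hab)]
  simpa using h1

theorem int (h : Rough η w w') (a b : ℝ) : IntervalIntegrable w volume a b :=
  h.con.intervalIntegrable a b

theorem int' (h : Rough η w w') (a b : ℝ) : IntervalIntegrable w' volume a b := by
  have hc : IntervalIntegrable (fun _ : ℝ => η) volume a b := intervalIntegrable_const
  refine hc.mono_fun h.mea.aestronglyMeasurable ?_
  filter_upwards with x
  simpa [abs_of_nonneg h.eta_nonneg] using h.bdd' x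

theorem ftc (h : Rough η w w') (a b : ℝ) : ∫ t in a..b, w' t = w b - w a :=
  intervalIntegral.integral_eq_sub_of_hasDeriv_right h.con.continuousOn
    (fun x _ => h.der x) (h.int' a b)

theorem mono {η₂ : ℝ} (h : Rough η w w') (h2 : η ≤ η₂) : Rough η₂ w w' where
  per := h.per
  per' := h.per'
  con := h.con
  der := h.der
  mea := h.mea
  bdd := fun t => (h.bdd t).trans h2
  bdd' := fun t => (h.bdd' t).trans h2

end Rough

/-- shift of the integral of a periodic function -/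
theorem integral_shift {E : Type*} [NormedAddCommGroup E] [NormedSpace ℝ E] (f : ℝ → E)
    (hf : ∀ t, f (t + 2 * Real.pi) = f t) (c : ℝ) :
    ∫ t in (0 : ℝ)..(2 * Real.pi), f (t + c) = ∫ t in (0 : ℝ)..(2 * Real.pi), f t := by
  rw [intervalIntegral.integral_comp_add_right (fun t => f t) c]
  have hp : Function.Periodic f (2 * Real.pi) := hf
  have h := hp.intervalIntegral_add_eq (0 + c) 0
  rw [zero_add] at h
  rw [show (0 : ℝ) + 2 * Real.pi = 2 * Real.pi by ring] at h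
  rw [zero_add, add_comm (2 * Real.pi) c]
  exact h

end Helper49.LT
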