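import Pool.Agent.Helper49.LT.M_FINa

/-!
# Project LT, module BIL: bilinear integrals with shifts
-/

open MeasureTheory Set Filter Metric

namespace Helper49.LT.BIL

open Helper49.LT

/-- a change of the variable -/
structure Shf (δ : ℝ) (s s' : ℝ → ℝ) : Prop where
  per : ∀ u, s (u + 2 * Real.pi) = s u
  der : ∀ u, HasDerivAt s (s' u) u
  con' : Continuous s'
  bdd' : ∀ u, |s' u| ≤ δ

variable {δ : ℝ} {s s' w w' : ℝ → ℝ}

theorem Shf.con (h : Shf δ s s') : Continuous s :=
  continuous_iff_continuousAt.2 fun u => (h.der u).continuousAt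

theorem Shf.hasDerivT (h : Shf δ s s') (u : ℝ) : HasDerivAt (fun u => u + s u) (1 + s' u) u :=
  (hasDerivAt_id u).add (h.der u)

theorem Shf.mono (h : Shf δ s s') (hδ : δ ≤ 1 / 10) : StrictMono (fun u => u + s u) := by
  apply strictMono_of_deriv_pos
  intro u
  rw [(h.hasDerivT u).deriv]
  have := (abs_le.1 (h.bdd' u)).1
  linarith

theorem subst_eq (h : Shf δ s s') (hδ : δ ≤ 1 / 10) (g : ℝ → ℝ)
    (hg : ∀ t, g (t + 2 * Real.pi) = g t) :
    ∫ u in (0 : ℝ)..(2 * Real.pi), (1 + s' u) * g (u + s u) =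
      ∫ t in (0 : ℝ)..(2 * Real.pi), g t := by
  have hpi := Real.pi_pos
  set T : ℝ → ℝ := fun u => u + s u with hT
  have hTm := h.mono hδ
  have hTc : Continuous T := continuous_id.add h.con
  have e := integral_image_eq_integral_abs_deriv_smul (s := Ioc 0 (2 * Real.pi)) (f := T)
    (f' := fun u => 1 + s' u) measurableSet_Ioc
    (fun u _ => (h.hasDerivT u).hasDerivWithinAt) hTm.injective.injOn g
  have him : T '' Ioc 0 (2 * Real.pi) = Ioc (T 0) (T 0 + 2 * Real.pi) := by
    have h2 : T (2 * Real.pi) = T 0 + 2 * Real.pi := by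
      have := h.per 0
      rw [zero_add] at this
      simp only [hT, this]; ring
    rw [← h2]
    apply Subset.antisymm
    · rintro _ ⟨u, hu, rfl⟩
      exact ⟨hTm hu.1, hTm.monotone hu.2⟩
    · intro y hy
      obtain ⟨u, hu, e⟩ := intermediate_value_Icc (by positivity : (0 : ℝ) ≤ 2 * Real.pi)
        hTc.continuousOn ⟨hy.1.le, hy.2⟩
      refine ⟨u, ⟨?_, hu.2⟩, e⟩
      rcases hu.1.lt_or_eq with h3 | h3
      · exact h3
      · exfalso
        rw [← e, ← h3] at hy
        exact lt_irrefl _ hy.1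
  rw [him] at e
  have e1 : ∫ x in Ioc (T 0) (T 0 + 2 * Real.pi), g x = ∫ t in (0 : ℝ)..(2 * Real.pi), g t := by
    rw [← intervalIntegral.integral_of_le (by linarith)]
    have hp : Function.Periodic g (2 * Real.pi) := hg
    have := hp.intervalIntegral_add_eq (T 0) 0
    rw [zero_add] at this
    exact this
  rw [e1] at e
  rw [e, intervalIntegral.integral_of_le (by positivity)]
  apply setIntegral_congr_fun measurableSet_Ioc
  intro u _
  have := (abs_le.1 (h.bdd' u)).1
  show (1 + s' u) * g (u + s u) = |1 + s' u| • g (T u)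
  rw [abs_of_pos (by linarith)]
  rfl

/-- bounded measurable functions are integrable -/
theorem ii {g : ℝ → ℝ} {B : ℝ} (hm : Measurable g) (hb : ∀ t, |g t| ≤ B) (a b : ℝ) :
    IntervalIntegrable g volume a b := by
  have hc : IntervalIntegrable (fun _ : ℝ => B) volume a b := intervalIntegrable_const
  refine hc.mono_fun hm.aestronglyMeasurable ?_
  filter_upwards with x
  rw [Real.norm_eq_abs, Real.norm_eq_abs]
  exact (hb x).trans (le_abs_self B)

theorem subst_le (h : Shf δ s s') (hδ : δ ≤ 1 / 10) {g : ℝ → ℝ} {B : ℝ}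
    (hg : ∀ t, g (t + 2 * Real.pi) = g t) (hm : Measurable g) (hb : ∀ t, |g t| ≤ B)
    (h0 : ∀ t, 0 ≤ g t) :
    ∫ u in (0 : ℝ)..(2 * Real.pi), g (u + s u) ≤ 2 * ∫ t in (0 : ℝ)..(2 * Real.pi), g t := by
  have hpi := Real.pi_pos
  rw [← subst_eq h hδ g hg, ← intervalIntegral.integral_const_mul]
  have hTm : Measurable (fun u => g (u + s u)) :=
    hm.comp (continuous_id.add h.con).measurable
  have hB : 0 ≤ B := (abs_nonneg _).trans (hb 0)
  apply intervalIntegral.integral_mono_on (by positivity)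
  · exact ii hTm (fun t => hb _) _ _
  · refine (ii (g := fun u => (1 + s' u) * g (u + s u)) (B := 2 * B)
      (((continuous_const.add h.con').measurable).mul hTm) ?_ _ _).const_mul 2
    intro t
    rw [abs_mul]
    have h1 : |1 + s' t| ≤ 2 := by
      have := abs_le.1 (h.bdd' t)
      rw [abs_le]; constructor <;> linarith [this.1, this.2]
    exact mul_le_mul h1 (hb _) (abs_nonneg _) (by norm_num)
  · intro u _
    have := (abs_le.1 (h.bdd' u)).1
    have h2 := h0 (u + s u)
    nlinarith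

theorem w'_subst_sq (h : Shf δ s s') (hδ : δ ≤ 1 / 10) (hw : Rough 1 w w') :
    ∫ u in (0 : ℝ)..(2 * Real.pi), w' (u + s u) ^ 2 ≤ 2 * q2 w' := by
  refine subst_le h hδ (g := fun t => w' t ^ 2) (B := 1) (fun t => by rw [hw.per'])
    (hw.mea.pow_const 2) (fun t => ?_) (fun t => sq_nonneg _)
  rw [abs_of_nonneg (sq_nonneg _), ← sq_abs]
  have := hw.bdd' t
  have := abs_nonneg (w' t)
  nlinarith

theorem w'_subst_abs (h : Shf δ s s') (hδ : δ ≤ 1 / 10) (hw : Rough 1 w w') :
    ∫ u in (0 : ℝ)..(2 * Real.pi), |w' (u + s u)| ≤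
      2 * ∫ t in (0 : ℝ)..(2 * Real.pi), |w' t| := by
  refine subst_le h hδ (g := fun t => |w' t|) (B := 1) (fun t => by rw [hw.per'])
    (by have := hw.mea; fun_prop) (fun t => ?_) (fun t => abs_nonneg _)
  rw [abs_abs]; exact hw.bdd' t

/-- the local variation -/
noncomputable def lv (w' : ℝ → ℝ) (δ c u : ℝ) : ℝ := ∫ σ in (-δ)..δ, |w' (u + c + σ)|

theorem diff_le (hδ0 : 0 ≤ δ) (hw : Rough 1 w w') {c u t : ℝ} (ht : |t - c| ≤ δ) :
    |w (u + t) - w (u + c)| ≤ lv w' δ c u := by
  have h1 := hw.ftc (u + c) (u + t)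
  rw [← h1]
  have e : ∫ τ in (u + c)..(u + t), w' τ = ∫ σ in (0 : ℝ)..(t - c), w' (u + c + σ) := by
    rw [intervalIntegral.integral_comp_add_left (fun τ => w' τ) (u + c)]
    congr 1 <;> ring
  rw [e]
  have hint : ∀ a b : ℝ, IntervalIntegrable (fun σ => |w' (u + c + σ)|) volume a b := by
    intro a b
    refine ii (B := 1) ?_ (fun t => ?_) a b
    · have := hw.mea
      fun_prop
    · rw [abs_abs]; exact hw.bdd' _
  have h2 := abs_le.1 ht
  unfold lv
  rcases le_total 0 (t - c) with h | h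
  · calc |∫ σ in (0 : ℝ)..(t - c), w' (u + c + σ)| ≤ ∫ σ in (0 : ℝ)..(t - c), |w' (u + c + σ)| :=
          intervalIntegral.abs_integral_le_integral_abs h
      _ ≤ ∫ σ in (-δ)..δ, |w' (u + c + σ)| := by
          apply intervalIntegral.integral_mono_interval (by linarith) h h2.2
          · exact Eventually.of_forall (fun x => abs_nonneg _)
          · exact hint _ _
  · rw [intervalIntegral.integral_symm, abs_neg]
    calc |∫ σ in (t - c)..0, w' (u + c + σ)| ≤ ∫ σ in (t - c)..0, |w' (u + c + σ)| :=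
          intervalIntegral.abs_integral_le_integral_abs h
      _ ≤ ∫ σ in (-δ)..δ, |w' (u + c + σ)| := by
          apply intervalIntegral.integral_mono_interval h2.1 h hδ0
          · exact Eventually.of_forall (fun x => abs_nonneg _)
          · exact hint _ _

theorem mul_int {f g : ℝ → ℝ} {A B : ℝ} (hf : Measurable f) (hg : Measurable g)
    (hA : ∀ t, |f t| ≤ A) (hB : ∀ t, |g t| ≤ B) (a b : ℝ) :
    IntervalIntegrable (fun t => f t * g t) volume a b := by
  refine ii (g := fun t => f t * g t) (B := A * B) (hf.mul hg) (fun t => ?_) a b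
  rw [abs_mul]
  exact mul_le_mul (hA t) (hB t) (abs_nonneg _) ((abs_nonneg _).trans (hA t))

/-- joint integrability on rectangles -/
theorem joint {F : ℝ → ℝ → ℝ} {B : ℝ} (hF : Measurable (Function.uncurry F))
    (hb : ∀ u σ, |F u σ| ≤ B) (a b c d : ℝ) (hab : a ≤ b) (hcd : c ≤ d) :
    ∫ u in a..b, ∫ σ in c..d, F u σ = ∫ σ in c..d, ∫ u in a..b, F u σ := by
  rw [intervalIntegral.integral_of_le hab, intervalIntegral.integral_of_le hcd]
  simp only [intervalIntegral.integral_of_le hab, intervalIntegral.integral_of_le hcd]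
  apply integral_integral_swap
  refine Integrable.mono' (g := fun _ => B) ?_ hF.aestronglyMeasurable ?_
  · exact integrable_const B
  · exact Eventually.of_forall (fun p => hb p.1 p.2)

theorem lv_nonneg (hδ0 : 0 ≤ δ) (c u : ℝ) : 0 ≤ lv w' δ c u :=
  intervalIntegral.integral_nonneg (by linarith) (fun _ _ => abs_nonneg _)

theorem lv_int (hδ0 : 0 ≤ δ) (hw : Rough 1 w w') (c : ℝ) :
    ∫ u in (0 : ℝ)..(2 * Real.pi), lv w' δ c u =
      2 * δ * ∫ t in (0 : ℝ)..(2 * Real.pi), |w' t| := by
  have hpi := Real.pi_pos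
  have hm := hw.mea
  unfold lv
  rw [joint (F := fun u σ => |w' (u + c + σ)|) (B := 1) (by fun_prop)
    (fun u σ => by rw [abs_abs]; exact hw.bdd' _) _ _ _ _ (by positivity) (by linarith)]
  have e : ∀ σ : ℝ, ∫ u in (0 : ℝ)..(2 * Real.pi), |w' (u + c + σ)| =
      ∫ t in (0 : ℝ)..(2 * Real.pi), |w' t| := by
    intro σ
    have := integral_shift (fun t => |w' t|) (fun t => by rw [hw.per']) (c + σ)
    rw [← this]
    congr 1; ext u; rw [add_assoc]
  simp only [e]
  rw [intervalIntegral.integral_const]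
  simp only [sub_neg_eq_add, smul_eq_mul]
  ring

theorem lv_con (hw : Rough 1 w w') (c : ℝ) : Continuous (fun u => lv w' δ c u) := by
  have hint : ∀ a b : ℝ, IntervalIntegrable (fun t => |w' t|) volume a b :=
    fun a b => FIN.int_abs' hw a b
  have hP := intervalIntegral.continuous_primitive hint 0
  have e : (fun u => lv w' δ c u) = fun u => (∫ t in (0 : ℝ)..(u + c + δ), |w' t|) -
      ∫ t in (0 : ℝ)..(u + c - δ), |w' t| := by
    ext u
    unfold lv
    rw [intervalIntegral.integral_comp_add_left (fun t => |w' t|) (u + c),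
      ← intervalIntegral.integral_add_adjacent_intervals (hint 0 (u + c - δ))
        (hint (u + c - δ) (u + c + δ))]
    rw [show u + c + -δ = u + c - δ by ring]
    ring
  rw [e]
  exact (hP.comp (by fun_prop : Continuous fun u : ℝ => u + c + δ)).sub
    (hP.comp (by fun_prop : Continuous fun u : ℝ => u + c - δ))

/-- a bilinear bound -/
theorem lv_bil (hδ0 : 0 ≤ δ) (hw : Rough 1 w w') (c : ℝ) {f : ℝ → ℝ} (hf : Measurable f)
    (hfb : ∀ t, |f t| ≤ 1) (hf2 : ∫ u in (0 : ℝ)..(2 * Real.pi), f u ^ 2 ≤ 2 * q2 w') :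
    ∫ u in (0 : ℝ)..(2 * Real.pi), |f u| * lv w' δ c u ≤ 3 * (δ * q2 w') := by
  have hpi := Real.pi_pos
  have hm := hw.mea
  have e1 : ∀ u, |f u| * lv w' δ c u = ∫ σ in (-δ)..δ, |f u| * |w' (u + c + σ)| := by
    intro u; unfold lv; rw [intervalIntegral.integral_const_mul]
  simp only [e1]
  rw [joint (F := fun u σ => |f u| * |w' (u + c + σ)|) (B := 1) (by fun_prop)
    (fun u σ => by
      rw [abs_mul, abs_abs, abs_abs]
      have a := hfb u
      have b := hw.bdd' (u + c + σ)
      have := abs_nonneg (f u)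
      have := abs_nonneg (w' (u + c + σ))
      nlinarith) _ _ _ _ (by positivity) (by linarith)]
  have e2 : ∀ σ : ℝ, ∫ u in (0 : ℝ)..(2 * Real.pi), |f u| * |w' (u + c + σ)| ≤
      3 / 2 * q2 w' := by
    intro σ
    have i1 : IntervalIntegrable (fun u => f u ^ 2) volume 0 (2 * Real.pi) :=
      ii (B := 1) (hf.pow_const 2) (fun t => by
        rw [abs_of_nonneg (sq_nonneg _), ← sq_abs]
        have := hfb t
        have := abs_nonneg (f t)
        nlinarith) _ _
    have i2 : IntervalIntegrable (fun u => w' (u + c + σ) ^ 2) volume 0 (2 * Real.pi) :=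
      ii (B := 1) (by fun_prop) (fun t => by
        rw [abs_of_nonneg (sq_nonneg _), ← sq_abs]
        have := hw.bdd' (t + c + σ)
        have := abs_nonneg (w' (t + c + σ))
        nlinarith) _ _
    have e3 : ∫ u in (0 : ℝ)..(2 * Real.pi), w' (u + c + σ) ^ 2 = q2 w' := by
      have := integral_shift (fun t => w' t ^ 2) (fun t => by rw [hw.per']) (c + σ)
      unfold q2
      rw [← this]
      congr 1; ext u; rw [add_assoc]
    have i3 : IntervalIntegrable (fun u => |f u| * |w' (u + c + σ)|) volume 0 (2 * Real.pi) :=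
      mul_int (A := 1) (B := 1) (by fun_prop) (by fun_prop)
        (fun t => by rw [abs_abs]; exact hfb t) (fun t => by rw [abs_abs]; exact hw.bdd' _) _ _
    calc ∫ u in (0 : ℝ)..(2 * Real.pi), |f u| * |w' (u + c + σ)|
        ≤ ∫ u in (0 : ℝ)..(2 * Real.pi), (1 / 2 * f u ^ 2 + 1 / 2 * w' (u + c + σ) ^ 2) := by
          apply intervalIntegral.integral_mono_on (by positivity) i3
            ((i1.const_mul _).add (i2.const_mul _))
          intro u _
          have h1 := sq_abs (f u)
          have h2 := sq_abs (w' (u + c + σ))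
          nlinarith [sq_nonneg (|f u| - |w' (u + c + σ)|)]
      _ = 1 / 2 * (∫ u in (0 : ℝ)..(2 * Real.pi), f u ^ 2) + 1 / 2 * q2 w' := by
          rw [intervalIntegral.integral_add (i1.const_mul _) (i2.const_mul _),
            intervalIntegral.integral_const_mul, intervalIntegral.integral_const_mul, e3]
      _ ≤ 3 / 2 * q2 w' := by linarith
  have h3 : ∀ σ ∈ Set.uIoc (-δ) δ,
      ‖∫ u in (0 : ℝ)..(2 * Real.pi), |f u| * |w' (u + c + σ)|‖ ≤ 3 / 2 * q2 w' := by
    intro σ _
    rw [Real.norm_eq_abs, abs_of_nonneg]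
    · exact e2 σ
    · exact intervalIntegral.integral_nonneg (by positivity) (fun _ _ => by positivity)
  have h4 := (le_abs_self _).trans (intervalIntegral.norm_integral_le_of_norm_le_const h3)
  rw [sub_neg_eq_add, abs_of_nonneg (by linarith : (0 : ℝ) ≤ δ + δ)] at h4
  linarith

theorem abs_int_le (hw : Rough 1 w w') :
    ∫ t in (0 : ℝ)..(2 * Real.pi), |w' t| ≤ 3 * Real.sqrt (q2 w') := by
  have h2 := FIN.int_abs_le hw
  have h3 : 0 ≤ ∫ t in (0 : ℝ)..(2 * Real.pi), |w' t| :=
    intervalIntegral.integral_nonneg (by positivity) (fun t _ => abs_nonneg _)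
  have h4 := FIN.q2_nonneg w'
  apply le_of_sq_le_sq _ (by positivity)
  rw [mul_pow, Real.sq_sqrt h4]
  have := FIN.two_pi_le
  nlinarith

/-- the second part of BIL -/
theorem bil2 (hδ0 : 0 ≤ δ) (hw : Rough 1 w w')
    (hw0 : ∫ t in (0 : ℝ)..(2 * Real.pi), w t = 0) {c₁ c₂ : ℝ} {s₁ s₂ : ℝ → ℝ}
    (h1 : Continuous s₁) (h2 : Continuous s₂) (h1c : ∀ u, |s₁ u - c₁| ≤ δ)
    (h2c : ∀ u, |s₂ u - c₂| ≤ δ) :
    |(∫ u in (0 : ℝ)..(2 * Real.pi), w (u + s₁ u) * w (u + s₂ u))
      - ∫ u in (0 : ℝ)..(2 * Real.pi), w (u + c₁) * w (u + c₂)| ≤ 36 * (δ * q2 w') := by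
  have hpi := Real.pi_pos
  have hc := hw.con
  set q := Real.sqrt (q2 w') with hq
  have hq0 : 0 ≤ q := Real.sqrt_nonneg _
  have hqq : q2 w' = q ^ 2 := (Real.sq_sqrt (FIN.q2_nonneg w')).symm
  have hb := FIN.abs_le hw hw0
  rw [← intervalIntegral.integral_sub (Continuous.intervalIntegrable (by fun_prop) _ _)
    (Continuous.intervalIntegrable (by fun_prop) _ _)]
  have hlvm : ∀ c, Continuous (fun u => lv w' δ c u) := lv_con hw
  calc |∫ u in (0 : ℝ)..(2 * Real.pi), (w (u + s₁ u) * w (u + s₂ u) - w (u + c₁) * w (u + c₂))|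
      ≤ ∫ u in (0 : ℝ)..(2 * Real.pi), |w (u + s₁ u) * w (u + s₂ u) - w (u + c₁) * w (u + c₂)| :=
        intervalIntegral.abs_integral_le_integral_abs (by positivity)
    _ ≤ ∫ u in (0 : ℝ)..(2 * Real.pi), (3 * q * lv w' δ c₁ u + 3 * q * lv w' δ c₂ u) := by
        apply intervalIntegral.integral_mono_on (by positivity)
        · exact Continuous.intervalIntegrable (by fun_prop) _ _
        · exact Continuous.intervalIntegrable
            ((continuous_const.mul (hlvm c₁)).add (continuous_const.mul (hlvm c₂))) _ _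
        · intro u _
          have e : w (u + s₁ u) * w (u + s₂ u) - w (u + c₁) * w (u + c₂) =
              w (u + s₂ u) * (w (u + s₁ u) - w (u + c₁)) +
              w (u + c₁) * (w (u + s₂ u) - w (u + c₂)) := by ring
          rw [e]
          refine (abs_add_le _ _).trans ?_
          rw [abs_mul, abs_mul]
          have a1 := diff_le hδ0 hw (u := u) (h1c u)
          have a2 := diff_le hδ0 hw (u := u) (h2c u)
          exact add_le_add
            (mul_le_mul (hb _) a1 (abs_nonneg _) (by positivity))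
            (mul_le_mul (hb _) a2 (abs_nonneg _) (by positivity))
    _ = 3 * q * (2 * δ * ∫ t in (0 : ℝ)..(2 * Real.pi), |w' t|) +
        3 * q * (2 * δ * ∫ t in (0 : ℝ)..(2 * Real.pi), |w' t|) := by
        have i1 : IntervalIntegrable (fun u => 3 * q * lv w' δ c₁ u) volume 0 (2 * Real.pi) :=
          (continuous_const.mul (hlvm c₁)).intervalIntegrable _ _
        have i2 : IntervalIntegrable (fun u => 3 * q * lv w' δ c₂ u) volume 0 (2 * Real.pi) :=
          (continuous_const.mul (hlvm c₂)).intervalIntegrable _ _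
        rw [intervalIntegral.integral_add i1 i2, intervalIntegral.integral_const_mul, intervalIntegral.integral_const_mul,
          lv_int hδ0 hw, lv_int hδ0 hw]
    _ ≤ 3 * q * (2 * δ * (3 * q)) + 3 * q * (2 * δ * (3 * q)) := by
        have := abs_int_le hw
        gcongr
    _ = 36 * (δ * q2 w') := by rw [hqq]; ring

/-- integration by parts -/
theorem ibp (h : Shf δ s s') (hδ : δ ≤ 1 / 10) (hw : Rough 1 w w') (c : ℝ) :
    ∫ u in (0 : ℝ)..(2 * Real.pi), w' (u + s u) * (1 + s' u) * w (u + c) =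
      -∫ u in (0 : ℝ)..(2 * Real.pi), w (u + s u) * w' (u + c) := by
  have hTm := h.mono hδ
  have hc := hw.con
  have hm := hw.mea
  have hs := h.con
  have hs' := h.con'
  set F : ℝ → ℝ := fun u => w (u + s u) * w (u + c) with hF
  have hd : ∀ u, HasDerivWithinAt F (w' (u + s u) * (1 + s' u) * w (u + c) +
      w (u + s u) * w' (u + c)) (Ioi u) u := by
    intro u
    have h1 : HasDerivWithinAt (fun u => w (u + s u)) (w' (u + s u) * (1 + s' u)) (Ioi u) u :=
      HasDerivWithinAt.comp u (hw.der (u + s u)) (h.hasDerivT u).hasDerivWithinAt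
        (fun v hv => hTm hv)
    have h2 : HasDerivWithinAt (fun u => w (u + c)) (w' (u + c)) (Ioi u) u := by
      have h3 : HasDerivWithinAt (fun u => u + c) 1 (Ioi u) u :=
        ((hasDerivAt_id u).add_const c).hasDerivWithinAt
      have := HasDerivWithinAt.comp u (hw.der (u + c)) h3 (fun v hv => by
        simp only [mem_Ioi] at hv ⊢; linarith)
      rw [mul_one] at this
      exact this
    exact h1.mul h2
  have hFc : Continuous F := by fun_prop
  have i0 : IntervalIntegrable (fun u => w (u + s u) * w' (u + c)) volume 0 (2 * Real.pi) :=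
    mul_int (A := 1) (B := 1) (by fun_prop) (by fun_prop) (fun _ => hw.bdd _)
      (fun _ => hw.bdd' _) _ _
  have i1 : IntervalIntegrable (fun u => w' (u + s u) * (1 + s' u) * w (u + c)) volume 0
      (2 * Real.pi) := by
    refine mul_int (f := fun u => w' (u + s u) * (1 + s' u)) (A := 2) (B := 1) (by fun_prop)
      (by fun_prop) (fun t => ?_) (fun _ => hw.bdd _) _ _
    rw [abs_mul]
    have h1 : |1 + s' t| ≤ 2 := by
      have := abs_le.1 (h.bdd' t)
      rw [abs_le]; constructor <;> linarith [this.1, this.2]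
    have h2 := hw.bdd' (t + s t)
    have := abs_nonneg (w' (t + s t))
    have := abs_nonneg (1 + s' t)
    nlinarith
  have e := intervalIntegral.integral_eq_sub_of_hasDeriv_right hFc.continuousOn
    (fun u _ => hd u) (i1.add i0)
  have hper : F (2 * Real.pi) = F 0 := by
    have h1 := h.per 0
    rw [zero_add] at h1
    simp only [hF, h1]
    have h2 := hw.per (0 + s 0)
    have h3 := hw.per (0 + c)
    rw [show 2 * Real.pi + s 0 = 0 + s 0 + 2 * Real.pi by ring, h2,
      show 2 * Real.pi + c = 0 + c + 2 * Real.pi by ring, h3]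
  rw [hper, sub_self, intervalIntegral.integral_add i1 i0] at e
  linarith

/-- the first part of BIL -/
theorem bil1 (hδ0 : 0 ≤ δ) (hδ : δ ≤ 1 / 10) (hw : Rough 1 w w')
    (hw0 : ∫ t in (0 : ℝ)..(2 * Real.pi), w t = 0) {c₁ c₂ : ℝ} {s₂ : ℝ → ℝ}
    (h1 : Shf δ s s') (h2 : Continuous s₂) (h1c : ∀ u, |s u - c₁| ≤ δ)
    (h2c : ∀ u, |s₂ u - c₂| ≤ δ) :
    |(∫ u in (0 : ℝ)..(2 * Real.pi), w' (u + s u) * w (u + s₂ u))
      - ∫ u in (0 : ℝ)..(2 * Real.pi), w' (u + c₁) * w (u + c₂)| ≤ 24 * (δ * q2 w') := by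
  have hpi := Real.pi_pos
  have hc := hw.con
  have hm := hw.mea
  have hs := h1.con
  have hs' := h1.con'
  set q := Real.sqrt (q2 w') with hq
  have hq0 : 0 ≤ q := Real.sqrt_nonneg _
  have hqq : q2 w' = q ^ 2 := (Real.sq_sqrt (FIN.q2_nonneg w')).symm
  have hb := FIN.abs_le hw hw0
  have hT := w'_subst_sq h1 hδ hw
  have hTa := w'_subst_abs h1 hδ hw
  have hV := abs_int_le hw
  -- step a
  have a1 : |(∫ u in (0 : ℝ)..(2 * Real.pi), w' (u + s u) * w (u + s₂ u))
      - ∫ u in (0 : ℝ)..(2 * Real.pi), w' (u + s u) * w (u + c₂)| ≤ 3 * (δ * q2 w') := by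
    have i1 : IntervalIntegrable (fun u => w' (u + s u) * w (u + s₂ u)) volume 0 (2 * Real.pi) :=
      mul_int (A := 1) (B := 1) (by fun_prop) (by fun_prop) (fun _ => hw.bdd' _)
        (fun _ => hw.bdd _) _ _
    have i2 : IntervalIntegrable (fun u => w' (u + s u) * w (u + c₂)) volume 0 (2 * Real.pi) :=
      mul_int (A := 1) (B := 1) (by fun_prop) (by fun_prop) (fun _ => hw.bdd' _)
        (fun _ => hw.bdd _) _ _
    rw [← intervalIntegral.integral_sub i1 i2]
    refine (intervalIntegral.abs_integral_le_integral_abs (by positivity)).trans ?_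
    refine le_trans ?_ (lv_bil hδ0 hw c₂ (f := fun u => w' (u + s u)) (by fun_prop)
      (fun _ => hw.bdd' _) hT)
    apply intervalIntegral.integral_mono_on (by positivity)
    · exact (i1.sub i2).abs
    · refine IntervalIntegrable.mul_continuousOn ?_ (lv_con hw c₂).continuousOn
      exact ii (B := 1) (by fun_prop) (fun t => by rw [abs_abs]; exact hw.bdd' _) _ _
    · intro u _
      rw [← mul_sub, abs_mul]
      exact mul_le_mul_of_nonneg_left (diff_le hδ0 hw (h2c u)) (abs_nonneg _)
  -- step b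
  have i3 : IntervalIntegrable (fun u => w' (u + s u) * s' u * w (u + c₂)) volume 0
      (2 * Real.pi) := by
    refine mul_int (f := fun u => w' (u + s u) * s' u) (A := 1) (B := 1) (by fun_prop)
      (by fun_prop) (fun t => ?_) (fun _ => hw.bdd _) _ _
    rw [abs_mul]
    have h3 := h1.bdd' t
    have h2 := hw.bdd' (t + s t)
    have := abs_nonneg (w' (t + s t))
    have := abs_nonneg (s' t)
    nlinarith
  have i4 : IntervalIntegrable (fun u => w' (u + s u) * w (u + c₂)) volume 0 (2 * Real.pi) :=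
      mul_int (A := 1) (B := 1) (by fun_prop) (by fun_prop) (fun _ => hw.bdd' _)
        (fun _ => hw.bdd _) _ _
  have b1 : ∫ u in (0 : ℝ)..(2 * Real.pi), w' (u + s u) * (1 + s' u) * w (u + c₂) =
      (∫ u in (0 : ℝ)..(2 * Real.pi), w' (u + s u) * w (u + c₂)) +
      ∫ u in (0 : ℝ)..(2 * Real.pi), w' (u + s u) * s' u * w (u + c₂) := by
    rw [← intervalIntegral.integral_add i4 i3]
    congr 1; ext u; ring
  have b2 : |∫ u in (0 : ℝ)..(2 * Real.pi), w' (u + s u) * s' u * w (u + c₂)| ≤
      18 * (δ * q2 w') := by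
    have i5 : IntervalIntegrable (fun u => |w' (u + s u)|) volume 0 (2 * Real.pi) :=
      ii (B := 1) (by fun_prop) (fun t => by rw [abs_abs]; exact hw.bdd' _) _ _
    calc |∫ u in (0 : ℝ)..(2 * Real.pi), w' (u + s u) * s' u * w (u + c₂)|
        ≤ ∫ u in (0 : ℝ)..(2 * Real.pi), |w' (u + s u) * s' u * w (u + c₂)| :=
          intervalIntegral.abs_integral_le_integral_abs (by positivity)
      _ ≤ ∫ u in (0 : ℝ)..(2 * Real.pi), δ * (3 * q) * |w' (u + s u)| := by
          apply intervalIntegral.integral_mono_on (by positivity) i3.abs (i5.const_mul _)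
          intro u _
          rw [abs_mul, abs_mul]
          calc |w' (u + s u)| * |s' u| * |w (u + c₂)| ≤ |w' (u + s u)| * δ * (3 * q) := by
                gcongr
                · exact h1.bdd' u
                · exact hb _
            _ = δ * (3 * q) * |w' (u + s u)| := by ring
      _ = δ * (3 * q) * ∫ u in (0 : ℝ)..(2 * Real.pi), |w' (u + s u)| :=
          intervalIntegral.integral_const_mul _ _
      _ ≤ δ * (3 * q) * (2 * (3 * q)) := by
          gcongr
          linarith
      _ = 18 * (δ * q2 w') := by rw [hqq]; ring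
  have b3 := ibp h1 hδ hw c₂
  have hk : Shf δ (fun _ => c₁) (fun _ => 0) :=
    ⟨fun _ => rfl, fun u => hasDerivAt_const u c₁, continuous_const,
      fun _ => by simpa using hδ0⟩
  have b4 := ibp hk hδ hw c₂
  simp only [add_zero, mul_one] at b4
  have b5 : |(∫ u in (0 : ℝ)..(2 * Real.pi), w (u + s u) * w' (u + c₂)) -
      ∫ u in (0 : ℝ)..(2 * Real.pi), w (u + c₁) * w' (u + c₂)| ≤ 3 * (δ * q2 w') := by
    have i1 : IntervalIntegrable (fun u => w (u + s u) * w' (u + c₂)) volume 0 (2 * Real.pi) :=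
      mul_int (A := 1) (B := 1) (by fun_prop) (by fun_prop) (fun _ => hw.bdd _)
        (fun _ => hw.bdd' _) _ _
    have i2 : IntervalIntegrable (fun u => w (u + c₁) * w' (u + c₂)) volume 0 (2 * Real.pi) :=
      mul_int (A := 1) (B := 1) (by fun_prop) (by fun_prop) (fun _ => hw.bdd _)
        (fun _ => hw.bdd' _) _ _
    have e3 : ∫ u in (0 : ℝ)..(2 * Real.pi), w' (u + c₂) ^ 2 = q2 w' :=
      integral_shift (fun t => w' t ^ 2) (fun t => by rw [hw.per']) c₂
    rw [← intervalIntegral.integral_sub i1 i2]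
    refine (intervalIntegral.abs_integral_le_integral_abs (by positivity)).trans ?_
    refine le_trans ?_ (lv_bil hδ0 hw c₁ (f := fun u => w' (u + c₂)) (by fun_prop)
      (fun _ => hw.bdd' _) (by rw [e3]; linarith [FIN.q2_nonneg w']))
    apply intervalIntegral.integral_mono_on (by positivity)
    · exact (i1.sub i2).abs
    · refine IntervalIntegrable.mul_continuousOn ?_ (lv_con hw c₁).continuousOn
      exact ii (B := 1) (by fun_prop) (fun t => by rw [abs_abs]; exact hw.bdd' _) _ _
    · intro u _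
      rw [← sub_mul, abs_mul, mul_comm]
      exact mul_le_mul_of_nonneg_left (diff_le hδ0 hw (h1c u)) (abs_nonneg _)
  rw [abs_le] at a1 b2 b5 ⊢
  constructor <;> linarith [a1.1, a1.2, b2.1, b2.2, b5.1, b5.2]

theorem hBIL' : StBil := by
  refine ⟨36, by norm_num, ?_⟩
  intro δ c₁ c₂ w w' s₁ s₁' s₂ s₂' hδ hw hw0 p1 d1 c1 b1 k1 p2 d2 c2 b2 k2
  have hδ0 : 0 ≤ δ := (abs_nonneg _).trans (b1 0)
  have H1 : Shf δ s₁ s₁' := ⟨p1, d1, c1, b1⟩
  have H2 : Shf δ s₂ s₂' := ⟨p2, d2, c2, b2⟩
  constructor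
  · refine (bil1 hδ0 hδ hw hw0 H1 H2.con k1 k2).trans ?_
    have : 0 ≤ δ * q2 w' := mul_nonneg hδ0 (FIN.q2_nonneg w')
    linarith
  · exact bil2 hδ0 hw hw0 H1.con H2.con k1 k2

theorem hBIL (_ : StSha) : StBil := hBIL'

end Helper49.LT.BIL
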