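import Pool.Agent.Helper49.LT.M_FINc

/-!
# Project LT, module FIN: assembly, stability at the disk
-/

open MeasureTheory Set Filter Metric

namespace Helper49.LT.FIN

open Helper97.CB Helper49.LT

/-- from the estimates to the inclusions -/
theorem incl {K : Set ℂ} {x : ℂ × ℂ} {lam b : ℝ} {w : ℝ → ℝ} (hlam : 0 < lam)
    (hx : ‖x‖ ≤ 1 / 20) (hb0 : 0 ≤ b) (hb1 : b ≤ 1 / 4)
    (hbd : Bd (aff (lam : ℂ) 0 0 '' K) x w)
    (hw : ∀ t, |w t| ≤ b) (hxb : 2 * ‖x‖ ≤ b)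
    (h0 : (0 : ℂ) ∈ K) :
    closedBall 0 (1 / lam * (1 - 3 * b)) ⊆ K ∧ K ⊆ closedBall 0 (1 / lam * (1 + 3 * b)) := by
  have hzh : ∀ t, 1 - b ≤ ‖zh x t‖ ∧ ‖zh x t‖ ≤ 1 + b := by
    intro t
    constructor
    · linarith [le_norm_zh x t]
    · linarith [norm_zh_le x t]
  constructor
  · intro z hz
    rw [mem_closedBall_zero_iff] at hz
    by_cases hz0 : z = 0
    · rw [hz0]; exact h0
    have hne : (lam : ℂ) * z ≠ 0 :=
      mul_ne_zero (by exact_mod_cast hlam.ne') hz0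
    obtain ⟨t, m, hm, e⟩ := exists_ray x hx _ hne
    rw [← mem_scale hlam, e]
    have e2 : (m : ℂ) = ((1 + (m - 1) : ℝ) : ℂ) := by push_cast; ring
    rw [e2, hbd t (m - 1) (by linarith)]
    have e3 : lam * ‖z‖ = m * ‖zh x t‖ := by
      have := congrArg norm e
      rw [norm_mul, norm_mul, Complex.norm_real, Complex.norm_real, Real.norm_eq_abs,
        Real.norm_eq_abs, abs_of_pos hlam, abs_of_pos hm] at this
      exact this
    have h1 : lam * ‖z‖ ≤ 1 - 3 * b := by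
      calc lam * ‖z‖ ≤ lam * (1 / lam * (1 - 3 * b)) := by gcongr
        _ = 1 - 3 * b := by field_simp
    have h2 := (abs_le'.1 (hw t)).2
    have h3 := (hzh t).1
    rw [e3] at h1
    have h4 : m * (1 - b) ≤ 1 - 3 * b := le_trans (by gcongr) h1
    have h5 : m ≤ 1 - b := by
      by_contra hcon
      rw [not_le] at hcon
      nlinarith
    linarith
  · intro z hz
    rw [mem_closedBall_zero_iff]
    by_cases hz0 : z = 0
    · rw [hz0, norm_zero]; positivity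
    have hne : (lam : ℂ) * z ≠ 0 :=
      mul_ne_zero (by exact_mod_cast hlam.ne') hz0
    obtain ⟨t, m, hm, e⟩ := exists_ray x hx _ hne
    rw [← mem_scale hlam, e] at hz
    have e2 : (m : ℂ) = ((1 + (m - 1) : ℝ) : ℂ) := by push_cast; ring
    rw [e2, hbd t (m - 1) (by linarith)] at hz
    have e3 : lam * ‖z‖ = m * ‖zh x t‖ := by
      have := congrArg norm e
      rw [norm_mul, norm_mul, Complex.norm_real, Complex.norm_real, Real.norm_eq_abs,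
        Real.norm_eq_abs, abs_of_pos hlam, abs_of_pos hm] at this
      exact this
    have h2 := (abs_le'.1 (hw t)).1
    have h3 := (hzh t).2
    have h4 : m ≤ 1 + b := by linarith
    have h5 : lam * ‖z‖ ≤ 1 + 3 * b := by
      rw [e3]
      calc m * ‖zh x t‖ ≤ (1 + b) * (1 + b) := by gcongr
        _ ≤ 1 + 3 * b := by nlinarith
    calc ‖z‖ = 1 / lam * (lam * ‖z‖) := by field_simp
      _ ≤ 1 / lam * (1 + 3 * b) := by gcongr

/-- collecting the estimates (pure arithmetic) -/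
theorem collect (CB CL CQ CI CS CW : ℝ) (hCB : 0 < CB) (hCL : 0 < CL) (hCQ : 0 < CQ) (hCI : 0 < CI)
    (hCS : 0 < CS) (hCW : 0 < CW) :
    ∃ C : ℝ, 1 ≤ C ∧ ∀ (A e X q W μ η tb ll qq n1w q2w w1 w2 w3 w5 : ℝ),
    0 ≤ A → 0 ≤ e → 0 ≤ X → 0 ≤ q → 0 ≤ W → 0 ≤ μ → 0 ≤ η → 0 ≤ w1 → 0 ≤ w2 → 0 ≤ w3 → 0 ≤ w5 →
    0 ≤ n1w → 0 ≤ q2w →
    117 / 2 * Real.pi * A ^ 4 - CB * (e * X ^ 3 + X ^ 5) ≤ tb →
    |ll| ≤ CL * (A ^ 2 * W + (A * e + e ^ 2 + X ^ 3) * n1w) →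
    1 / 5 * q ^ 2 - CQ * (w1 ^ 2 + w2 ^ 2 + w3 ^ 2 + w5 ^ 2) ≤ qq →
    tb + ll + qq ≤ CI * ((η + X) * q ^ 2 + μ) →
    w1 ≤ CS * (X ^ 3 + X * n1w + q2w) → w2 ≤ CS * (A * e + X ^ 3 + X * n1w + q2w) →
    w3 ≤ CS * (X ^ 3 + X * n1w + q2w) → w5 ≤ CS * (X ^ 3 + X * n1w + q2w) →
    W + e ^ 2 ≤ CW * (X ^ 3 + X * q + q ^ 2 + μ) →
    n1w ≤ 21 * q → q2w ≤ 63 * q ^ 2 →
    W + e ^ 2 ≤ C * (X ^ 3 + X * q + q ^ 2 + μ) ∧
    A ^ 4 + q ^ 2 / 5 ≤ C * (e * X ^ 3 + X ^ 5 + (A * e + X ^ 3 + X * q + q ^ 2) ^ 2 + A ^ 2 * W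
      + (A * e + e ^ 2 + X ^ 3) * q + (η + X) * q ^ 2 + μ) := by
  refine ⟨1 + CB + 21 * CL + CQ * (4 * (63 * CS) ^ 2) + CI + CW, ?_, ?_⟩
  · have : 0 < CQ * (4 * (63 * CS) ^ 2) := by positivity
    linarith
  intro A e X q W μ η tb ll qq n1w q2w w1 w2 w3 w5 hA he hX hq hW hμ hη h1 h2 h3 h5 hn hqq
    htb hll hq2 htin s1 s2 s3 s5 hwts hn1 hq2w
  set C := 1 + CB + 21 * CL + CQ * (4 * (63 * CS) ^ 2) + CI + CW with hC
  have hpos : 0 < CQ * (4 * (63 * CS) ^ 2) := by positivity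
  set S := A * e + X ^ 3 + X * q + q ^ 2 with hS
  have hSn : 0 ≤ S := by positivity
  have key : ∀ v, v ≤ CS * (A * e + X ^ 3 + X * n1w + q2w) → 0 ≤ v → v ^ 2 ≤ (63 * CS) ^ 2 * S ^ 2 := by
    intro v hv hv0
    have h : v ≤ 63 * CS * S := by
      refine hv.trans ?_
      have h6 : X * n1w ≤ X * (21 * q) := by gcongr
      have h7 : A * e + X ^ 3 + X * n1w + q2w ≤ 63 * S := by
        rw [hS]
        have a1 : 0 ≤ A * e := by positivity
        have a2 : 0 ≤ X ^ 3 := by positivity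
        have a3 : 0 ≤ X * q := by positivity
        nlinarith
      calc CS * (A * e + X ^ 3 + X * n1w + q2w) ≤ CS * (63 * S) := by gcongr
        _ = 63 * CS * S := by ring
    calc v ^ 2 ≤ (63 * CS * S) ^ 2 := by gcongr
      _ = (63 * CS) ^ 2 * S ^ 2 := by ring
  have hAe : 0 ≤ A * e := by positivity
  have weak : ∀ v, v ≤ CS * (X ^ 3 + X * n1w + q2w) → v ≤ CS * (A * e + X ^ 3 + X * n1w + q2w) := by
    intro v hv
    refine hv.trans ?_
    gcongr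
    linarith
  have k1 := key w1 (weak _ s1) h1
  have k2 := key w2 s2 h2
  have k3 := key w3 (weak _ s3) h3
  have k5 := key w5 (weak _ s5) h5
  constructor
  · refine hwts.trans ?_
    have : 0 ≤ X ^ 3 + X * q + q ^ 2 + μ := by positivity
    apply mul_le_mul_of_nonneg_right _ this
    linarith
  · have hpi : (1 : ℝ) ≤ 117 / 2 * Real.pi := by linarith [Real.pi_gt_three]
    have b1 : A ^ 4 ≤ 117 / 2 * Real.pi * A ^ 4 := by
      have : 0 ≤ A ^ 4 := by positivity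
      nlinarith
    have b2 := (abs_le'.1 hll).2
    have b3 : CL * (A ^ 2 * W + (A * e + e ^ 2 + X ^ 3) * n1w) ≤
        21 * CL * (A ^ 2 * W + (A * e + e ^ 2 + X ^ 3) * q) := by
      have c1 : (A * e + e ^ 2 + X ^ 3) * n1w ≤ (A * e + e ^ 2 + X ^ 3) * (21 * q) := by gcongr
      have c2 : 0 ≤ A ^ 2 * W := by positivity
      calc CL * (A ^ 2 * W + (A * e + e ^ 2 + X ^ 3) * n1w)
          ≤ CL * (21 * (A ^ 2 * W + (A * e + e ^ 2 + X ^ 3) * q)) := by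
            gcongr
            linarith
        _ = 21 * CL * (A ^ 2 * W + (A * e + e ^ 2 + X ^ 3) * q) := by ring
    have b4 : CQ * (w1 ^ 2 + w2 ^ 2 + w3 ^ 2 + w5 ^ 2) ≤ CQ * (4 * (63 * CS) ^ 2) * S ^ 2 := by
      calc CQ * (w1 ^ 2 + w2 ^ 2 + w3 ^ 2 + w5 ^ 2) ≤ CQ * (4 * ((63 * CS) ^ 2 * S ^ 2)) := by
            gcongr
            linarith
        _ = CQ * (4 * (63 * CS) ^ 2) * S ^ 2 := by ring
    have t1 : 0 ≤ e * X ^ 3 + X ^ 5 := by positivity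
    have t2 : 0 ≤ A ^ 2 * W + (A * e + e ^ 2 + X ^ 3) * q := by positivity
    have t3 : 0 ≤ S ^ 2 := by positivity
    have t4 : 0 ≤ (η + X) * q ^ 2 + μ := by positivity
    have f1 : CB * (e * X ^ 3 + X ^ 5) ≤ C * (e * X ^ 3 + X ^ 5) := by
      apply mul_le_mul_of_nonneg_right _ t1; linarith
    have f2 : 21 * CL * (A ^ 2 * W + (A * e + e ^ 2 + X ^ 3) * q) ≤
        C * (A ^ 2 * W + (A * e + e ^ 2 + X ^ 3) * q) := by
      apply mul_le_mul_of_nonneg_right _ t2; linarith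
    have f3 : CQ * (4 * (63 * CS) ^ 2) * S ^ 2 ≤ C * S ^ 2 := by
      apply mul_le_mul_of_nonneg_right _ t3; linarith
    have f4 : CI * ((η + X) * q ^ 2 + μ) ≤ C * ((η + X) * q ^ 2 + μ) := by
      apply mul_le_mul_of_nonneg_right _ t4; linarith
    have e0 : C * (e * X ^ 3 + X ^ 5 + S ^ 2 + A ^ 2 * W
      + (A * e + e ^ 2 + X ^ 3) * q + (η + X) * q ^ 2 + μ) =
      C * (e * X ^ 3 + X ^ 5) + C * S ^ 2 + C * (A ^ 2 * W + (A * e + e ^ 2 + X ^ 3) * q) +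
      C * ((η + X) * q ^ 2 + μ) := by ring
    rw [e0]
    linarith

/-- the fourth root -/
theorem conc {C' μ A e q : ℝ} (hC' : 0 < C') (hμ0 : 0 ≤ μ) (hμ1 : μ ≤ 1) (hfin : A ^ 4 + e ^ 4 + q ^ 2 ≤ C' * μ) :
    0 ≤ μ ^ ((1 : ℝ) / 4) ∧ max A e ≤ (1 + C') * μ ^ ((1 : ℝ) / 4) ∧
      q ≤ (1 + C') * μ ^ ((1 : ℝ) / 4) := by
  set m := μ ^ ((1 : ℝ) / 4) with hm
  have hm0 : 0 ≤ m := Real.rpow_nonneg hμ0 _
  have hm4 : m ^ 4 = μ := by
    rw [hm, ← Real.rpow_natCast, ← Real.rpow_mul hμ0]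
    norm_num
  have hm1' : m ≤ 1 := Real.rpow_le_one hμ0 hμ1 (by norm_num)
  have hC1 : C' ≤ (1 + C') ^ 4 := by
    have := le_self_pow₀ (by linarith : (1 : ℝ) ≤ 1 + C') (by norm_num : (4 : ℕ) ≠ 0)
    linarith
  have hC2 : C' ≤ (1 + C') ^ 2 := by
    have := le_self_pow₀ (by linarith : (1 : ℝ) ≤ 1 + C') (by norm_num : (2 : ℕ) ≠ 0)
    linarith
  have pA : 0 ≤ A ^ 4 := by positivity
  have pe : 0 ≤ e ^ 4 := by positivity
  have pq : 0 ≤ q ^ 2 := by positivity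
  have hb : C' * μ ≤ (1 + C') ^ 4 * μ := by gcongr
  have hA : A ≤ (1 + C') * m := by
    have h1 : A ^ 4 ≤ ((1 + C') * m) ^ 4 := by
      rw [mul_pow, hm4]; linarith
    exact le_of_pow_le_pow_left₀ (by norm_num) (by positivity) h1
  have hE : e ≤ (1 + C') * m := by
    have h1 : e ^ 4 ≤ ((1 + C') * m) ^ 4 := by
      rw [mul_pow, hm4]; linarith
    exact le_of_pow_le_pow_left₀ (by norm_num) (by positivity) h1
  refine ⟨hm0, max_le hA hE, ?_⟩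
  have h1 : q ^ 2 ≤ ((1 + C') * m) ^ 2 := by
    rw [mul_pow]
    have h4 : μ ≤ m ^ 2 := by
      rw [← hm4]
      have : 0 ≤ m ^ 2 := by positivity
      have h6 : m ^ 2 ≤ 1 := by nlinarith
      nlinarith
    calc q ^ 2 ≤ C' * μ := by linarith
      _ ≤ (1 + C') ^ 2 * m ^ 2 := by gcongr
  exact le_of_sq_le_sq h1 (by positivity)

theorem hFIN (h₁ : StIft) (h₂ : StTay) (h₃ : StGau) (h₄ : StPol)
    (h₅ : StSub) (h₆ : StSmm) (h₇ : StLin) (h₈ : StQfo) (h₉ : StTba) (h₁₀ : StWts) (h₁₁ : StTin)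
    (h₁₂ : StFi1) (h₁₃ : StAff) : StFin := by
  obtain ⟨r, sp, sm, hC⟩ := h₁
  obtain ⟨rT, CT, κp, κm, hrT, hT⟩ := h₂ r sp sm hC
  obtain ⟨CG, κ₁, hCG, hκ₁, hκ₁', hκ₁s, hSet⟩ := setup h₃ h₄ h₅ h₁₃
  obtain ⟨CS, rS, hCS, hrS, hSM⟩ := h₆
  obtain ⟨CL, rL, hCL, hrL, hLI⟩ := h₇ r sp sm hC rT CT κp κm hrT hT
  obtain ⟨CQ, hCQ, hQF⟩ := h₈
  obtain ⟨CB, rB, hCB, hrB, hTB⟩ := h₉ r sp sm hC
  obtain ⟨CW, rW, hCW, hrW, hWT⟩ := h₁₀ r sp sm hC rT CT κp κm hrT hT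
  obtain ⟨CI, rI, hCI, hrI, hTI⟩ := h₁₁ r sp sm hC rT CT κp κm hrT hT
  obtain ⟨C₀, hC₀, hcol⟩ := collect CB CL CQ CI CS CW hCB hCL hCQ hCI hCS hCW
  obtain ⟨C', r₁, hC', hr₁, hF1⟩ := h₁₂ C₀ hC₀
  set R := min (min (min rS rL) (min rB rW)) (min (min rI r₁) (1 / 40)) with hR
  have hRpos : 0 < R := by
    simp only [hR, lt_min_iff]
    exact ⟨⟨⟨hrS, hrL⟩, hrB, hrW⟩, ⟨hrI, hr₁⟩, by norm_num⟩
  have hRS : R ≤ rS := by simp [hR]
  have hRL : R ≤ rL := by simp [hR]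
  have hRB : R ≤ rB := by simp [hR]
  have hRW : R ≤ rW := by simp [hR]
  have hRI : R ≤ rI := by simp [hR]
  have hR1 : R ≤ r₁ := by simp [hR]
  have hR40 : R ≤ 1 / 40 := by simp [hR]
  -- the final constant
  set D := 4 * (1 + C') with hD
  have hDpos : 0 < D := by positivity
  refine ⟨3 * D, min κ₁ ((R / (3 * CG)) ^ 2), by linarith, by positivity, ?_⟩
  intro K κ μ hK hk0 hκ hμ0 hμ1 hin hout har hm1 hm2 hsm
  have hκa : κ ≤ κ₁ := hκ.trans (min_le_left _ _)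
  have hκb : Real.sqrt κ ≤ R / (3 * CG) := by
    rw [Real.sqrt_le_left (by positivity)]; exact hκ.trans (min_le_right _ _)
  obtain ⟨lam, w, w', hlam, hlam1, hwf, hst⟩ := hSet K κ μ hK hk0 hκa hin hout har hsm
  set x := xx K with hx
  set η := CG * Real.sqrt κ with hη
  have hη3 : 3 * η ≤ R := by
    calc 3 * η = 3 * CG * Real.sqrt κ := by rw [hη]; ring
      _ ≤ 3 * CG * (R / (3 * CG)) := by gcongr
      _ = R := by field_simp
  have hη0 : 0 ≤ η := by positivity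
  have hηR : η ≤ R := by linarith
  have hκη : 3 * κ ≤ 3 * η := by
    have h1 := Real.sq_sqrt hk0
    have h2 := Real.sqrt_nonneg κ
    have h3 : Real.sqrt κ ≤ 1 := by
      rw [Real.sqrt_le_left (by norm_num)]; linarith
    have : κ ≤ Real.sqrt κ := by nlinarith
    have h4 : Real.sqrt κ ≤ CG * Real.sqrt κ := by nlinarith
    linarith
  have hxk := norm_xx_le h₄ hK hk0 (by linarith) hin hout
  have hxR : ‖x‖ ≤ R := by linarith
  have hX0 := norm_nonneg x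
  have hrgh := hst.rough
  have hmean := hst.mean
  set q := Real.sqrt (q2 w') with hq
  have hq0 : 0 ≤ q := Real.sqrt_nonneg _
  have hqsq : q2 w' = q ^ 2 := (Real.sq_sqrt (q2_nonneg w')).symm
  have hq3 : q ≤ 3 * η := q2'_le hrgh
  have hn1 := n1_le hrgh hmean
  have hq2 := q2_le hrgh hmean
  have hab := abs_le hrgh hmean
  rw [hqsq] at hq2
  -- the moments
  have hpi := Real.pi_pos
  have hpc : (Real.pi : ℂ) ≠ 0 := by exact_mod_cast hpi.ne'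
  have hmom := hSM K x lam w hK ((closedBall_subset_closedBall (by linarith)).trans hin)
    (hxR.trans hRS) har hm1 hm2 (by
      show ∫ z in K, z ^ 3 = (Real.pi : ℂ) * ((∫ z in K, z ^ 3) / (Real.pi : ℂ))
      field_simp) (by
      show ∫ z in K, z ^ 5 = (Real.pi : ℂ) * ((∫ z in K, z ^ 5) / (Real.pi : ℂ))
      field_simp) hlam1 hrgh.con hwf (fun t => (hrgh.bdd t).trans (by linarith)) hmean
  obtain ⟨hw1, hw2, hw3, hw5⟩ := hmom
  have hw0 : wf w 0 = 0 := by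
    unfold wf
    simp only [Int.cast_zero, neg_zero, zero_mul, ee_zero, mul_one]
    rw [intervalIntegral.integral_ofReal, hmean, Complex.ofReal_zero]
  have htb := hTB x (hxR.trans hRB)
  have hll := hLI x w (hxR.trans hRL) hrgh.con hrgh.per hmean
  have hqf := hQF w w' (hrgh.mono (by linarith))
  rw [hw0, norm_zero, hqsq] at hqf
  have hti := hTI η μ (aff (lam : ℂ) 0 0 '' K) x w w' (hxR.trans hRI) (hηR.trans hRI) hμ0 hμ1 hst
  have hwt := hWT η μ (aff (lam : ℂ) 0 0 '' K) x w w' (hxR.trans hRW) (hηR.trans hRW) hμ0 hμ1 hst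
  rw [hqsq] at hti
  rw [← hq, hqsq] at hwt
  obtain ⟨g1, g2⟩ := hcol ‖x.1‖ ‖x.2‖ ‖x‖ q ‖wf w 6‖ μ η (tB sp x) (lL sp sm κp κm x w) (qQ w w')
    (n1 w) (q2 w) ‖wf w 1‖ ‖wf w 2‖ ‖wf w 3‖ ‖wf w 5‖ (norm_nonneg _) (norm_nonneg _) hX0 hq0
    (norm_nonneg _) hμ0 hη0 (norm_nonneg _) (norm_nonneg _) (norm_nonneg _) (norm_nonneg _)
    (n1_nonneg w) (q2_nonneg w) htb hll (by linarith) hti hw1 hw2 hw3 hw5 hwt hn1 hq2
  have hXle : ‖x‖ ≤ ‖x.1‖ + ‖x.2‖ := by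
    rw [Prod.norm_def]
    exact max_le (by linarith [norm_nonneg x.2]) (by linarith [norm_nonneg x.1])
  have hfin := hF1 ‖x.1‖ ‖x.2‖ ‖x‖ q ‖wf w 6‖ μ η (norm_nonneg _) (norm_nonneg _) (fst_le x)
    (snd_le x) hXle hq0 (norm_nonneg _) hμ0 hμ1 hη0 (hxR.trans hR1)
    (hq3.trans (hη3.trans hR1)) (hηR.trans hR1) g1 g2
  -- the conclusion
  obtain ⟨hm0, hXm, hqm⟩ := conc hC' hμ0 hμ1 hfin
  rw [← Prod.norm_def] at hXm
  set m := μ ^ ((1 : ℝ) / 4) with hm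
  have h0K : (0 : ℂ) ∈ K := hin (by rw [mem_closedBall_zero_iff, norm_zero]; linarith)
  have hP : 0 ≤ (1 + C') * m := by positivity
  have hDm : D * m = 4 * ((1 + C') * m) := by rw [hD]; ring
  have hq3m : 3 * q ≤ D * m := by rw [hDm]; linarith
  have hx2m : 2 * ‖x‖ ≤ D * m := by rw [hDm]; linarith
  have hx20 : ‖x‖ ≤ 1 / 20 := by linarith
  -- if `D m ≤ 1/4` use `b = D m`, otherwise `b = 1/4`
  by_cases hbm : D * m ≤ 1 / 4
  · obtain ⟨i1, i2⟩ := incl (K := K) (x := x) (b := D * m) hlam hx20 (by rw [hDm]; linarith) hbm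
      hst.bd (fun t => (hab t).trans hq3m) hx2m h0K
    refine ⟨1 / lam, by positivity, ?_, ?_⟩
    · have e : 1 / lam * (1 - 3 * D * m) = 1 / lam * (1 - 3 * (D * m)) := by ring
      rw [e]; exact i1
    · have e : 1 / lam * (1 + 3 * D * m) = 1 / lam * (1 + 3 * (D * m)) := by ring
      rw [e]; exact i2
  · rw [not_le] at hbm
    have hq14 : 3 * q ≤ 1 / 4 := by linarith
    have hx14 : 2 * ‖x‖ ≤ 1 / 4 := by linarith
    obtain ⟨i1, i2⟩ := incl (K := K) (x := x) (b := 1 / 4) hlam hx20 (by norm_num) le_rfl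
      hst.bd (fun t => (hab t).trans hq14) hx14 h0K
    refine ⟨1 / lam, by positivity, ?_, ?_⟩
    · refine (closedBall_subset_closedBall ?_).trans i1
      apply mul_le_mul_of_nonneg_left _ (by positivity)
      linarith
    · refine i2.trans (closedBall_subset_closedBall ?_)
      apply mul_le_mul_of_nonneg_left _ (by positivity)
      linarith

end Helper49.LT.FIN
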