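import Pool.Agent.Helper49.LT.StB

/-!
# Project LT, module LIN: cancellation of the linear terms
-/

open MeasureTheory Set Filter Metric Asymptotics

namespace Helper49.LT.LIN

open Helper49.LT

/-- the linear form `a k3 + b s3 + c k5 + d s5` -/
noncomputable def lf (a b c d : ℝ) : ℂ × ℂ →L[ℝ] ℝ :=
  a • (Complex.reCLM.comp (ContinuousLinearMap.fst ℝ ℂ ℂ))
    - b • (Complex.imCLM.comp (ContinuousLinearMap.fst ℝ ℂ ℂ))
    + c • (Complex.reCLM.comp (ContinuousLinearMap.snd ℝ ℂ ℂ))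
    - d • (Complex.imCLM.comp (ContinuousLinearMap.snd ℝ ℂ ℂ))

theorem lf_apply (a b c d : ℝ) (v : ℂ × ℂ) :
    lf a b c d v = a * k3 v + b * s3 v + c * k5 v + d * s5 v := by
  simp [lf, k3, s3, k5, s5]
  ring

/-- first order approximation -/
def Ap (f l : ℂ × ℂ → ℝ) : Prop :=
  (fun v => f v - (1 + l v)) =O[nhds 0] (fun v => ‖v‖ ^ 2)

def Lo (l : ℂ × ℂ → ℝ) : Prop := l =O[nhds 0] (fun v => ‖v‖)

theorem norm_sq_O : (fun v : ℂ × ℂ => ‖v‖ ^ 2) =O[nhds 0] (fun v => ‖v‖) := by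
  refine IsBigO.of_bound 1 ?_
  filter_upwards [Metric.ball_mem_nhds (0 : ℂ × ℂ) one_pos] with v hv
  rw [mem_ball_zero_iff] at hv
  rw [Real.norm_eq_abs, Real.norm_eq_abs, abs_of_nonneg (by positivity),
    abs_of_nonneg (norm_nonneg v)]
  nlinarith [norm_nonneg v]

theorem norm_O1 : (fun v : ℂ × ℂ => ‖v‖) =O[nhds 0] (fun _ => (1 : ℝ)) := by
  refine IsBigO.of_bound 1 ?_
  filter_upwards [Metric.ball_mem_nhds (0 : ℂ × ℂ) one_pos] with v hv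
  rw [mem_ball_zero_iff] at hv
  rw [Real.norm_eq_abs, abs_of_nonneg (norm_nonneg v)]
  simp; linarith

theorem Ap.sub_one {f l : ℂ × ℂ → ℝ} (h : Ap f l) (hl : Lo l) :
    (fun v => f v - 1) =O[nhds 0] (fun v => ‖v‖) := by
  have h1 : (fun v => f v - (1 + l v)) =O[nhds 0] (fun v => ‖v‖) := IsBigO.trans h norm_sq_O
  have h2 := h1.add hl
  refine h2.congr_left ?_
  intro v; ring

theorem Ap.bdd {f l : ℂ × ℂ → ℝ} (h : Ap f l) (hl : Lo l) :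
    f =O[nhds 0] (fun _ => (1 : ℝ)) := by
  have h1 := (h.sub_one hl).trans norm_O1
  have h2 : (fun _ : ℂ × ℂ => (1 : ℝ)) =O[nhds (0 : ℂ × ℂ)] (fun _ => (1 : ℝ)) :=
    isBigO_refl _ _
  refine (h1.add h2).congr_left ?_
  intro v; ring

theorem Ap.mul {f g l m : ℂ × ℂ → ℝ} (hf : Ap f l) (hg : Ap g m) (hl : Lo l) (hm : Lo m) :
    Ap (fun v => f v * g v) (fun v => l v + m v) := by
  unfold Ap
  have h1 : (fun v => (f v - (1 + l v)) * g v) =O[nhds 0] (fun v => ‖v‖ ^ 2) := by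
    have := IsBigO.mul hf (hg.bdd hm)
    simpa using this
  have h2 : (fun v => (1 + l v) * (g v - (1 + m v))) =O[nhds 0] (fun v => ‖v‖ ^ 2) := by
    have h3 : (fun v => 1 + l v) =O[nhds 0] (fun _ => (1 : ℝ)) :=
      (isBigO_refl _ _).add (hl.trans norm_O1)
    have := IsBigO.mul h3 hg
    simpa using this
  have h3 : (fun v => l v * m v) =O[nhds 0] (fun v => ‖v‖ ^ 2) := by
    have := IsBigO.mul hl hm
    simpa [sq] using this
  refine ((h1.add h2).add h3).congr_left ?_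
  intro v; ring

theorem Ap.inv {f l : ℂ × ℂ → ℝ} (hf : Ap f l) (hl : Lo l) (hb : ∀ᶠ v in nhds (0 : ℂ × ℂ),
    1 / 8 ≤ f v) : Ap (fun v => (f v)⁻¹) (fun v => - l v) := by
  unfold Ap
  have h1 : (fun v => (f v)⁻¹) =O[nhds 0] (fun _ => (1 : ℝ)) := by
    refine IsBigO.of_bound 8 ?_
    filter_upwards [hb] with v hv
    have : 0 < f v := by linarith
    rw [Real.norm_eq_abs, abs_of_nonneg (by positivity)]
    rw [inv_le_comm₀ this (by norm_num)]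
    simp; linarith
  have h2 : (fun v => (l v * (f v - 1) - (f v - (1 + l v))) * (f v)⁻¹) =O[nhds 0]
      (fun v => ‖v‖ ^ 2) := by
    have h3 : (fun v => l v * (f v - 1)) =O[nhds 0] (fun v => ‖v‖ ^ 2) := by
      have := IsBigO.mul hl (hf.sub_one hl)
      simpa [sq] using this
    have := IsBigO.mul (h3.sub hf) h1
    simpa using this
  refine h2.congr' ?_ (Eventually.of_forall fun _ => rfl)
  filter_upwards [hb] with v hv
  have : f v ≠ 0 := by linarith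
  field_simp
  ring

theorem lo_lf (a b c d : ℝ) : Lo (fun v => lf a b c d v) :=
  (lf a b c d).isBigO_id _ |>.norm_right

theorem bound_of_O {f : ℂ × ℂ → ℝ} (h : f =O[nhds 0] (fun v => ‖v‖ ^ 2)) :
    ∃ C r : ℝ, 0 ≤ C ∧ 0 < r ∧ ∀ v ∈ ball (0 : ℂ × ℂ) r, |f v| ≤ C * ‖v‖ ^ 2 := by
  obtain ⟨C, hC, h1⟩ := h.exists_nonneg
  rw [IsBigOWith] at h1
  obtain ⟨r, hr, h2⟩ := Metric.eventually_nhds_iff_ball.1 h1
  refine ⟨C, r, hC, hr, ?_⟩
  intro v hv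
  have := h2 v hv
  rwa [Real.norm_eq_abs, Real.norm_eq_abs, abs_of_nonneg (by positivity : 0 ≤ ‖v‖ ^ 2)] at this

theorem quad_O (f : ℂ × ℂ → ℝ) (C : ℝ) (h : ∀ v, ‖v‖ ≤ 1 / 10 → |f v| ≤ C * ‖v‖ ^ 2) :
    f =O[nhds 0] (fun v => ‖v‖ ^ 2) := by
  refine IsBigO.of_bound C ?_
  filter_upwards [Metric.closedBall_mem_nhds (0 : ℂ × ℂ) (by norm_num : (0 : ℝ) < 1 / 10)] with v hv
  rw [mem_closedBall_zero_iff] at hv
  rw [Real.norm_eq_abs, Real.norm_eq_abs, abs_of_nonneg (by positivity : 0 ≤ ‖v‖ ^ 2)]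
  exact h v hv

theorem coords (v : ℂ × ℂ) : |k3 v| ≤ ‖v‖ ∧ |s3 v| ≤ ‖v‖ ∧ |k5 v| ≤ ‖v‖ ∧ |s5 v| ≤ ‖v‖ :=
  ⟨(abs_k3 v).trans (fst_le v), (abs_s3 v).trans (fst_le v), (abs_k5 v).trans (snd_le v),
    (abs_s5 v).trans (snd_le v)⟩

theorem mulb {a b ρ : ℝ} (ha : |a| ≤ ρ) (hb : |b| ≤ ρ) : |a * b| ≤ ρ ^ 2 := by
  rw [abs_mul, sq]
  exact mul_le_mul ha hb (abs_nonneg _) ((abs_nonneg _).trans ha)

theorem ap_h0 : Ap h0 (fun v => lf (-1) 0 (-3) 0 v) := by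
  apply quad_O _ 24
  intro v _
  obtain ⟨a, b, c, d⟩ := coords v
  have p1 := abs_le.1 (mulb a a)
  have p2 := abs_le.1 (mulb b b)
  have p3 := abs_le.1 (mulb c c)
  have p4 := abs_le.1 (mulb d d)
  have p5 := abs_le.1 (mulb a c)
  have p6 := abs_le.1 (mulb b d)
  show |h0 v - (1 + lf (-1) 0 (-3) 0 v)| ≤ _
  rw [lf_apply, h0, abs_le]
  constructor <;> nlinarith [p1.1, p1.2, p2.1, p2.2, p3.1, p3.2, p4.1, p4.2, p5.1, p5.2, p6.1, p6.2]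

theorem re_eq (v : ℂ × ℂ) :
    ((starRingEnd ℂ) (1 - 2 * v.1 - 4 * v.2) * (1 + 4 * v.1 + 16 * v.2)).re =
    (1 - 2 * k3 v - 4 * k5 v) * (1 + 4 * k3 v + 16 * k5 v)
      - (2 * s3 v + 4 * s5 v) * (4 * s3 v + 16 * s5 v) := by
  simp [k3, s3, k5, s5]
  ring

theorem ap_re : Ap (fun v => ((starRingEnd ℂ) (1 - 2 * v.1 - 4 * v.2) *
    (1 + 4 * v.1 + 16 * v.2)).re) (fun v => lf 2 0 12 0 v) := by
  apply quad_O _ 300
  intro v _
  obtain ⟨a, b, c, d⟩ := coords v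
  have p1 := abs_le.1 (mulb a a)
  have p2 := abs_le.1 (mulb b b)
  have p3 := abs_le.1 (mulb c c)
  have p4 := abs_le.1 (mulb d d)
  have p5 := abs_le.1 (mulb a c)
  have p6 := abs_le.1 (mulb b d)
  show |((starRingEnd ℂ) (1 - 2 * v.1 - 4 * v.2) * (1 + 4 * v.1 + 16 * v.2)).re
    - (1 + lf 2 0 12 0 v)| ≤ _
  rw [lf_apply, re_eq, abs_le]
  constructor <;> nlinarith [p1.1, p1.2, p2.1, p2.2, p3.1, p3.2, p4.1, p4.2, p5.1, p5.2, p6.1, p6.2]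

theorem sg_sq (v : ℂ × ℂ) :
    sg v ^ 2 = (1 - 2 * k3 v - 4 * k5 v) ^ 2 + (2 * s3 v + 4 * s5 v) ^ 2 := by
  unfold sg
  rw [← Complex.normSq_eq_norm_sq, Complex.normSq_apply]
  simp [k3, s3, k5, s5]
  ring

theorem ap_sg : Ap sg (fun v => lf (-2) 0 (-4) 0 v) := by
  apply quad_O _ 60
  intro v hv
  obtain ⟨a, b, c, d⟩ := coords v
  have hs := sg_sq v
  have hn : 0 ≤ sg v := norm_nonneg _
  have a' := abs_le.1 a
  have c' := abs_le.1 c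
  have hp : 1 / 3 ≤ 1 - 2 * k3 v - 4 * k5 v := by linarith [a'.2, c'.2]
  have hq : |2 * s3 v + 4 * s5 v| ≤ 6 * ‖v‖ := by
    calc |2 * s3 v + 4 * s5 v| ≤ |2 * s3 v| + |4 * s5 v| := abs_add_le _ _
      _ = 2 * |s3 v| + 4 * |s5 v| := by rw [abs_mul, abs_mul]; norm_num
      _ ≤ 6 * ‖v‖ := by linarith
  have hq2 : (2 * s3 v + 4 * s5 v) ^ 2 ≤ 36 * ‖v‖ ^ 2 := by
    have := sq_le_sq' (by linarith [(abs_le.1 hq).1] : -(6 * ‖v‖) ≤ 2 * s3 v + 4 * s5 v)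
      (abs_le.1 hq).2
    nlinarith
  have hge : 1 - 2 * k3 v - 4 * k5 v ≤ sg v := by
    apply le_of_sq_le_sq _ hn
    rw [hs]; nlinarith [sq_nonneg (2 * s3 v + 4 * s5 v)]
  show |sg v - (1 + lf (-2) 0 (-4) 0 v)| ≤ _
  have e : (sg v - (1 - 2 * k3 v - 4 * k5 v)) * (sg v + (1 - 2 * k3 v - 4 * k5 v)) =
      (2 * s3 v + 4 * s5 v) ^ 2 := by nlinarith
  have h2 : 0 ≤ sg v - (1 - 2 * k3 v - 4 * k5 v) := by linarith
  rw [lf_apply, abs_of_nonneg (by linarith)]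
  have h3 : (sg v - (1 - 2 * k3 v - 4 * k5 v)) * (3 / 5) ≤ 36 * ‖v‖ ^ 2 := by
    refine le_trans ?_ (e.le.trans hq2)
    apply mul_le_mul_of_nonneg_left _ h2
    linarith
  linarith

theorem sg_ge (v : ℂ × ℂ) (hv : ‖v‖ ≤ 1 / 20) : 1 / 2 ≤ sg v := by
  have := abs_sg_sub v
  have := (abs_le.1 this).1
  linarith

theorem ap_sg3 : Ap (fun v => sg v ^ 3) (fun v => lf (-6) 0 (-12) 0 v) := by
  have h := (ap_sg.mul (ap_sg.mul ap_sg (lo_lf _ _ _ _) (lo_lf _ _ _ _)) (lo_lf _ _ _ _)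
    ((lo_lf (-2) 0 (-4) 0).add (lo_lf (-2) 0 (-4) 0)))
  unfold Ap at *
  refine h.congr_left ?_
  intro v
  simp only [lf_apply]
  ring

theorem ap_kt : Ap kt (fun v => lf 7 0 21 0 v) := by
  have h3 : Ap (fun v => (sg v ^ 3)⁻¹) (fun v => - lf (-6) 0 (-12) 0 v) := by
    apply ap_sg3.inv (lo_lf _ _ _ _)
    filter_upwards [Metric.closedBall_mem_nhds (0 : ℂ × ℂ) (by norm_num : (0 : ℝ) < 1 / 20)]
      with v hv
    rw [mem_closedBall_zero_iff] at hv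
    have := sg_ge v hv
    calc (1 / 8 : ℝ) = (1 / 2) ^ 3 := by norm_num
      _ ≤ sg v ^ 3 := by gcongr
  have h := (ap_h0.mul ap_re (lo_lf _ _ _ _) (lo_lf _ _ _ _)).mul h3
    ((lo_lf (-1) 0 (-3) 0).add (lo_lf 2 0 12 0)) (lo_lf (-6) 0 (-12) 0).neg_left
  unfold Ap at *
  refine h.congr_left ?_
  intro v
  simp only [lf_apply, kt]
  ring

theorem cd_k3 : ContDiff ℝ 4 k3 := by
  unfold k3; exact Complex.reCLM.contDiff.comp contDiff_fst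
theorem cd_s3 : ContDiff ℝ 4 s3 := by
  unfold s3; exact (Complex.imCLM.contDiff.comp contDiff_fst).neg
theorem cd_k5 : ContDiff ℝ 4 k5 := by
  unfold k5; exact Complex.reCLM.contDiff.comp contDiff_snd
theorem cd_s5 : ContDiff ℝ 4 s5 := by
  unfold s5; exact (Complex.imCLM.contDiff.comp contDiff_snd).neg

theorem cd_h0 : ContDiff ℝ 4 h0 := by
  unfold h0
  have := cd_k3
  have := cd_s3
  have := cd_k5
  have := cd_s5
  fun_prop

theorem cd_kt : ContDiffOn ℝ 4 kt (ball 0 (1 / 20)) := by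
  have h1 : ContDiff ℝ 4 (fun v : ℂ × ℂ => (1 - 2 * v.1 - 4 * v.2)) := by fun_prop
  have h2 : ContDiff ℝ 4 (fun v : ℂ × ℂ => ((starRingEnd ℂ) (1 - 2 * v.1 - 4 * v.2) *
      (1 + 4 * v.1 + 16 * v.2)).re) := by
    have e : (fun v : ℂ × ℂ => ((starRingEnd ℂ) (1 - 2 * v.1 - 4 * v.2) *
      (1 + 4 * v.1 + 16 * v.2)).re) = fun v => (1 - 2 * k3 v - 4 * k5 v) *
      (1 + 4 * k3 v + 16 * k5 v) - (2 * s3 v + 4 * s5 v) * (4 * s3 v + 16 * s5 v) :=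
      funext re_eq
    rw [e]
    have := cd_k3
    have := cd_s3
    have := cd_k5
    have := cd_s5
    fun_prop
  have hne : ∀ v ∈ ball (0 : ℂ × ℂ) (1 / 20), (1 - 2 * v.1 - 4 * v.2) ≠ 0 := by
    intro v hv h
    rw [mem_ball_zero_iff] at hv
    have := sg_ge v hv.le
    unfold sg at this
    rw [h, norm_zero] at this
    linarith
  have h3 : ContDiffOn ℝ 4 sg (ball 0 (1 / 20)) := h1.contDiffOn.norm ℝ hne
  have h4 : ContDiffOn ℝ 4 (fun v => sg v ^ 3) (ball 0 (1 / 20)) := h3.pow 3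
  unfold kt
  refine ((cd_h0.mul h2).contDiffOn).div h4 ?_
  intro v hv
  rw [mem_ball_zero_iff] at hv
  have := sg_ge v hv.le
  positivity

/-- the coordinates of `X y` -/
theorem X_coords (y : ℂ × ℂ) :
    k3 (-3 * Complex.I * y.1, -5 * Complex.I * y.2) = -3 * s3 y ∧
    s3 (-3 * Complex.I * y.1, -5 * Complex.I * y.2) = 3 * k3 y ∧
    k5 (-3 * Complex.I * y.1, -5 * Complex.I * y.2) = -5 * s5 y ∧
    s5 (-3 * Complex.I * y.1, -5 * Complex.I * y.2) = 5 * k5 y := by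
  simp [k3, s3, k5, s5]

theorem ee_five (σ : ℝ) (hσ : σ = Real.pi / 3) :
    (ee (-5 * -σ)).re = 1 / 2 ∧ (ee (-5 * -σ)).im = -(Real.sqrt 3 / 2) ∧
    (ee (-5 * σ)).re = 1 / 2 ∧ (ee (-5 * σ)).im = Real.sqrt 3 / 2 := by
  have hc : Real.cos (5 * (Real.pi / 3)) = 1 / 2 := by
    rw [show 5 * (Real.pi / 3) = -(Real.pi / 3) + 2 * Real.pi by ring, Real.cos_add_two_pi,
      Real.cos_neg, Real.cos_pi_div_three]
  have hs : Real.sin (5 * (Real.pi / 3)) = -(Real.sqrt 3 / 2) := by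
    rw [show 5 * (Real.pi / 3) = -(Real.pi / 3) + 2 * Real.pi by ring, Real.sin_add_two_pi,
      Real.sin_neg, Real.sin_pi_div_three]
  subst hσ
  refine ⟨?_, ?_, ?_, ?_⟩
  · rw [ee_re, show -5 * -(Real.pi / 3) = 5 * (Real.pi / 3) by ring, hc]
  · rw [ee_im, show -5 * -(Real.pi / 3) = 5 * (Real.pi / 3) by ring, hs]
  · rw [ee_re, show -5 * (Real.pi / 3) = -(5 * (Real.pi / 3)) by ring, Real.cos_neg, hc]
  · rw [ee_im, show -5 * (Real.pi / 3) = -(5 * (Real.pi / 3)) by ring, Real.sin_neg, hs, neg_neg]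

theorem ee_three :
    ee (-3 * -(Real.pi / 3)) = -1 ∧ ee (-3 * (Real.pi / 3)) = -1 := by
  constructor
  · rw [show -3 * -(Real.pi / 3) = Real.pi by ring, ee_pi]
  · rw [show -3 * (Real.pi / 3) = -Real.pi by ring, ee_neg, ee_pi]; simp

theorem rot_m (y : ℂ × ℂ) :
    k3 (rot (-(Real.pi / 3)) y) = -k3 y ∧ s3 (rot (-(Real.pi / 3)) y) = -s3 y ∧
    k5 (rot (-(Real.pi / 3)) y) = k5 y / 2 - Real.sqrt 3 / 2 * s5 y ∧
    s5 (rot (-(Real.pi / 3)) y) = s5 y / 2 + Real.sqrt 3 / 2 * k5 y := by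
  obtain ⟨a, b, _, _⟩ := ee_five (Real.pi / 3) rfl
  have h := ee_three.1
  refine ⟨?_, ?_, ?_, ?_⟩
  · show (ee (-3 * -(Real.pi / 3)) * y.1).re = _
    rw [h]; simp [k3]
  · show -(ee (-3 * -(Real.pi / 3)) * y.1).im = _
    rw [h]; simp [s3]
  · show (ee (-5 * -(Real.pi / 3)) * y.2).re = _
    rw [Complex.mul_re, a, b]; simp only [k5, s5]; ring
  · show -(ee (-5 * -(Real.pi / 3)) * y.2).im = _
    rw [Complex.mul_im, a, b]; simp only [k5, s5]; ring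

theorem rot_p (y : ℂ × ℂ) :
    k3 (rot (Real.pi / 3) y) = -k3 y ∧ s3 (rot (Real.pi / 3) y) = -s3 y ∧
    k5 (rot (Real.pi / 3) y) = k5 y / 2 + Real.sqrt 3 / 2 * s5 y ∧
    s5 (rot (Real.pi / 3) y) = s5 y / 2 - Real.sqrt 3 / 2 * k5 y := by
  obtain ⟨_, _, a, b⟩ := ee_five (Real.pi / 3) rfl
  have h := ee_three.2
  refine ⟨?_, ?_, ?_, ?_⟩
  · show (ee (-3 * (Real.pi / 3)) * y.1).re = _
    rw [h]; simp [k3]
  · show -(ee (-3 * (Real.pi / 3)) * y.1).im = _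
    rw [h]; simp [s3]
  · show (ee (-5 * (Real.pi / 3)) * y.2).re = _
    rw [Complex.mul_re, a, b]; simp only [k5, s5]; ring
  · show -(ee (-5 * (Real.pi / 3)) * y.2).im = _
    rw [Complex.mul_im, a, b]; simp only [k5, s5]; ring

/-- the transported linear form of KER -/
noncomputable def tr (σ₀ : ℝ) (K₁ S₁ : ℂ × ℂ →L[ℝ] ℝ) (y : ℂ × ℂ) : ℝ :=
  K₁ (rot (-σ₀) y) - S₁ (-3 * Complex.I * (rot (-σ₀) y).1, -5 * Complex.I * (rot (-σ₀) y).2)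

theorem sum_zero (y : ℂ × ℂ) :
    tr (Real.pi / 3) (lf 2 (Real.sqrt 3) (-17 / 2) (-(Real.sqrt 3) / 2))
      (lf (Real.sqrt 3) (-1) (-(Real.sqrt 3)) 1) y
    + tr (-(Real.pi / 3)) (lf 2 (-(Real.sqrt 3)) (-17 / 2) (Real.sqrt 3 / 2))
      (lf (-(Real.sqrt 3)) (-1) (Real.sqrt 3) 1) y
    + tr 0 (lf 7 0 21 0) 0 y - 3 * tr 0 (lf (-1) 0 (-3) 0) 0 y = 0 := by
  obtain ⟨m1, m2, m3, m4⟩ := rot_m y
  obtain ⟨p1, p2, p3, p4⟩ := rot_p y
  obtain ⟨a1, a2, a3, a4⟩ := X_coords (rot (-(Real.pi / 3)) y)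
  obtain ⟨b1, b2, b3, b4⟩ := X_coords (rot (Real.pi / 3) y)
  have h3 : Real.sqrt 3 * Real.sqrt 3 = 3 := Real.mul_self_sqrt (by norm_num)
  unfold tr
  rw [neg_neg]
  simp only [lf_apply, neg_zero, rot_zero, _root_.zero_apply]
  rw [a1, a2, a3, a4, b1, b2, b3, b4, m1, m2, m3, m4, p1, p2, p3, p4]
  linear_combination (-11 / 2 * k5 y) * h3

theorem continuous_tr (σ₀ : ℝ) (K₁ S₁ : ℂ × ℂ →L[ℝ] ℝ) (x : ℂ × ℂ) :
    Continuous (fun t => tr σ₀ K₁ S₁ (rot t x)) := by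
  have h0 : ∀ t, rot (-σ₀) (rot t x) = rot (-σ₀ + t) x := fun t => (rot_add _ _ _).symm
  have h1 : Continuous (fun t => rot (-σ₀ + t) x) :=
    (continuous_rot x).comp (continuous_const.add continuous_id)
  unfold tr
  simp only [h0]
  refine (K₁.continuous.comp h1).sub (S₁.continuous.comp ?_)
  exact (continuous_const.mul (continuous_fst.comp h1)).prodMk
    (continuous_const.mul (continuous_snd.comp h1))

theorem hLIN (h₁ : StJet) (h₂ : StKer) : StLin := by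
  intro r sp sm hC r' C' κp κm hr' hT
  obtain ⟨CJ, rJ, hCJ, hrJ, hrJr, hJ⟩ := h₁ r sp sm hC
  have hs3 : Real.sqrt 3 ≠ 0 := by positivity
  have hpi := Real.pi_pos
  have hpi4 := Real.pi_le_four
  set ρ := min r' rJ with hρ
  have hρ0 : 0 < ρ := lt_min hT.pos hrJ
  have hsub : ∀ v ∈ ball (0 : ℂ × ℂ) ρ, v ∈ ball (0 : ℂ × ℂ) r' ∧
      ((v, (0 : ℝ × ℝ)) : (ℂ × ℂ) × (ℝ × ℝ)) ∈ ball (0 : (ℂ × ℂ) × (ℝ × ℝ)) rJ ∧
      ((v, (0 : ℝ × ℝ)) : (ℂ × ℂ) × (ℝ × ℝ)) ∈ ball (0 : (ℂ × ℂ) × (ℝ × ℝ)) r := by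
    intro v hv
    rw [mem_ball_zero_iff] at hv
    have hn : ‖((v, (0 : ℝ × ℝ)) : (ℂ × ℂ) × (ℝ × ℝ))‖ = ‖v‖ := by
      rw [Prod.norm_def]; simp
    refine ⟨?_, ?_, ?_⟩
    · rw [mem_ball_zero_iff]; exact hv.trans_le (min_le_left _ _)
    · rw [mem_ball_zero_iff, hn]; exact hv.trans_le (min_le_right _ _)
    · rw [mem_ball_zero_iff, hn]
      exact (hv.trans_le (min_le_right _ _)).trans_le hrJr
  have hnv : ∀ v : ℂ × ℂ, ‖((v, (0 : ℝ × ℝ)) : (ℂ × ℂ) × (ℝ × ℝ))‖ = ‖v‖ := by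
    intro v; rw [Prod.norm_def]; simp
  have hemb : ContDiff ℝ 4 (fun v : ℂ × ℂ => ((v, (0 : ℝ × ℝ)) : (ℂ × ℂ) × (ℝ × ℝ))) :=
    contDiff_id.prodMk contDiff_const
  have cp : ContDiffOn ℝ 4 (fun v : ℂ × ℂ => sp (v, 0)) (ball 0 ρ) :=
    (hC.cp.of_le (by norm_num)).comp hemb.contDiffOn (fun v hv => (hsub v hv).2.2)
  have cm : ContDiffOn ℝ 4 (fun v : ℂ × ℂ => sm (v, 0)) (ball 0 ρ) :=
    (hC.cm.of_le (by norm_num)).comp hemb.contDiffOn (fun v hv => (hsub v hv).2.2)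
  have kbp : ∀ v ∈ ball (0 : ℂ × ℂ) ρ, |κp v - 1 -
      lf 2 (Real.sqrt 3) (-17 / 2) (-(Real.sqrt 3) / 2) v| ≤ (C' + CJ) * ‖v‖ ^ 2 := by
    intro v hv
    have h := hT.kp v (hsub v hv).1
    rw [lf_apply]
    have e : κp v - 1 - (2 * k3 v + Real.sqrt 3 * s3 v + -17 / 2 * k5 v +
        -(Real.sqrt 3) / 2 * s5 v) = κp v - (1 + (2 * k3 v + Real.sqrt 3 * s3 v - 17 / 2 * k5 v
        - Real.sqrt 3 / 2 * s5 v)) := by ring
    rw [e]
    have : 0 ≤ CJ * ‖v‖ ^ 2 := by positivity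
    linarith
  have kbm : ∀ v ∈ ball (0 : ℂ × ℂ) ρ, |κm v - 1 -
      lf 2 (-(Real.sqrt 3)) (-17 / 2) (Real.sqrt 3 / 2) v| ≤ (C' + CJ) * ‖v‖ ^ 2 := by
    intro v hv
    have h := hT.km v (hsub v hv).1
    rw [lf_apply]
    have e : κm v - 1 - (2 * k3 v + -(Real.sqrt 3) * s3 v + -17 / 2 * k5 v +
        Real.sqrt 3 / 2 * s5 v) = κm v - (1 + (2 * k3 v - Real.sqrt 3 * s3 v - 17 / 2 * k5 v
        + Real.sqrt 3 / 2 * s5 v)) := by ring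
    rw [e]
    have : 0 ≤ CJ * ‖v‖ ^ 2 := by positivity
    linarith
  have hC'0 := hT.posC
  have sbp : ∀ v ∈ ball (0 : ℂ × ℂ) ρ, |sp (v, 0) - Real.pi / 3 -
      lf (Real.sqrt 3) (-1) (-(Real.sqrt 3)) 1 v| ≤ (C' + CJ) * ‖v‖ ^ 2 := by
    intro v hv
    have h := (hJ (v, 0) (hsub v hv).2.1).1
    rw [hnv] at h
    rw [lf_apply]
    have e : sp (v, 0) - Real.pi / 3 - (Real.sqrt 3 * k3 v + -1 * s3 v + -(Real.sqrt 3) * k5 v +
        1 * s5 v) = sp (v, 0) - (Real.pi / 3 + lsp (v, 0)) := by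
      unfold lsp; simp; ring
    rw [e]
    have : 0 ≤ C' * ‖v‖ ^ 2 := by positivity
    linarith
  have sbm : ∀ v ∈ ball (0 : ℂ × ℂ) ρ, |sm (v, 0) - (-(Real.pi / 3)) -
      lf (-(Real.sqrt 3)) (-1) (Real.sqrt 3) 1 v| ≤ (C' + CJ) * ‖v‖ ^ 2 := by
    intro v hv
    have h := (hJ (v, 0) (hsub v hv).2.1).2.1
    rw [hnv] at h
    rw [lf_apply]
    have e : sm (v, 0) - (-(Real.pi / 3)) - (-(Real.sqrt 3) * k3 v + -1 * s3 v +
        Real.sqrt 3 * k5 v + 1 * s5 v) = sm (v, 0) - (-(Real.pi / 3) + lsm (v, 0)) := by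
      unfold lsm; simp; ring
    rw [e]
    have : 0 ≤ C' * ‖v‖ ^ 2 := by positivity
    linarith
  obtain ⟨Ck, rk, hCk, hrk, hk⟩ := bound_of_O ap_kt
  obtain ⟨Ch, rh, hCh, hrh, hh⟩ := bound_of_O ap_h0
  have hσ1 : |Real.pi / 3| ≤ 2 := by rw [abs_of_pos (by positivity)]; linarith
  have hσ2 : |-(Real.pi / 3)| ≤ 2 := by rw [abs_neg]; exact hσ1
  obtain ⟨C1, r1, hC1, hr1, hr1', H1⟩ := h₂ κp (fun v => sp (v, 0)) ρ (Real.pi / 3) (C' + CJ)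
    (lf 2 (Real.sqrt 3) (-17 / 2) (-(Real.sqrt 3) / 2)) (lf (Real.sqrt 3) (-1) (-(Real.sqrt 3)) 1)
    hρ0 (hT.cp.mono (ball_subset_ball (min_le_left _ _))) cp hT.vp hC.vp hσ1 kbp sbp
  obtain ⟨C2, r2, hC2, hr2, hr2', H2⟩ := h₂ κm (fun v => sm (v, 0)) ρ (-(Real.pi / 3)) (C' + CJ)
    (lf 2 (-(Real.sqrt 3)) (-17 / 2) (Real.sqrt 3 / 2)) (lf (-(Real.sqrt 3)) (-1) (Real.sqrt 3) 1)
    hρ0 (hT.cm.mono (ball_subset_ball (min_le_left _ _))) cm hT.vm hC.vm hσ2 kbm sbm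
  have kt0 : kt 0 = 1 := by simp [kt, h0, sg, k3, s3, k5, s5]
  have h00 : h0 0 = 1 := by simp [h0, k3, s3, k5, s5]
  obtain ⟨C3, r3, hC3, hr3, hr3', H3⟩ := h₂ kt (fun _ => 0) (min rk (1 / 20)) 0 Ck
    (lf 7 0 21 0) 0 (lt_min hrk (by norm_num))
    (cd_kt.mono (ball_subset_ball (min_le_right _ _))) contDiffOn_const kt0 rfl (by norm_num)
    (fun v hv => by
      have := hk v (ball_subset_ball (min_le_left _ _) hv)
      rwa [← sub_sub] at this)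
    (fun v _ => by simp; positivity)
  obtain ⟨C4, r4, hC4, hr4, hr4', H4⟩ := h₂ h0 (fun _ => 0) rh 0 Ch
    (lf (-1) 0 (-3) 0) 0 hrh cd_h0.contDiffOn contDiffOn_const h00 rfl (by norm_num)
    (fun v hv => by
      have := hh v hv
      rwa [← sub_sub] at this)
    (fun v _ => by simp; positivity)
  set R := min (min r1 r2) (min r3 r4) with hR
  have hRpos : 0 < R := lt_min (lt_min hr1 hr2) (lt_min hr3 hr4)
  refine ⟨C1 + C2 + C3 + 3 * C4, R / 2, by positivity, by positivity, ?_⟩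
  intro x w hx hwc hwp hw0
  have hxR : ‖x‖ < R := by linarith
  have x1 : ‖x‖ < r1 := hxR.trans_le ((min_le_left _ _).trans (min_le_left _ _))
  have x2 : ‖x‖ < r2 := hxR.trans_le ((min_le_left _ _).trans (min_le_right _ _))
  have x3 : ‖x‖ < r3 := hxR.trans_le ((min_le_right _ _).trans (min_le_left _ _))
  have x4 : ‖x‖ < r4 := hxR.trans_le ((min_le_right _ _).trans (min_le_right _ _))
  have A1 := H1 x w x1 hwc hwp hw0
  have A2 := H2 x w x2 hwc hwp hw0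
  have A3 := H3 x w x3 hwc hwp hw0
  have A4 := H4 x w x4 hwc hwp hw0
  simp only [add_zero] at A3 A4
  set err := ‖x.1‖ ^ 2 * ‖wf w 6‖ + (‖x.1‖ * ‖x.2‖ + ‖x.2‖ ^ 2 + ‖x‖ ^ 3) * n1 w with herr
  set I1 := ∫ t in (0 : ℝ)..(2 * Real.pi), w t * tr (Real.pi / 3)
    (lf 2 (Real.sqrt 3) (-17 / 2) (-(Real.sqrt 3) / 2))
    (lf (Real.sqrt 3) (-1) (-(Real.sqrt 3)) 1) (rot t x) with hI1
  set I2 := ∫ t in (0 : ℝ)..(2 * Real.pi), w t * tr (-(Real.pi / 3))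
    (lf 2 (-(Real.sqrt 3)) (-17 / 2) (Real.sqrt 3 / 2))
    (lf (-(Real.sqrt 3)) (-1) (Real.sqrt 3) 1) (rot t x) with hI2
  set I3 := ∫ t in (0 : ℝ)..(2 * Real.pi), w t * tr 0 (lf 7 0 21 0) 0 (rot t x) with hI3
  set I4 := ∫ t in (0 : ℝ)..(2 * Real.pi), w t * tr 0 (lf (-1) 0 (-3) 0) 0 (rot t x) with hI4
  have hsum : I1 + I2 + I3 - 3 * I4 = 0 := by
    have i1 : IntervalIntegrable (fun t => w t * tr (Real.pi / 3)
      (lf 2 (Real.sqrt 3) (-17 / 2) (-(Real.sqrt 3) / 2))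
      (lf (Real.sqrt 3) (-1) (-(Real.sqrt 3)) 1) (rot t x)) volume 0 (2 * Real.pi) :=
      (hwc.mul (continuous_tr _ _ _ x)).intervalIntegrable _ _
    have i2 : IntervalIntegrable (fun t => w t * tr (-(Real.pi / 3))
      (lf 2 (-(Real.sqrt 3)) (-17 / 2) (Real.sqrt 3 / 2))
      (lf (-(Real.sqrt 3)) (-1) (Real.sqrt 3) 1) (rot t x)) volume 0 (2 * Real.pi) :=
      (hwc.mul (continuous_tr _ _ _ x)).intervalIntegrable _ _
    have i3 : IntervalIntegrable (fun t => w t * tr 0 (lf 7 0 21 0) 0 (rot t x))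
      volume 0 (2 * Real.pi) := (hwc.mul (continuous_tr _ _ _ x)).intervalIntegrable _ _
    have i4 : IntervalIntegrable (fun t => w t * tr 0 (lf (-1) 0 (-3) 0) 0 (rot t x))
      volume 0 (2 * Real.pi) := (hwc.mul (continuous_tr _ _ _ x)).intervalIntegrable _ _
    rw [hI1, hI2, hI3, hI4, ← intervalIntegral.integral_const_mul,
      ← intervalIntegral.integral_add i1 i2, ← intervalIntegral.integral_add (i1.add i2) i3,
      ← intervalIntegral.integral_sub ((i1.add i2).add i3) (i4.const_mul 3)]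
    have hz : ∀ t, w t * tr (Real.pi / 3)
      (lf 2 (Real.sqrt 3) (-17 / 2) (-(Real.sqrt 3) / 2))
      (lf (Real.sqrt 3) (-1) (-(Real.sqrt 3)) 1) (rot t x) + w t * tr (-(Real.pi / 3))
      (lf 2 (-(Real.sqrt 3)) (-17 / 2) (Real.sqrt 3 / 2))
      (lf (-(Real.sqrt 3)) (-1) (Real.sqrt 3) 1) (rot t x)
      + w t * tr 0 (lf 7 0 21 0) 0 (rot t x) - 3 * (w t * tr 0 (lf (-1) 0 (-3) 0) 0 (rot t x))
      = 0 := by
      intro t
      linear_combination w t * sum_zero (rot t x)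
    simp only [hz, intervalIntegral.integral_zero]
  have e3 : ∫ t in (0 : ℝ)..(2 * Real.pi), w t * kt (rot t x) =
      ∫ u in (0 : ℝ)..(2 * Real.pi), kt (rot u x) * w u := by
    congr 1; ext t; ring
  have e4 : ∫ t in (0 : ℝ)..(2 * Real.pi), w t * h0 (rot t x) =
      ∫ u in (0 : ℝ)..(2 * Real.pi), h0 (rot u x) * w u := by
    congr 1; ext t; ring
  unfold lL
  rw [e3, e4]
  have B1 : |(∫ u in (0 : ℝ)..(2 * Real.pi), κp (rot u x) * w (u + sp (rot u x, 0))) - I1| ≤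
    C1 * err := A1
  have B2 : |(∫ u in (0 : ℝ)..(2 * Real.pi), κm (rot u x) * w (u + sm (rot u x, 0))) - I2| ≤
    C2 * err := A2
  have B3 : |(∫ u in (0 : ℝ)..(2 * Real.pi), kt (rot u x) * w u) - I3| ≤ C3 * err := A3
  have B4 : |(∫ u in (0 : ℝ)..(2 * Real.pi), h0 (rot u x) * w u) - I4| ≤ C4 * err := A4
  rw [abs_le] at B1 B2 B3 B4 ⊢
  constructor <;> linarith [B1.1, B1.2, B2.1, B2.2, B3.1, B3.2, B4.1, B4.2]

end Helper49.LT.LIN
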