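import Pool.Agent.Helper49.LT.M_BIL

/-!
# Project LT, module SHA: integrals of `w (u + s u + θ u) - w (u + s u)`
-/

open MeasureTheory Set Filter Metric

namespace Helper49.LT.SHA

open Helper49.LT BIL

/-- a change of variable with right derivative -/
structure RSh (T T' : ℝ → ℝ) : Prop where
  per : ∀ u, T (u + 2 * Real.pi) = T u + 2 * Real.pi
  con : Continuous T
  der : ∀ u, HasDerivWithinAt T (T' u) (Ioi u) u
  mea : Measurable T'
  low : ∀ u, 4 / 5 ≤ T' u
  upp : ∀ u, T' u ≤ 6 / 5

variable {T T' : ℝ → ℝ}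

theorem RSh.int' (h : RSh T T') (a b : ℝ) : IntervalIntegrable T' volume a b :=
  ii (B := 6 / 5) h.mea (fun t => by
    rw [abs_of_nonneg (by linarith [h.low t])]; exact h.upp t) a b

theorem RSh.ftc (h : RSh T T') (a b : ℝ) : ∫ t in a..b, T' t = T b - T a :=
  intervalIntegral.integral_eq_sub_of_hasDeriv_right h.con.continuousOn
    (fun x _ => h.der x) (h.int' a b)

theorem RSh.expand (h : RSh T T') {a b : ℝ} (hab : a ≤ b) : 4 / 5 * (b - a) ≤ T b - T a := by
  rw [← h.ftc a b]
  have h1 : ∫ _ in a..b, (4 / 5 : ℝ) ≤ ∫ t in a..b, T' t :=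
    intervalIntegral.integral_mono_on hab intervalIntegrable_const (h.int' a b)
      (fun u _ => h.low u)
  rw [intervalIntegral.integral_const, smul_eq_mul] at h1
  linarith

theorem RSh.smono (h : RSh T T') : StrictMono T := by
  intro a b hab
  have := h.expand hab.le
  linarith

theorem RSh.anti (h : RSh T T') : AntilipschitzWith (5 / 4) T := by
  apply AntilipschitzWith.of_le_mul_dist
  intro a b
  rw [Real.dist_eq, Real.dist_eq]
  push_cast
  rcases le_total a b with hab | hab
  · have h1 := h.expand hab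
    rw [abs_sub_comm a b, abs_sub_comm (T a) (T b), abs_of_nonneg (by linarith : 0 ≤ b - a),
      abs_of_nonneg (by linarith)]
    linarith
  · have h1 := h.expand hab
    rw [abs_of_nonneg (by linarith : 0 ≤ a - b), abs_of_nonneg (by linarith)]
    linarith

theorem RSh.map_le (h : RSh T T') :
    Measure.map T volume ≤ (5 / 4 : ENNReal) • (volume : Measure ℝ) := by
  rw [Measure.le_iff]
  intro A hA
  rw [Measure.map_apply h.con.measurable hA, Measure.smul_apply, smul_eq_mul]
  have h1 := h.anti.hausdorffMeasure_preimage_le (d := 1) zero_le_one A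
  rw [hausdorffMeasure_real] at h1
  refine h1.trans ?_
  rw [ENNReal.rpow_one]
  apply le_of_eq
  congr 1
  rw [ENNReal.coe_div (by norm_num)]
  norm_num

theorem RSh.image (h : RSh T T') : Ioc 0 (2 * Real.pi) = T ⁻¹' Ioc (T 0) (T 0 + 2 * Real.pi) := by
  have h2 : T (2 * Real.pi) = T 0 + 2 * Real.pi := by
    have := h.per 0
    rwa [zero_add] at this
  rw [← h2]
  ext u
  simp only [mem_Ioc, mem_preimage]
  rw [h.smono.lt_iff_lt, h.smono.le_iff_le]

/-- the integral of a nonnegative function is increased at most by the factor `5/4` -/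
theorem RSh.le (h : RSh T T') {g : ℝ → ℝ} {B : ℝ}
    (hg : ∀ t, g (t + 2 * Real.pi) = g t) (hm : Measurable g) (hb : ∀ t, |g t| ≤ B)
    (h0 : ∀ t, 0 ≤ g t) :
    ∫ u in (0 : ℝ)..(2 * Real.pi), g (T u) ≤ 5 / 4 * ∫ t in (0 : ℝ)..(2 * Real.pi), g t := by
  have hpi := Real.pi_pos
  have e0 : ∫ t in (0 : ℝ)..(2 * Real.pi), g t = ∫ t in Ioc (T 0) (T 0 + 2 * Real.pi), g t := by
    rw [← intervalIntegral.integral_of_le (by linarith)]
    have hp : Function.Periodic g (2 * Real.pi) := hg
    have := hp.intervalIntegral_add_eq (T 0) 0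
    rw [zero_add] at this
    exact this.symm
  rw [e0, intervalIntegral.integral_of_le (by positivity)]
  have hI : IntegrableOn g (Ioc (T 0) (T 0 + 2 * Real.pi)) := by
    have := ii hm hb (T 0) (T 0 + 2 * Real.pi)
    rwa [intervalIntegrable_iff_integrableOn_Ioc_of_le (by linarith)] at this
  have e1 : ∫ u in Ioc 0 (2 * Real.pi), g (T u) =
      ∫ t, g t ∂((Measure.map T volume).restrict (Ioc (T 0) (T 0 + 2 * Real.pi))) := by
    rw [Measure.restrict_map h.con.measurable measurableSet_Ioc, ← h.image]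
    rw [integral_map h.con.measurable.aemeasurable hm.aestronglyMeasurable]
  rw [e1]
  have hle : (Measure.map T volume).restrict (Ioc (T 0) (T 0 + 2 * Real.pi)) ≤
      (5 / 4 : ENNReal) • (volume : Measure ℝ).restrict (Ioc (T 0) (T 0 + 2 * Real.pi)) := by
    rw [← Measure.restrict_smul]
    exact Measure.restrict_mono (le_refl _) h.map_le
  have hI2 : Integrable g ((5 / 4 : ENNReal) •
      (volume : Measure ℝ).restrict (Ioc (T 0) (T 0 + 2 * Real.pi))) := by
    apply Integrable.smul_measure hI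
    exact ENNReal.div_ne_top (by norm_num) (by norm_num)
  have h1 := integral_mono_measure hle (Eventually.of_forall h0) hI2
  refine h1.trans ?_
  rw [integral_smul_measure]
  apply le_of_eq
  rw [smul_eq_mul]
  congr 1
  rw [ENNReal.toReal_div]
  norm_num

/-- Cauchy-Schwarz for bounded measurable functions -/
theorem cs {f g : ℝ → ℝ} {A B : ℝ} (hf : Measurable f) (hg : Measurable g)
    (hA : ∀ t, |f t| ≤ A) (hB : ∀ t, |g t| ≤ B) :
    ∫ u in (0 : ℝ)..(2 * Real.pi), |f u| * |g u| ≤
      Real.sqrt (∫ u in (0 : ℝ)..(2 * Real.pi), f u ^ 2) *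
      Real.sqrt (∫ u in (0 : ℝ)..(2 * Real.pi), g u ^ 2) := by
  have hpi := Real.pi_pos
  set F := ∫ u in (0 : ℝ)..(2 * Real.pi), f u ^ 2 with hF
  set G := ∫ u in (0 : ℝ)..(2 * Real.pi), g u ^ 2 with hG
  set I := ∫ u in (0 : ℝ)..(2 * Real.pi), |f u| * |g u| with hI
  have hA0 : 0 ≤ A := (abs_nonneg _).trans (hA 0)
  have hB0 : 0 ≤ B := (abs_nonneg _).trans (hB 0)
  have i1 : IntervalIntegrable (fun u => f u ^ 2) volume 0 (2 * Real.pi) :=
    ii (B := A ^ 2) (hf.pow_const 2) (fun t => by
      rw [abs_of_nonneg (sq_nonneg _), ← sq_abs]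
      have := hA t
      gcongr) _ _
  have i2 : IntervalIntegrable (fun u => g u ^ 2) volume 0 (2 * Real.pi) :=
    ii (B := B ^ 2) (hg.pow_const 2) (fun t => by
      rw [abs_of_nonneg (sq_nonneg _), ← sq_abs]
      have := hB t
      gcongr) _ _
  have i3 : IntervalIntegrable (fun u => |f u| * |g u|) volume 0 (2 * Real.pi) :=
    mul_int (A := A) (B := B) (by fun_prop) (by fun_prop)
      (fun t => by rw [abs_abs]; exact hA t) (fun t => by rw [abs_abs]; exact hB t) _ _
  have hF0 : 0 ≤ F := intervalIntegral.integral_nonneg (by positivity) (fun _ _ => sq_nonneg _)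
  have hG0 : 0 ≤ G := intervalIntegral.integral_nonneg (by positivity) (fun _ _ => sq_nonneg _)
  have key : ∀ x : ℝ, 0 ≤ G * (x * x) + (-2 * I) * x + F := by
    intro x
    have h1 : 0 ≤ ∫ u in (0 : ℝ)..(2 * Real.pi), (|f u| - x * |g u|) ^ 2 :=
      intervalIntegral.integral_nonneg (by positivity) (fun _ _ => sq_nonneg _)
    have h2 : ∫ u in (0 : ℝ)..(2 * Real.pi), (|f u| - x * |g u|) ^ 2 =
        ∫ u in (0 : ℝ)..(2 * Real.pi), (f u ^ 2 - 2 * x * (|f u| * |g u|) + x ^ 2 * g u ^ 2) := by
      congr 1; ext u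
      rw [← sq_abs (f u), ← sq_abs (g u)]; ring
    rw [h2, intervalIntegral.integral_add (i1.sub (i3.const_mul _)) (i2.const_mul _),
      intervalIntegral.integral_sub i1 (i3.const_mul _), intervalIntegral.integral_const_mul,
      intervalIntegral.integral_const_mul] at h1
    have e : G * (x * x) + (-2 * I) * x + F = F - 2 * x * I + x ^ 2 * G := by ring
    rw [e]; exact h1
  have h3 := discrim_le_zero key
  unfold discrim at h3
  rw [← Real.sqrt_mul hF0]
  apply Real.le_sqrt_of_sq_le
  nlinarith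

/-- iterated integrals are integrable -/
theorem joint_int {F : ℝ → ℝ → ℝ} {B : ℝ} (hF : Measurable (Function.uncurry F))
    (hb : ∀ u σ, |F u σ| ≤ B) (a b c d : ℝ) (hab : a ≤ b) (hcd : c ≤ d) :
    IntervalIntegrable (fun u => ∫ σ in c..d, F u σ) volume a b := by
  rw [intervalIntegrable_iff_integrableOn_Ioc_of_le hab]
  simp only [intervalIntegral.integral_of_le hcd]
  have h1 : Integrable (Function.uncurry F)
      ((volume.restrict (Ioc a b)).prod (volume.restrict (Ioc c d))) := by
    refine Integrable.mono' (g := fun _ => B) ?_ hF.aestronglyMeasurable ?_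
    · exact integrable_const B
    · exact Eventually.of_forall (fun p => hb p.1 p.2)
  exact h1.integral_prod_left

variable {δ : ℝ} {w w' s s' θ θ' : ℝ → ℝ}

theorem rsh (hs : Shf δ s s') (hθ : Rough δ θ θ') (hδ : δ ≤ 1 / 10) {σ : ℝ} (h0 : 0 ≤ σ)
    (h1 : σ ≤ 1) : RSh (fun u => u + s u + θ u * σ) (fun u => 1 + s' u + θ' u * σ) where
  per := fun u => by
    have e1 := hs.per u
    have e2 := hθ.per u
    simp only [e1, e2]; ring
  con := by
    have e1 := hs.con
    have e2 := hθ.con
    fun_prop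
  der := fun u => ((hs.hasDerivT u).hasDerivWithinAt).add ((hθ.der u).mul_const σ)
  mea := by
    have e1 := hs.con'.measurable
    have e2 := hθ.mea
    fun_prop
  low := fun u => by
    have e1 := (abs_le.1 (hs.bdd' u)).1
    have e2 := abs_le.1 (hθ.bdd' u)
    nlinarith [e2.1, e2.2]
  upp := fun u => by
    have e1 := (abs_le.1 (hs.bdd' u)).2
    have e2 := abs_le.1 (hθ.bdd' u)
    nlinarith [e2.1, e2.2]

theorem slice (hs : Shf δ s s') (hθ : Rough δ θ θ') (hδ : δ ≤ 1 / 10) (hw : Rough 1 w w')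
    {σ : ℝ} (h0 : 0 ≤ σ) (h1 : σ ≤ 1) :
    ∫ u in (0 : ℝ)..(2 * Real.pi), |w' (u + s u + θ u * σ)| * |θ u| ≤
      2 * (Real.sqrt (q2 w') * Real.sqrt (q2 θ)) := by
  have hR := rsh hs hθ hδ h0 h1
  have hm := hw.mea
  have hTm : Measurable (fun u => w' (u + s u + θ u * σ)) := hm.comp hR.con.measurable
  have hc := cs (f := fun u => w' (u + s u + θ u * σ)) (g := θ) hTm hθ.con.measurable
    (fun _ => hw.bdd' _) hθ.bdd
  refine hc.trans ?_
  have h2 : ∫ u in (0 : ℝ)..(2 * Real.pi), w' (u + s u + θ u * σ) ^ 2 ≤ 5 / 4 * q2 w' := by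
    refine hR.le (g := fun t => w' t ^ 2) (B := 1) (fun t => by rw [hw.per'])
      (hm.pow_const 2) (fun t => ?_) (fun t => sq_nonneg _)
    rw [abs_of_nonneg (sq_nonneg _), ← sq_abs]
    have := hw.bdd' t
    have := abs_nonneg (w' t)
    nlinarith
  have h3 : Real.sqrt (∫ u in (0 : ℝ)..(2 * Real.pi), w' (u + s u + θ u * σ) ^ 2) ≤
      2 * Real.sqrt (q2 w') := by
    rw [Real.sqrt_le_left (by positivity), mul_pow, Real.sq_sqrt (FIN.q2_nonneg w')]
    linarith [FIN.q2_nonneg w']
  calc Real.sqrt (∫ u in (0 : ℝ)..(2 * Real.pi), w' (u + s u + θ u * σ) ^ 2) *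
        Real.sqrt (∫ u in (0 : ℝ)..(2 * Real.pi), θ u ^ 2)
      ≤ 2 * Real.sqrt (q2 w') * Real.sqrt (q2 θ) := by
        apply mul_le_mul_of_nonneg_right h3 (Real.sqrt_nonneg _)
    _ = 2 * (Real.sqrt (q2 w') * Real.sqrt (q2 θ)) := by ring

theorem partA (hs : Shf δ s s') (hθ : Rough δ θ θ') (hδ : δ ≤ 1 / 10) (hw : Rough 1 w w') :
    ∫ u in (0 : ℝ)..(2 * Real.pi), |w (u + s u + θ u) - w (u + s u)| ≤
      2 * (Real.sqrt (q2 w') * Real.sqrt (q2 θ)) := by
  have hpi := Real.pi_pos
  have hm := hw.mea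
  have hwc := hw.con
  have hsc := hs.con
  have hθc := hθ.con
  have hδ1 : δ ≤ 1 := by linarith
  have hmF : Measurable (Function.uncurry (fun u σ : ℝ => |w' (u + s u + θ u * σ)| * |θ u|)) := by
    have h1 : Continuous (fun p : ℝ × ℝ => p.1 + s p.1 + θ p.1 * p.2) := by fun_prop
    have h2 : Measurable (fun p : ℝ × ℝ => w' (p.1 + s p.1 + θ p.1 * p.2)) :=
      hm.comp h1.measurable
    have h3 : Measurable (fun p : ℝ × ℝ => θ p.1) := by fun_prop
    have h4 : Measurable (fun p : ℝ × ℝ => |w' (p.1 + s p.1 + θ p.1 * p.2)| * |θ p.1|) := by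
      exact (measurable_abs.comp h2).mul (measurable_abs.comp h3)
    exact h4
  have hbF : ∀ u σ : ℝ, abs (|w' (u + s u + θ u * σ)| * |θ u|) ≤ 1 := by
    intro u σ
    rw [abs_mul, abs_abs, abs_abs]
    have a := hw.bdd' (u + s u + θ u * σ)
    have b := (hθ.bdd u).trans hδ1
    have := abs_nonneg (w' (u + s u + θ u * σ))
    have := abs_nonneg (θ u)
    nlinarith
  have key : ∀ u, |w (u + s u + θ u) - w (u + s u)| ≤
      ∫ σ in (0 : ℝ)..1, |w' (u + s u + θ u * σ)| * |θ u| := by
    intro u
    rw [← hw.ftc (u + s u) (u + s u + θ u)]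
    have e := intervalIntegral.smul_integral_comp_add_mul (a := 0) (b := 1) (fun t => w' t)
      (θ u) (u + s u)
    rw [mul_zero, add_zero, mul_one] at e
    rw [← e, smul_eq_mul, ← intervalIntegral.integral_const_mul]
    refine (intervalIntegral.abs_integral_le_integral_abs zero_le_one).trans ?_
    apply le_of_eq
    congr 1; ext σ
    rw [abs_mul, mul_comm]
  have hswap := joint hmF hbF 0 (2 * Real.pi) 0 1 (by positivity) zero_le_one
  have hii := joint_int hmF hbF 0 (2 * Real.pi) 0 1 (by positivity) zero_le_one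
  calc ∫ u in (0 : ℝ)..(2 * Real.pi), |w (u + s u + θ u) - w (u + s u)|
      ≤ ∫ u in (0 : ℝ)..(2 * Real.pi), ∫ σ in (0 : ℝ)..1, |w' (u + s u + θ u * σ)| * |θ u| := by
        apply intervalIntegral.integral_mono_on (by positivity)
        · exact Continuous.intervalIntegrable (by fun_prop) _ _
        · exact hii
        · intro u _; exact key u
    _ = ∫ σ in (0 : ℝ)..1, ∫ u in (0 : ℝ)..(2 * Real.pi), |w' (u + s u + θ u * σ)| * |θ u| :=
        hswap
    _ ≤ 2 * (Real.sqrt (q2 w') * Real.sqrt (q2 θ)) := by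
        have h3 : ∀ σ ∈ Set.uIoc (0 : ℝ) 1,
            ‖∫ u in (0 : ℝ)..(2 * Real.pi), |w' (u + s u + θ u * σ)| * |θ u|‖ ≤
            2 * (Real.sqrt (q2 w') * Real.sqrt (q2 θ)) := by
          intro σ hσ
          rw [uIoc_of_le zero_le_one] at hσ
          rw [Real.norm_eq_abs, abs_of_nonneg]
          · exact slice hs hθ hδ hw hσ.1.le hσ.2
          · exact intervalIntegral.integral_nonneg (by positivity) (fun _ _ => by positivity)
        have h4 := (le_abs_self _).trans (intervalIntegral.norm_integral_le_of_norm_le_const h3)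
        simpa using h4

/-- substitution for continuous functions -/
theorem RSh.subst (h : RSh T T') (hw : Rough 1 w w') :
    ∫ u in (0 : ℝ)..(2 * Real.pi), w (T u) * T' u = ∫ t in (0 : ℝ)..(2 * Real.pi), w t := by
  have hwc := hw.con
  have hTc := h.con
  set G : ℝ → ℝ := fun x => ∫ t in (0 : ℝ)..x, w t with hG
  have hGd : ∀ x, HasDerivAt G (w x) x := fun x =>
    intervalIntegral.integral_hasDerivAt_right (hwc.intervalIntegrable _ _)
      (hwc.stronglyMeasurableAtFilter _ _) hwc.continuousAt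
  have hGc : Continuous G := continuous_iff_continuousAt.2 fun x => (hGd x).continuousAt
  have hd : ∀ u, HasDerivWithinAt (fun u => G (T u)) (w (T u) * T' u) (Ioi u) u := by
    intro u
    exact HasDerivWithinAt.comp u ((hGd (T u)).hasDerivWithinAt (s := univ)) (h.der u)
      (fun _ _ => mem_univ _)
  have i0 : IntervalIntegrable (fun u => w (T u) * T' u) volume 0 (2 * Real.pi) :=
    mul_int (A := 1) (B := 6 / 5) (by fun_prop) h.mea (fun _ => hw.bdd _)
      (fun t => by rw [abs_of_nonneg (by linarith [h.low t])]; exact h.upp t) _ _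
  have e := intervalIntegral.integral_eq_sub_of_hasDeriv_right (hGc.comp hTc).continuousOn
    (fun u _ => hd u) i0
  rw [e]
  have h2 : T (2 * Real.pi) = T 0 + 2 * Real.pi := by
    have := h.per 0
    rwa [zero_add] at this
  show G (T (2 * Real.pi)) - G (T 0) = _
  rw [h2]
  simp only [hG]
  rw [intervalIntegral.integral_interval_sub_left (hwc.intervalIntegrable _ _)
    (hwc.intervalIntegrable _ _)]
  have hp : Function.Periodic w (2 * Real.pi) := hw.per
  have := hp.intervalIntegral_add_eq (T 0) 0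
  rw [zero_add] at this
  exact this

theorem hSHA : StSha := by
  refine ⟨6, by norm_num, ?_⟩
  intro δ w w' s s' θ θ' hδ hw p1 d1 c1 b1 hθ
  have hs : Shf δ s s' := ⟨p1, d1, c1, b1⟩
  have hpi := Real.pi_pos
  have hδ0 : 0 ≤ δ := hθ.eta_nonneg
  have hA := partA hs hθ hδ hw
  have hP0 : 0 ≤ Real.sqrt (q2 w') * Real.sqrt (q2 θ) := by positivity
  refine ⟨by linarith, ?_⟩
  have hm := hw.mea
  have hwc := hw.con
  have hsc := hs.con
  have hθc := hθ.con
  have hθm := hθ.mea
  have hδ1 : δ ≤ 1 := by linarith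
  have hR1 := rsh hs hθ hδ zero_le_one le_rfl
  have hR0 := rsh hs hθ hδ le_rfl zero_le_one
  have E1 := hR1.subst hw
  have E0 := hR0.subst hw
  simp only [mul_one] at E1
  simp only [mul_zero, add_zero] at E0
  -- slice at 0
  have hS := slice hs hθ hδ hw le_rfl zero_le_one
  simp only [mul_zero, add_zero] at hS
  -- integrability
  have j1 : IntervalIntegrable (fun u => w (u + s u + θ u) * (1 + s' u + θ' u)) volume 0
      (2 * Real.pi) :=
    mul_int (A := 1) (B := 2) (by fun_prop) (by fun_prop) (fun _ => hw.bdd _)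
      (fun t => by
        have a := abs_le.1 (b1 t)
        have b := abs_le.1 (hθ.bdd' t)
        rw [abs_le]; constructor <;> linarith [a.1, a.2, b.1, b.2]) _ _
  have j0 : IntervalIntegrable (fun u => w (u + s u) * (1 + s' u)) volume 0 (2 * Real.pi) :=
    mul_int (A := 1) (B := 2) (by fun_prop) (by fun_prop) (fun _ => hw.bdd _)
      (fun t => by
        have a := abs_le.1 (b1 t)
        rw [abs_le]; constructor <;> linarith [a.1, a.2]) _ _
  have j2 : IntervalIntegrable (fun u => w (u + s u + θ u) - w (u + s u)) volume 0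
      (2 * Real.pi) := Continuous.intervalIntegrable (by fun_prop) _ _
  have j3 : IntervalIntegrable (fun u => w' (u + s u) * θ u) volume 0 (2 * Real.pi) :=
    mul_int (A := 1) (B := δ) (by fun_prop) (by fun_prop) (fun _ => hw.bdd' _) hθ.bdd _ _
  have j4 : IntervalIntegrable (fun u => (w (u + s u + θ u) - w (u + s u)) * (s' u + θ' u))
      volume 0 (2 * Real.pi) :=
    mul_int (A := 2) (B := 2 * δ) (by fun_prop) (by fun_prop)
      (fun t => by
        have a := abs_le.1 (hw.bdd (t + s t + θ t))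
        have b := abs_le.1 (hw.bdd (t + s t))
        rw [abs_le]; constructor <;> linarith [a.1, a.2, b.1, b.2])
      (fun t => by
        have a := abs_le.1 (b1 t)
        have b := abs_le.1 (hθ.bdd' t)
        rw [abs_le]; constructor <;> linarith [a.1, a.2, b.1, b.2]) _ _
  have j5 : IntervalIntegrable (fun u => w' (u + s u) * s' u * θ u) volume 0 (2 * Real.pi) :=
    mul_int (f := fun u => w' (u + s u) * s' u) (A := 1) (B := δ) (by fun_prop) (by fun_prop)
      (fun t => by
        rw [abs_mul]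
        have a := hw.bdd' (t + s t)
        have b := (b1 t).trans hδ1
        have := abs_nonneg (w' (t + s t))
        have := abs_nonneg (s' t)
        nlinarith) hθ.bdd _ _
  have j6 : IntervalIntegrable (fun u => w (u + s u) * θ' u) volume 0 (2 * Real.pi) :=
    mul_int (A := 1) (B := δ) (by fun_prop) (by fun_prop) (fun _ => hw.bdd _) hθ.bdd' _ _
  have j7 : IntervalIntegrable (fun u => w' (u + s u) * (1 + s' u) * θ u) volume 0
      (2 * Real.pi) :=
    mul_int (f := fun u => w' (u + s u) * (1 + s' u)) (A := 2) (B := δ) (by fun_prop)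
      (by fun_prop)
      (fun t => by
        rw [abs_mul]
        have a := hw.bdd' (t + s t)
        have b' := abs_le.1 (b1 t)
        have b : |1 + s' t| ≤ 2 := by
          rw [abs_le]; constructor <;> linarith [b'.1, b'.2]
        have := abs_nonneg (w' (t + s t))
        have := abs_nonneg (1 + s' t)
        nlinarith) hθ.bdd _ _
  -- integration by parts
  have ibp : (∫ u in (0 : ℝ)..(2 * Real.pi), w' (u + s u) * (1 + s' u) * θ u) +
      ∫ u in (0 : ℝ)..(2 * Real.pi), w (u + s u) * θ' u = 0 := by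
    have hTm := hs.mono hδ
    have hd : ∀ u, HasDerivWithinAt (fun u => w (u + s u) * θ u)
        (w' (u + s u) * (1 + s' u) * θ u + w (u + s u) * θ' u) (Ioi u) u := by
      intro u
      have h1 : HasDerivWithinAt (fun u => w (u + s u)) (w' (u + s u) * (1 + s' u)) (Ioi u) u :=
        HasDerivWithinAt.comp u (hw.der (u + s u)) (hs.hasDerivT u).hasDerivWithinAt
          (fun v hv => hTm hv)
      exact h1.mul (hθ.der u)
    have hFc : Continuous (fun u => w (u + s u) * θ u) := by fun_prop
    have e := intervalIntegral.integral_eq_sub_of_hasDeriv_right hFc.continuousOn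
      (fun u _ => hd u) (j7.add j6)
    rw [intervalIntegral.integral_add j7 j6] at e
    rw [e]
    have h1 := p1 0
    have h3 := hθ.per 0
    rw [zero_add] at h1 h3
    have h2 := hw.per (0 + s 0)
    rw [h1, h3, show 2 * Real.pi + s 0 = 0 + s 0 + 2 * Real.pi by ring, h2, sub_self]
  -- the identity
  have ident : (∫ u in (0 : ℝ)..(2 * Real.pi), (w (u + s u + θ u) - w (u + s u)))
      - ∫ u in (0 : ℝ)..(2 * Real.pi), w' (u + s u) * θ u =
      -(∫ u in (0 : ℝ)..(2 * Real.pi), (w (u + s u + θ u) - w (u + s u)) * (s' u + θ' u)) +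
      ∫ u in (0 : ℝ)..(2 * Real.pi), w' (u + s u) * s' u * θ u := by
    have a1 : ∫ u in (0 : ℝ)..(2 * Real.pi), w (u + s u + θ u) * (1 + s' u + θ' u) =
        (∫ u in (0 : ℝ)..(2 * Real.pi), (w (u + s u + θ u) - w (u + s u))) +
        (∫ u in (0 : ℝ)..(2 * Real.pi), (w (u + s u + θ u) - w (u + s u)) * (s' u + θ' u)) +
        (∫ u in (0 : ℝ)..(2 * Real.pi), w (u + s u) * (1 + s' u)) +
        ∫ u in (0 : ℝ)..(2 * Real.pi), w (u + s u) * θ' u := by
      rw [← intervalIntegral.integral_add j2 j4,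
        ← intervalIntegral.integral_add (j2.add j4) j0,
        ← intervalIntegral.integral_add ((j2.add j4).add j0) j6]
      congr 1; ext u; ring
    have a2 : ∫ u in (0 : ℝ)..(2 * Real.pi), w' (u + s u) * (1 + s' u) * θ u =
        (∫ u in (0 : ℝ)..(2 * Real.pi), w' (u + s u) * θ u) +
        ∫ u in (0 : ℝ)..(2 * Real.pi), w' (u + s u) * s' u * θ u := by
      rw [← intervalIntegral.integral_add j3 j5]
      congr 1; ext u; ring
    linarith
  rw [ident]
  have B1 : |∫ u in (0 : ℝ)..(2 * Real.pi), (w (u + s u + θ u) - w (u + s u)) * (s' u + θ' u)| ≤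
      4 * (δ * (Real.sqrt (q2 w') * Real.sqrt (q2 θ))) := by
    calc |∫ u in (0 : ℝ)..(2 * Real.pi), (w (u + s u + θ u) - w (u + s u)) * (s' u + θ' u)|
        ≤ ∫ u in (0 : ℝ)..(2 * Real.pi),
            |(w (u + s u + θ u) - w (u + s u)) * (s' u + θ' u)| :=
          intervalIntegral.abs_integral_le_integral_abs (by positivity)
      _ ≤ ∫ u in (0 : ℝ)..(2 * Real.pi), 2 * δ * |w (u + s u + θ u) - w (u + s u)| := by
          apply intervalIntegral.integral_mono_on (by positivity) j4.abs (j2.abs.const_mul _)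
          intro u _
          rw [abs_mul, mul_comm]
          apply mul_le_mul_of_nonneg_right _ (abs_nonneg _)
          have a := abs_le.1 (b1 u)
          have b := abs_le.1 (hθ.bdd' u)
          rw [abs_le]; constructor <;> linarith [a.1, a.2, b.1, b.2]
      _ = 2 * δ * ∫ u in (0 : ℝ)..(2 * Real.pi), |w (u + s u + θ u) - w (u + s u)| :=
          intervalIntegral.integral_const_mul _ _
      _ ≤ 2 * δ * (2 * (Real.sqrt (q2 w') * Real.sqrt (q2 θ))) := by gcongr
      _ = 4 * (δ * (Real.sqrt (q2 w') * Real.sqrt (q2 θ))) := by ring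
  have B2 : |∫ u in (0 : ℝ)..(2 * Real.pi), w' (u + s u) * s' u * θ u| ≤
      2 * (δ * (Real.sqrt (q2 w') * Real.sqrt (q2 θ))) := by
    have j8 : IntervalIntegrable (fun u => |w' (u + s u)| * |θ u|) volume 0 (2 * Real.pi) :=
      mul_int (A := 1) (B := δ) (by fun_prop) (by fun_prop)
        (fun _ => by rw [abs_abs]; exact hw.bdd' _) (fun t => by rw [abs_abs]; exact hθ.bdd t) _ _
    calc |∫ u in (0 : ℝ)..(2 * Real.pi), w' (u + s u) * s' u * θ u|
        ≤ ∫ u in (0 : ℝ)..(2 * Real.pi), |w' (u + s u) * s' u * θ u| :=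
          intervalIntegral.abs_integral_le_integral_abs (by positivity)
      _ ≤ ∫ u in (0 : ℝ)..(2 * Real.pi), δ * (|w' (u + s u)| * |θ u|) := by
          apply intervalIntegral.integral_mono_on (by positivity) j5.abs (j8.const_mul _)
          intro u _
          rw [abs_mul, abs_mul]
          calc |w' (u + s u)| * |s' u| * |θ u| ≤ |w' (u + s u)| * δ * |θ u| := by
                gcongr
                exact b1 u
            _ = δ * (|w' (u + s u)| * |θ u|) := by ring
      _ = δ * ∫ u in (0 : ℝ)..(2 * Real.pi), |w' (u + s u)| * |θ u| :=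
          intervalIntegral.integral_const_mul _ _
      _ ≤ δ * (2 * (Real.sqrt (q2 w') * Real.sqrt (q2 θ))) := by gcongr
      _ = 2 * (δ * (Real.sqrt (q2 w') * Real.sqrt (q2 θ))) := by ring
  refine (abs_add_le _ _).trans ?_
  rw [abs_neg]
  linarith

end Helper49.LT.SHA
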