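import Pool.Agent.Helper97.CB.All
import Pool.Agent.Helper73.LT.M_AFF
import Pool.Agent.Helper63.LT.M_GEO
import Pool.Agent.Helper97.LT.M_NRM
import Pool.Agent.Helper29.LT.M_POL
import Pool.Agent.Helper16.LT.M_SUB
import Pool.Agent.Helper66.LT.M_GAU
import Pool.Agent.Helper70.LT.M_TIP
import Pool.Agent.Helper41.LT.M_TP2
import Pool.Agent.Helper83.LT.M_IFT
import Pool.Agent.Helper54.LT.M_SOF
import Pool.Agent.Helper64.LT.M_EVN
import Pool.Agent.Helper42.LT.M_JET
import Pool.Agent.Helper67.LT.M_TAY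
import Pool.Agent.Helper89.LT.M_CHO
import Pool.Agent.Helper64.LT.M_CI1
import Pool.Agent.Helper49.LT.M_SHA
import Pool.Agent.Helper49.LT.M_BIL
import Pool.Agent.Helper12.LT.M_CI2
import Pool.Agent.Helper75.LT.M_CI3
import Pool.Agent.Helper97.LT.M_KER
import Pool.Agent.Helper49.LT.M_LIN
import Pool.Agent.Helper7.LT.M_QFO
import Pool.Agent.Helper87.LT.M_QU1
import Pool.Agent.Helper47.LT.M_QU2
import Pool.Agent.Helper44.LT.M_QUA
import Pool.Agent.Helper34.LT.M_TBA
import Pool.Agent.Helper8.LT.M_BWX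
import Pool.Agent.Helper22.LT.M_WTS
import Pool.Agent.Helper32.LT.M_TIN
import Pool.Agent.Helper63.LT.M_SMM
import Pool.Agent.Helper90.LT.M_FI1
import Pool.Agent.Helper49.LT.M_FIN
import Pool.Agent.Helper80.LT.M_DSK
import Pool.Agent.Helper97.LT.M_MAI

/-!
# Project LT (MP_b21509_co): assembly
-/

namespace Helper49.LT

theorem stAff : StAff := Pool.Agent.Helper73.LT.hAFF
theorem stGeo : StGeo := Pool.Agent.Helper63.LT.hGEO Helper97.CB.stWid Helper97.CB.stHexA Helper97.CB.stRot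
theorem stNrm : StNrm := Pool.Agent.Helper97.LT.hNRM stAff
theorem stPol : StPol := Pool.Agent.Helper29.LT.hPOL
theorem stSub : StSub := Pool.Agent.Helper16.LT.hSUB
theorem stGau : StGau := Pool.Agent.Helper66.LT.hGAU
theorem stTip : StTip := Pool.Agent.Helper70.LT.hTIP
theorem stTp2 : StTp2 := Pool.Agent.Helper41.LT.hTP2
theorem stIft : StIft := Pool.Agent.Helper83.LT.hIFT
theorem stSof : StSof := Pool.Agent.Helper54.LT.hSOF
theorem stEvn : StEvn := Pool.Agent.Helper64.LT.hEVN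
theorem stJet : StJet := Pool.Agent.Helper42.LT.hJET
theorem stTay : StTay := Pool.Agent.Helper67.LT.hTAY stSof stJet
theorem stCho : StCho := Pool.Agent.Helper89.LT.hCHO
theorem stCi1 : StCi1 := Pool.Agent.Helper64.LT.hCI1 stCho
theorem stSha : StSha := Helper49.LT.SHA.hSHA
theorem stBil : StBil := Helper49.LT.BIL.hBIL'
theorem stCi2 : StCi2 := Pool.Agent.Helper12.LT.hCI2 stSha stBil
theorem stCi3 : StCi3 := Pool.Agent.Helper75.LT.hCI3 stSha
theorem stKer : StKer := Pool.Agent.Helper97.LT.hKER stSof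
theorem stLin : StLin := Helper49.LT.LIN.hLIN stJet stKer
theorem stQfo : StQfo := Pool.Agent.Helper7.LT.hQFO
theorem stQu1 : StQu1 := Pool.Agent.Helper87.LT.hQU1
theorem stQu2 : StQu2 := Pool.Agent.Helper47.LT.hQU2
theorem stQua : StQua := Pool.Agent.Helper44.LT.hQUA stQu1 stQu2
theorem stTba : StTba := Pool.Agent.Helper34.LT.hTBA stJet stSof stEvn stQua
theorem stBwx : StBwx := Pool.Agent.Helper8.LT.hBWX stJet
theorem stWts : StWts := Pool.Agent.Helper22.LT.hWTS stGeo stCi1 stCi3 stBwx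
theorem stTin : StTin := Pool.Agent.Helper32.LT.hTIN stGeo stCi1 stCi2 stTip stTp2
theorem stSmm : StSmm := Pool.Agent.Helper63.LT.hSMM stPol stSub
theorem stFi1 : StFi1 := Pool.Agent.Helper90.LT.hFI1
theorem stFin : StFin := Helper49.LT.FIN.hFIN stIft stTay stGau stPol stSub stSmm stLin stQfo stTba stWts stTin stFi1 stAff
theorem stDsk : StDsk := Pool.Agent.Helper80.LT.hDSK
theorem stMai : StMai := Pool.Agent.Helper97.LT.hMAI stAff stNrm stFin stDsk Helper97.CB.stSml

end Helper49.LT
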