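import Pool.Agent.Helper97.CB.Defs

/-!
# Local theorem for MP_b21509_co (project LT): definitions

Bodies close to an ellipse. Everything is written in `ℂ`; `ee t = exp (i t)`.
-/

open MeasureTheory Set Filter Metric

namespace Helper49.LT

open Helper97.CB

/-- `ee t = exp (i t)` -/
noncomputable def ee (t : ℝ) : ℂ := Complex.exp ((t : ℂ) * Complex.I)

/-- `zh v s = e^{is} + v₁ e^{-2is} + v₂ e^{-4is}`. The base curve with the parameter `x` is `t ↦ zh x t`. -/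
noncomputable def zh (v : ℂ × ℂ) (s : ℝ) : ℂ := ee s + v.1 * ee (-2 * s) + v.2 * ee (-4 * s)

/-- the derivative of `zh v` -/
noncomputable def zd (v : ℂ × ℂ) (s : ℝ) : ℂ :=
  Complex.I * (ee s - 2 * v.1 * ee (-2 * s) - 4 * v.2 * ee (-4 * s))

/-- `rot t v = (e^{-3it} v₁, e^{-5it} v₂)`; it satisfies `zh v (t + s) = ee t * zh (rot t v) s` -/
noncomputable def rot (t : ℝ) (v : ℂ × ℂ) : ℂ × ℂ := (ee (-3 * t) * v.1, ee (-5 * t) * v.2)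

/-- real coordinates: `v₁ = k₃ - i s₃` -/
def k3 (v : ℂ × ℂ) : ℝ := v.1.re
/-- real coordinates: `v₁ = k₃ - i s₃` -/
def s3 (v : ℂ × ℂ) : ℝ := -v.1.im
/-- real coordinates: `v₂ = k₅ - i s₅` -/
def k5 (v : ℂ × ℂ) : ℝ := v.2.re
/-- real coordinates: `v₂ = k₅ - i s₅` -/
def s5 (v : ℂ × ℂ) : ℝ := -v.2.im

/-- `cr (zh x t) (zd x t) = h0 (rot t x)` -/
noncomputable def h0 (v : ℂ × ℂ) : ℝ :=
  1 - k3 v - 3 * k5 v - 2 * (k3 v ^ 2 + s3 v ^ 2) - 4 * (k5 v ^ 2 + s5 v ^ 2)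
    - 6 * (k3 v * k5 v + s3 v * s5 v)

/-- `‖zd x t‖ = sg (rot t x)` -/
noncomputable def sg (v : ℂ × ℂ) : ℝ := ‖1 - 2 * v.1 - 4 * v.2‖

/-- the kernel of the mean width: `(z × z')(z' × z'')/|z'|³` for `z = zh x` at `t` is `kt (rot t x)` -/
noncomputable def kt (v : ℂ × ℂ) : ℝ :=
  h0 v * ((starRingEnd ℂ) (1 - 2 * v.1 - 4 * v.2) * (1 + 4 * v.1 + 16 * v.2)).re / sg v ^ 3

/-- the constant `3√3/(2π)`; its inverse is `2π/√27` -/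
noncomputable def m0 : ℝ := 3 * Real.sqrt 3 / (2 * Real.pi)

/-- support function -/
noncomputable def hs (K : Set ℂ) (u : ℝ) : ℝ :=
  sSup ((fun z : ℂ => (z * (starRingEnd ℂ) (ee u)).re) '' K)

/-- `K` has a chord of length `√3` orthogonal to `ee u` at the height `c` -/
def Chord (K : Set ℂ) (u c : ℝ) : Prop :=
  ∃ y : ℝ, ee u * ((c : ℂ) + (y : ℂ) * Complex.I) ∈ K ∧
    ee u * ((c : ℂ) + ((y + Real.sqrt 3 : ℝ) : ℂ) * Complex.I) ∈ K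

/-- rough functions: `2π`-periodic, continuous, right differentiable, with bounds -/
structure Rough (η : ℝ) (w w' : ℝ → ℝ) : Prop where
  per : ∀ t, w (t + 2 * Real.pi) = w t
  per' : ∀ t, w' (t + 2 * Real.pi) = w' t
  con : Continuous w
  der : ∀ t, HasDerivWithinAt w (w' t) (Ioi t) t
  mea : Measurable w'
  bdd : ∀ t, |w t| ≤ η
  bdd' : ∀ t, |w' t| ≤ η

/-- `w` describes the boundary of `K` over the base curve `zh x` -/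
def Bd (K : Set ℂ) (x : ℂ × ℂ) (w : ℝ → ℝ) : Prop :=
  ∀ t ξ : ℝ, -1 < ξ → (((1 + ξ : ℝ) : ℂ) * zh x t ∈ K ↔ ξ ≤ w t)

/-- the chord equation: the two end points over the base curve with the relative distances
`1 + p.2.1`, `1 + p.2.2` differ by `i√3` -/
def ChEq (p : (ℂ × ℂ) × (ℝ × ℝ)) (s s' : ℝ) : Prop :=
  ((1 + p.2.1 : ℝ) : ℂ) * zh p.1 s - ((1 + p.2.2 : ℝ) : ℂ) * zh p.1 s' =
    ((Real.sqrt 3 : ℝ) : ℂ) * Complex.I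

/-- the solution of the chord equation near `p = 0`, `s = π/3`, `s' = -π/3` -/
structure Chd (r : ℝ) (sp sm : (ℂ × ℂ) × (ℝ × ℝ) → ℝ) : Prop where
  pos : 0 < r
  cp : ContDiffOn ℝ 6 sp (ball 0 r)
  cm : ContDiffOn ℝ 6 sm (ball 0 r)
  vp : sp 0 = Real.pi / 3
  vm : sm 0 = -(Real.pi / 3)
  eqn : ∀ p ∈ ball (0 : (ℂ × ℂ) × (ℝ × ℝ)) r, ChEq p (sp p) (sm p)
  near : ∀ p ∈ ball (0 : (ℂ × ℂ) × (ℝ × ℝ)) r,
    |sp p - Real.pi / 3| ≤ 1 / 10 ∧ |sm p + Real.pi / 3| ≤ 1 / 10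
  uniq : ∀ p ∈ ball (0 : (ℂ × ℂ) × (ℝ × ℝ)) r, ∀ s s' : ℝ,
    |s - Real.pi / 3| ≤ 1 / 10 → |s' + Real.pi / 3| ≤ 1 / 10 → ChEq p s s' →
    s = sp p ∧ s' = sm p

/-- the height of the chord -/
noncomputable def cc (sp : (ℂ × ℂ) × (ℝ × ℝ) → ℝ) (p : (ℂ × ℂ) × (ℝ × ℝ)) : ℝ :=
  (((1 + p.2.1 : ℝ) : ℂ) * zh p.1 (sp p)).re

/-- the linear part of `sp` -/
noncomputable def lsp (p : (ℂ × ℂ) × (ℝ × ℝ)) : ℝ :=
  Real.sqrt 3 * k3 p.1 - s3 p.1 - Real.sqrt 3 * k5 p.1 + s5 p.1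
    - (p.2.1 + 2 * p.2.2) / Real.sqrt 3

/-- the linear part of `sm` -/
noncomputable def lsm (p : (ℂ × ℂ) × (ℝ × ℝ)) : ℝ :=
  -(Real.sqrt 3 * k3 p.1) - s3 p.1 + Real.sqrt 3 * k5 p.1 + s5 p.1
    + (2 * p.2.1 + p.2.2) / Real.sqrt 3

/-- the Taylor polynomial of degree 2 of `cc` -/
noncomputable def tcc (p : (ℂ × ℂ) × (ℝ × ℝ)) : ℝ :=
  1 / 2 - 2 * k3 p.1 + k5 p.1 + p.2.1 + p.2.2
    - 3 * k3 p.1 ^ 2 - 5 * s3 p.1 ^ 2 + 18 * (k3 p.1 * k5 p.1) + 10 * (s3 p.1 * s5 p.1)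
    - 15 * k5 p.1 ^ 2 - 5 * s5 p.1 ^ 2
    - 5 / 6 * (p.2.1 ^ 2 + p.2.2 ^ 2) - 4 / 3 * (p.2.1 * p.2.2)
    + (2 * k3 p.1 + Real.sqrt 3 * s3 p.1 - 17 / 2 * k5 p.1 - Real.sqrt 3 / 2 * s5 p.1) * p.2.1
    + (2 * k3 p.1 - Real.sqrt 3 * s3 p.1 - 17 / 2 * k5 p.1 + Real.sqrt 3 / 2 * s5 p.1) * p.2.2

/-- Taylor data of the chord functions in the second variable -/
structure Tay (r C : ℝ) (sp sm : (ℂ × ℂ) × (ℝ × ℝ) → ℝ) (κp κm : ℂ × ℂ → ℝ) : Prop where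
  pos : 0 < r
  posC : 0 < C
  cp : ContDiffOn ℝ 4 κp (ball 0 r)
  cm : ContDiffOn ℝ 4 κm (ball 0 r)
  vp : κp 0 = 1
  vm : κm 0 = 1
  kp : ∀ v ∈ ball (0 : ℂ × ℂ) r, |κp v - (1 + (2 * k3 v + Real.sqrt 3 * s3 v - 17 / 2 * k5 v
    - Real.sqrt 3 / 2 * s5 v))| ≤ C * ‖v‖ ^ 2
  km : ∀ v ∈ ball (0 : ℂ × ℂ) r, |κm v - (1 + (2 * k3 v - Real.sqrt 3 * s3 v - 17 / 2 * k5 v
    + Real.sqrt 3 / 2 * s5 v))| ≤ C * ‖v‖ ^ 2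
  tc : ∀ p ∈ ball (0 : (ℂ × ℂ) × (ℝ × ℝ)) r,
    |cc sp p - (cc sp (p.1, 0) + κp p.1 * p.2.1 + κm p.1 * p.2.2
      - 5 / 6 * (p.2.1 ^ 2 + p.2.2 ^ 2) - 4 / 3 * (p.2.1 * p.2.2))| ≤
      C * ((‖p.1‖ + ‖p.2‖) * ‖p.2‖ ^ 2)
  tp : ∀ p ∈ ball (0 : (ℂ × ℂ) × (ℝ × ℝ)) r,
    |sp p - sp (p.1, 0) + (p.2.1 + 2 * p.2.2) / Real.sqrt 3| ≤ C * ((‖p.1‖ + ‖p.2‖) * ‖p.2‖)
  tm : ∀ p ∈ ball (0 : (ℂ × ℂ) × (ℝ × ℝ)) r,
    |sm p - sm (p.1, 0) - (2 * p.2.1 + p.2.2) / Real.sqrt 3| ≤ C * ((‖p.1‖ + ‖p.2‖) * ‖p.2‖)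
  lp : ∀ p ∈ ball (0 : (ℂ × ℂ) × (ℝ × ℝ)) r, ∀ q ∈ ball (0 : (ℂ × ℂ) × (ℝ × ℝ)) r,
    |(sp p - sp (p.1, 0)) - (sp q - sp (q.1, 0))| ≤
      C * (‖p.2 - q.2‖ + ‖p.2‖ * ‖p.1 - q.1‖)
  lm : ∀ p ∈ ball (0 : (ℂ × ℂ) × (ℝ × ℝ)) r, ∀ q ∈ ball (0 : (ℂ × ℂ) × (ℝ × ℝ)) r,
    |(sm p - sm (p.1, 0)) - (sm q - sm (q.1, 0))| ≤
      C * (‖p.2 - q.2‖ + ‖p.2‖ * ‖p.1 - q.1‖)

/-- the values of `w` at the end points of the base chord orthogonal to `ee u` -/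
noncomputable def z0 (sp sm : (ℂ × ℂ) × (ℝ × ℝ) → ℝ) (w : ℝ → ℝ) (x : ℂ × ℂ) (u : ℝ) : ℝ × ℝ :=
  (w (u + sp (rot u x, 0)), w (u + sm (rot u x, 0)))

/-- the values of `w` at the shifted end points -/
noncomputable def z1 (sp sm : (ℂ × ℂ) × (ℝ × ℝ) → ℝ) (w : ℝ → ℝ) (x : ℂ × ℂ) (u : ℝ) : ℝ × ℝ :=
  (w (u + sp (rot u x, z0 sp sm w x u)), w (u + sm (rot u x, z0 sp sm w x u)))

/-- `‖w‖₁` on the circle -/
noncomputable def n1 (w : ℝ → ℝ) : ℝ := ∫ t in (0 : ℝ)..(2 * Real.pi), |w t|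

/-- `∫ w²` on the circle -/
noncomputable def q2 (w : ℝ → ℝ) : ℝ := ∫ t in (0 : ℝ)..(2 * Real.pi), w t ^ 2

/-- the Fourier integral `∫ w(t) e^{-int} dt` -/
noncomputable def wf (w : ℝ → ℝ) (n : ℤ) : ℂ :=
  ∫ t in (0 : ℝ)..(2 * Real.pi), (w t : ℂ) * ee (-(n : ℝ) * t)

/-- `∫ w'(t+2π/3) w(t) dt` -/
noncomputable def iI (w w' : ℝ → ℝ) : ℝ :=
  ∫ t in (0 : ℝ)..(2 * Real.pi), w' (t + 2 * Real.pi / 3) * w t

/-- `∫ w(t+2π/3) w(t) dt` -/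
noncomputable def iP (w : ℝ → ℝ) : ℝ :=
  ∫ t in (0 : ℝ)..(2 * Real.pi), w (t + 2 * Real.pi / 3) * w t

/-- the quadratic form -/
noncomputable def qQ (w w' : ℝ → ℝ) : ℝ :=
  1 / 2 * q2 w' - 4 / Real.sqrt 3 * iI w w' - 1 / 6 * (10 * q2 w + 8 * iP w) - 3 / 2 * q2 w

/-- the linear functional (with the base `x`) -/
noncomputable def lL (sp sm : (ℂ × ℂ) × (ℝ × ℝ) → ℝ) (κp κm : ℂ × ℂ → ℝ) (x : ℂ × ℂ)
    (w : ℝ → ℝ) : ℝ :=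
  (∫ u in (0 : ℝ)..(2 * Real.pi), κp (rot u x) * w (u + sp (rot u x, 0)))
  + (∫ u in (0 : ℝ)..(2 * Real.pi), κm (rot u x) * w (u + sm (rot u x, 0)))
  + (∫ t in (0 : ℝ)..(2 * Real.pi), w t * kt (rot t x))
  - 3 * ∫ t in (0 : ℝ)..(2 * Real.pi), w t * h0 (rot t x)

/-- the base functional -/
noncomputable def tB (sp : (ℂ × ℂ) × (ℝ × ℝ) → ℝ) (x : ℂ × ℂ) : ℝ :=
  ∫ u in (0 : ℝ)..(2 * Real.pi), (cc sp (rot u x, 0) + sg (rot u x) - 3 / 2 * h0 (rot u x))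

/-- the weights `1 + Re (ω e^{-inu})` -/
noncomputable def wW (ω : ℂ) (n : ℕ) (u : ℝ) : ℝ := 1 + (ω * ee (-(n : ℝ) * u)).re

/-- the approximate parameter of the tip -/
noncomputable def st (v : ℂ × ℂ) : ℝ := -2 * s3 v - 4 * s5 v

/-- the weighted base functional -/
noncomputable def bW (sp : (ℂ × ℂ) × (ℝ × ℝ) → ℝ) (x : ℂ × ℂ) (ω : ℂ) (n : ℕ) : ℝ :=
  (∫ u in (0 : ℝ)..(2 * Real.pi),
    ((zh (rot u x) (st (rot u x))).re + cc sp (rot u x, 0)) * wW ω n u)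
  - 3 / 2 * ∫ t in (0 : ℝ)..(2 * Real.pi), h0 (rot t x)

/-- the setting of the main inequality: a body `K` described by `w` over the base curve `zh x`,
all of whose hexagons are small -/
structure Stg (η μ : ℝ) (K : Set ℂ) (x : ℂ × ℂ) (w w' : ℝ → ℝ) : Prop where
  body : IsBody K
  inn : closedBall 0 (99 / 100) ⊆ K
  out : K ⊆ closedBall 0 (101 / 100)
  rough : Rough η w w'
  bd : Bd K x w
  mean : ∫ t in (0 : ℝ)..(2 * Real.pi), w t = 0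
  ar : area K = 1 / 2 * ∫ t in (0 : ℝ)..(2 * Real.pi), (1 + w t) ^ 2 * h0 (rot t x)
  sml : Small K (2 * (m0 * (1 + μ)) * area K)

/-- orientation preserving affine maps of the plane (for `‖β‖ < ‖α‖`) -/
noncomputable def aff (α β b : ℂ) (z : ℂ) : ℂ := α * z + β * (starRingEnd ℂ) z + b

/-- a lower bound for the height of the extreme chord (module CI1) -/
noncomputable def cf (C η : ℝ) (sp sm : (ℂ × ℂ) × (ℝ × ℝ) → ℝ) (κp κm : ℂ × ℂ → ℝ) (w : ℝ → ℝ)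
    (x : ℂ × ℂ) (u : ℝ) : ℝ :=
  cc sp (rot u x, 0) + κp (rot u x) * (z1 sp sm w x u).1 + κm (rot u x) * (z1 sp sm w x u).2
    - 5 / 6 * ((z0 sp sm w x u).1 ^ 2 + (z0 sp sm w x u).2 ^ 2)
    - 4 / 3 * ((z0 sp sm w x u).1 * (z0 sp sm w x u).2)
    - C * ((η + ‖x‖) * ((z0 sp sm w x u).1 ^ 2 + (z0 sp sm w x u).2 ^ 2
      + |(z1 sp sm w x u).1 - (z0 sp sm w x u).1| + |(z1 sp sm w x u).2 - (z0 sp sm w x u).2|))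

/-- approximate solution of `(1-q²)|1-2q(k-is)|² = 3/4`: `q = 1/2 + pq k s` -/
noncomputable def pq (k s : ℝ) : ℝ :=
  -3 / 2 * k + 3 / 4 * s ^ 2 - 3 / 2 * k * s ^ 2 + 21 / 2 * k ^ 3 + 15 / 16 * s ^ 4
    - 39 / 2 * k ^ 2 * s ^ 2 + 3 * k ^ 4

/-- the derivative of `pq k s` along `k' = -3s`, `s' = 3k` -/
noncomputable def pqd (k s : ℝ) : ℝ :=
  (-3 / 2 - 3 / 2 * s ^ 2 + 63 / 2 * k ^ 2 - 39 * k * s ^ 2 + 12 * k ^ 3) * (-3 * s)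
    + (3 / 2 * s - 3 * k * s + 15 / 4 * s ^ 3 - 39 * k ^ 2 * s) * (3 * k)

/-- real part of `E = 1 - 2q(k-is)` -/
noncomputable def eR (k s : ℝ) : ℝ := 1 - 2 * (1 / 2 + pq k s) * k
/-- imaginary part of `E = 1 - 2q(k-is)` -/
noncomputable def eI (k s : ℝ) : ℝ := 2 * (1 / 2 + pq k s) * s
/-- derivative of `eR` along `k' = -3s`, `s' = 3k` -/
noncomputable def eRd (k s : ℝ) : ℝ := -2 * (pqd k s * k - 3 * (1 / 2 + pq k s) * s)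
/-- derivative of `eI` along `k' = -3s`, `s' = 3k` -/
noncomputable def eId (k s : ℝ) : ℝ := 2 * (pqd k s * s + 3 * (1 / 2 + pq k s) * k)
/-- `|E|²` -/
noncomputable def eN (k s : ℝ) : ℝ := eR k s ^ 2 + eI k s ^ 2
/-- `Re ((q + (2q²-1)(k-is)) conj E)` -/
noncomputable def rR (k s : ℝ) : ℝ :=
  ((1 / 2 + pq k s) + (2 * (1 / 2 + pq k s) ^ 2 - 1) * k) * eR k s
    - (2 * (1 / 2 + pq k s) ^ 2 - 1) * s * eI k s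
/-- the integrand of the base chord in the parameter `α` -/
noncomputable def gam (k s : ℝ) : ℝ :=
  rR k s / Real.sqrt (eN k s) * (1 + (eR k s * eId k s - eI k s * eRd k s) / eN k s)
/-- the Taylor polynomial of `gam` of degree 4 -/
noncomputable def tgam (k s : ℝ) : ℝ :=
  1 / 2 - 1 / 2 * k + 4 * s ^ 2 - 12 * k ^ 2 + 61 / 4 * k * s ^ 2 + 21 / 2 * k ^ 3
    + 2 * s ^ 4 - 224 * k ^ 2 * s ^ 2 + 150 * k ^ 4

end Helper49.LT
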