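import Pool.Agent.Helper49.LT.StC

/-!
# Project LT, module FIN, first part: bounds for rough functions with mean zero
-/

open MeasureTheory Set Filter Metric

namespace Helper49.LT.FIN

open Helper97.CB Helper49.LT

theorem q2_nonneg (w : ℝ → ℝ) : 0 ≤ q2 w := by
  unfold q2
  exact intervalIntegral.integral_nonneg (by positivity) (fun t _ => sq_nonneg _)

theorem two_pi_le : 2 * Real.pi ≤ 7 := by linarith [Real.pi_lt_d2]

variable {η : ℝ} {w w' : ℝ → ℝ}

theorem int_sq' (h : Rough η w w') (a b : ℝ) :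
    IntervalIntegrable (fun t => w' t ^ 2) volume a b := by
  have hc : IntervalIntegrable (fun _ : ℝ => η ^ 2) volume a b := intervalIntegrable_const
  refine hc.mono_fun (h.mea.pow_const 2).aestronglyMeasurable ?_
  filter_upwards with x
  have h1 := h.bdd' x
  have h2 := abs_nonneg (w' x)
  have h3 : w' x ^ 2 = |w' x| ^ 2 := (sq_abs _).symm
  rw [Real.norm_eq_abs, Real.norm_eq_abs, abs_of_nonneg (sq_nonneg (w' x)),
    abs_of_nonneg (sq_nonneg η), h3]
  gcongr

theorem int_abs' (h : Rough η w w') (a b : ℝ) :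
    IntervalIntegrable (fun t => |w' t|) volume a b := (h.int' a b).abs

/-- `∫|w'| ≤ √(2π) √(q2 w')` -/
theorem int_abs_le (h : Rough η w w') :
    (∫ t in (0 : ℝ)..(2 * Real.pi), |w' t|) ^ 2 ≤ 2 * Real.pi * q2 w' := by
  have hp := Real.pi_pos
  set V := ∫ t in (0 : ℝ)..(2 * Real.pi), |w' t| with hV
  set m := V / (2 * Real.pi) with hm
  have h1 : 0 ≤ ∫ t in (0 : ℝ)..(2 * Real.pi), (|w' t| - m) ^ 2 :=
    intervalIntegral.integral_nonneg (by positivity) (fun t _ => sq_nonneg _)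
  have h2 : (∫ t in (0 : ℝ)..(2 * Real.pi), (|w' t| - m) ^ 2) =
      q2 w' - 2 * m * V + m ^ 2 * (2 * Real.pi) := by
    have e : ∀ t, (|w' t| - m) ^ 2 = (w' t ^ 2 - 2 * m * |w' t|) + m ^ 2 := by
      intro t; rw [sub_sq, sq_abs]; ring
    simp only [e]
    rw [intervalIntegral.integral_add ((int_sq' h _ _).sub ((int_abs' h _ _).const_mul _))
      intervalIntegrable_const,
      intervalIntegral.integral_sub (int_sq' h _ _) ((int_abs' h _ _).const_mul _),
      intervalIntegral.integral_const_mul, intervalIntegral.integral_const]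
    simp only [sub_zero, smul_eq_mul]
    unfold q2; ring
  rw [h2] at h1
  have h3 : q2 w' - 2 * m * V + m ^ 2 * (2 * Real.pi) = q2 w' - V ^ 2 / (2 * Real.pi) := by
    rw [hm]; field_simp; ring
  rw [h3] at h1
  have h4 : V ^ 2 / (2 * Real.pi) ≤ q2 w' := by linarith
  rw [div_le_iff₀ (by positivity)] at h4
  linarith

theorem sub_le_int (h : Rough η w w') {s t : ℝ} (hs : s ∈ Icc 0 (2 * Real.pi))
    (ht : t ∈ Icc 0 (2 * Real.pi)) :
    |w t - w s| ≤ ∫ t in (0 : ℝ)..(2 * Real.pi), |w' t| := by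
  wlog hst : s ≤ t generalizing s t
  · rw [abs_sub_comm]; exact this ht hs (le_of_lt (not_le.mp hst))
  rw [← h.ftc s t]
  calc |∫ t in s..t, w' t| ≤ ∫ t in s..t, |w' t| :=
        intervalIntegral.abs_integral_le_integral_abs hst
    _ ≤ ∫ t in (0 : ℝ)..(2 * Real.pi), |w' t| := by
        apply intervalIntegral.integral_mono_interval hs.1 hst ht.2
        · exact Filter.Eventually.of_forall (fun x => abs_nonneg _)
        · exact int_abs' h _ _

theorem abs_le_int (h : Rough η w w') (h0 : ∫ t in (0 : ℝ)..(2 * Real.pi), w t = 0)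
    {t : ℝ} (ht : t ∈ Icc 0 (2 * Real.pi)) :
    |w t| ≤ ∫ t in (0 : ℝ)..(2 * Real.pi), |w' t| := by
  have hp := Real.pi_pos
  set V := ∫ t in (0 : ℝ)..(2 * Real.pi), |w' t| with hV
  have h1 : ∫ s in (0 : ℝ)..(2 * Real.pi), (w t - w s) = 2 * Real.pi * w t := by
    rw [intervalIntegral.integral_sub intervalIntegrable_const (h.int _ _), h0,
      intervalIntegral.integral_const]
    simp
  have h2 : ∀ s ∈ Set.uIoc (0 : ℝ) (2 * Real.pi), ‖w t - w s‖ ≤ V := by
    intro s hs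
    rw [uIoc_of_le (by positivity)] at hs
    exact sub_le_int h ⟨hs.1.le, hs.2⟩ ht
  have h3 := intervalIntegral.norm_integral_le_of_norm_le_const h2
  rw [h1, sub_zero, abs_of_pos (by positivity : (0 : ℝ) < 2 * Real.pi), Real.norm_eq_abs,
    abs_mul, abs_of_pos (by positivity : (0 : ℝ) < 2 * Real.pi)] at h3
  have h4 : 2 * Real.pi * |w t| ≤ 2 * Real.pi * V := by linarith
  exact le_of_mul_le_mul_left h4 (by positivity)

theorem exists_red (t : ℝ) : ∃ n : ℤ, t - n * (2 * Real.pi) ∈ Icc 0 (2 * Real.pi) := by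
  have hp := Real.pi_pos
  refine ⟨⌊t / (2 * Real.pi)⌋, ?_, ?_⟩
  · have := Int.floor_le (t / (2 * Real.pi))
    rw [le_div_iff₀ (by positivity)] at this
    linarith
  · have := Int.lt_floor_add_one (t / (2 * Real.pi))
    rw [div_lt_iff₀ (by positivity)] at this
    linarith

theorem per_red (w : ℝ → ℝ) (h : ∀ t, w (t + 2 * Real.pi) = w t) (t : ℝ) (n : ℤ) :
    w (t - n * (2 * Real.pi)) = w t := by
  have hp : Function.Periodic w (2 * Real.pi) := h
  exact hp.sub_int_mul_eq n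

/-- a rough function with mean zero is bounded by `3 √(q2 w')` -/
theorem abs_le (h : Rough η w w') (h0 : ∫ t in (0 : ℝ)..(2 * Real.pi), w t = 0) (t : ℝ) :
    |w t| ≤ 3 * Real.sqrt (q2 w') := by
  obtain ⟨n, hn⟩ := exists_red t
  have h1 := abs_le_int h h0 hn
  rw [per_red w h.per] at h1
  refine h1.trans ?_
  have h2 := int_abs_le h
  have h3 : 0 ≤ ∫ t in (0 : ℝ)..(2 * Real.pi), |w' t| :=
    intervalIntegral.integral_nonneg (by positivity) (fun t _ => abs_nonneg _)
  have h4 := q2_nonneg w'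
  apply le_of_sq_le_sq _ (by positivity)
  rw [mul_pow, Real.sq_sqrt h4]
  have := two_pi_le
  nlinarith

theorem n1_le (h : Rough η w w') (h0 : ∫ t in (0 : ℝ)..(2 * Real.pi), w t = 0) :
    n1 w ≤ 21 * Real.sqrt (q2 w') := by
  have h1 : ∀ s ∈ Set.uIoc (0 : ℝ) (2 * Real.pi), ‖|w s|‖ ≤ 3 * Real.sqrt (q2 w') := by
    intro s _
    rw [Real.norm_eq_abs, abs_abs]; exact abs_le h h0 s
  have h2 := intervalIntegral.norm_integral_le_of_norm_le_const h1
  have h3 := (le_abs_self _).trans h2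
  have hp := Real.pi_pos
  rw [sub_zero, abs_of_pos (by positivity : (0 : ℝ) < 2 * Real.pi)] at h3
  unfold n1
  have := two_pi_le
  nlinarith [Real.sqrt_nonneg (q2 w')]

theorem n1_nonneg (w : ℝ → ℝ) : 0 ≤ n1 w :=
  intervalIntegral.integral_nonneg (by positivity) (fun t _ => abs_nonneg _)

theorem q2_le (h : Rough η w w') (h0 : ∫ t in (0 : ℝ)..(2 * Real.pi), w t = 0) :
    q2 w ≤ 63 * q2 w' := by
  have h1 : ∀ s ∈ Set.uIoc (0 : ℝ) (2 * Real.pi), ‖w s ^ 2‖ ≤ 9 * q2 w' := by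
    intro s _
    have := abs_le h h0 s
    rw [Real.norm_eq_abs, abs_of_nonneg (sq_nonneg _), ← sq_abs]
    calc |w s| ^ 2 ≤ (3 * Real.sqrt (q2 w')) ^ 2 := by gcongr
      _ = 9 * q2 w' := by rw [mul_pow, Real.sq_sqrt (q2_nonneg w')]; norm_num
  have h2 := intervalIntegral.norm_integral_le_of_norm_le_const h1
  have h3 := (le_abs_self _).trans h2
  have hp := Real.pi_pos
  rw [sub_zero, abs_of_pos (by positivity : (0 : ℝ) < 2 * Real.pi)] at h3
  have h5 := two_pi_le
  have h6 := q2_nonneg w'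
  have h7 : 9 * q2 w' * (2 * Real.pi) ≤ 9 * q2 w' * 7 := by gcongr
  have h8 : q2 w ≤ 9 * q2 w' * (2 * Real.pi) := h3
  linarith

theorem q2'_le (h : Rough η w w') : Real.sqrt (q2 w') ≤ 3 * η := by
  have h1 : ∀ s ∈ Set.uIoc (0 : ℝ) (2 * Real.pi), ‖w' s ^ 2‖ ≤ η ^ 2 := by
    intro s _
    have := h.bdd' s
    rw [Real.norm_eq_abs, abs_of_nonneg (sq_nonneg _), ← sq_abs]
    gcongr
  have h2 := intervalIntegral.norm_integral_le_of_norm_le_const h1
  have h3 := (le_abs_self _).trans h2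
  have hp := Real.pi_pos
  rw [sub_zero, abs_of_pos (by positivity : (0 : ℝ) < 2 * Real.pi)] at h3
  rw [Real.sqrt_le_left (by have := h.eta_nonneg; positivity)]
  have := two_pi_le
  have h4 : q2 w' ≤ η ^ 2 * (2 * Real.pi) := h3
  nlinarith [sq_nonneg η]

/-- the base curve meets every ray -/
theorem exists_ray (x : ℂ × ℂ) (hx : ‖x‖ ≤ 1 / 20) (z : ℂ) (hz : z ≠ 0) :
    ∃ t lam : ℝ, 0 < lam ∧ z = (lam : ℂ) * zh x t := by
  set ψ := Complex.arg z with hψ
  have hz' : z = (‖z‖ : ℂ) * ee ψ := by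
    unfold ee; exact (Complex.norm_mul_exp_arg_mul_I z).symm
  let g : ℝ → ℝ := fun t => (zh x t * (starRingEnd ℂ) (ee ψ)).im
  have hg : Continuous g := by
    have h1 := continuous_zh x
    exact Complex.continuous_im.comp (h1.mul continuous_const)
  have key : ∀ t, ‖zh x t * (starRingEnd ℂ) (ee ψ) - ee (t - ψ)‖ ≤ 1 / 10 := by
    intro t
    have e : ee (t - ψ) = ee t * (starRingEnd ℂ) (ee ψ) := by
      rw [sub_eq_add_neg, ee_add, ee_neg]
    rw [e, ← sub_mul, norm_mul, Complex.norm_conj, norm_ee, mul_one]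
    have := zh_sub_ee x t
    linarith
  have him : ∀ t, |g t - Real.sin (t - ψ)| ≤ 1 / 10 := by
    intro t
    have h := (Complex.abs_im_le_norm _).trans (key t)
    rwa [Complex.sub_im, ee_im] at h
  have hre : ∀ t, |(zh x t * (starRingEnd ℂ) (ee ψ)).re - Real.cos (t - ψ)| ≤ 1 / 10 := by
    intro t
    have h := (Complex.abs_re_le_norm _).trans (key t)
    rwa [Complex.sub_re, ee_re] at h
  have hs1 : (1 : ℝ) / 2 ≤ Real.sin 1 := by
    have h := Real.sin_gt_sub_cube (x := 1) (by norm_num)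
    linarith
  have hc1 : (1 : ℝ) / 2 ≤ Real.cos 1 := by
    have := Real.one_sub_sq_div_two_le_cos (x := 1)
    linarith
  have ha : g (ψ - 1) ≤ 0 := by
    have := him (ψ - 1)
    rw [abs_le'] at this
    have e : Real.sin (ψ - 1 - ψ) = -Real.sin 1 := by
      rw [show ψ - 1 - ψ = -1 by ring, Real.sin_neg]
    rw [e] at this
    linarith [this.1]
  have hb : 0 ≤ g (ψ + 1) := by
    have := him (ψ + 1)
    rw [abs_le'] at this
    have e : Real.sin (ψ + 1 - ψ) = Real.sin 1 := by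
      rw [show ψ + 1 - ψ = 1 by ring]
    rw [e] at this
    linarith [this.2]
  obtain ⟨t, ht, hgt⟩ := intermediate_value_Icc (by linarith : ψ - 1 ≤ ψ + 1) hg.continuousOn
    ⟨ha, hb⟩
  have hcos : (1 : ℝ) / 2 ≤ Real.cos (t - ψ) := by
    have hab : |t - ψ| ≤ |1| := by
      rw [abs_one, _root_.abs_le]; constructor <;> linarith [ht.1, ht.2]
    have := Real.one_sub_sq_div_two_le_cos (x := t - ψ)
    have h2 : (t - ψ) ^ 2 ≤ 1 := by
      have := sq_le_sq' (by linarith [ht.1] : -(1 : ℝ) ≤ t - ψ) (by linarith [ht.2] : t - ψ ≤ 1)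
      simpa using this
    linarith
  set R := (zh x t * (starRingEnd ℂ) (ee ψ)).re with hR
  have hRpos : 0 < R := by
    have := (abs_le'.1 (hre t)).2
    linarith
  have e1 : zh x t * (starRingEnd ℂ) (ee ψ) = (R : ℂ) := by
    apply Complex.ext
    · simp [hR]
    · rw [Complex.ofReal_im]; exact hgt
  have e2 : zh x t = (R : ℂ) * ee ψ := by
    calc zh x t = zh x t * ((starRingEnd ℂ) (ee ψ) * ee ψ) := by rw [ee_conj_mul, mul_one]
      _ = (R : ℂ) * ee ψ := by rw [← mul_assoc, e1]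
  refine ⟨t, ‖z‖ / R, by have := norm_pos_iff.2 hz; positivity, ?_⟩
  rw [e2, ← mul_assoc, ← Complex.ofReal_mul, div_mul_cancel₀ _ hRpos.ne', ← hz']

end Helper49.LT.FIN
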