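import Pool.Agent.Helper49.LT.M_FINa

/-!
# Project LT, module FIN, second part: the setting
-/

open MeasureTheory Set Filter Metric

namespace Helper49.LT.FIN

open Helper97.CB Helper49.LT

theorem gauge_bounds {K : Set ℂ} {κ : ℝ} (h0 : 0 ≤ κ) (h1 : κ ≤ 1 / 100)
    (hin : closedBall 0 (1 - κ) ⊆ K) (hout : K ⊆ closedBall 0 (1 + κ)) (z : ℂ) :
    ‖z‖ / (1 + κ) ≤ gauge K z ∧ (1 - κ) * gauge K z ≤ ‖z‖ := by
  have hn : K ∈ nhds (0 : ℂ) :=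
    Filter.mem_of_superset (Metric.closedBall_mem_nhds 0 (by linarith)) hin
  constructor
  · exact le_gauge_of_subset_closedBall (absorbent_nhds_zero hn) (by linarith) hout
  · exact mul_gauge_le_norm (ball_subset_closedBall.trans hin)

theorem rad_bounds {K : Set ℂ} {κ : ℝ} (h0 : 0 ≤ κ) (h1 : κ ≤ 1 / 100)
    (hin : closedBall 0 (1 - κ) ⊆ K) (hout : K ⊆ closedBall 0 (1 + κ)) (φ : ℝ) :
    1 - κ ≤ (gauge K (ee φ))⁻¹ ∧ (gauge K (ee φ))⁻¹ ≤ 1 + κ := by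
  obtain ⟨a, b⟩ := gauge_bounds h0 h1 hin hout (ee φ)
  rw [norm_ee] at a b
  have hg : 0 < gauge K (ee φ) := lt_of_lt_of_le (by positivity) a
  constructor
  · rw [le_inv_comm₀ (by linarith) hg, ← one_div, le_div_iff₀ (by linarith)]
    linarith
  · rw [inv_le_comm₀ hg (by linarith), ← one_div]
    exact a

theorem cont_gauge {K : Set ℂ} (hK : IsBody K) (hin : closedBall 0 (1 / 2) ⊆ K) :
    Continuous (gauge K) :=
  continuous_gauge hK.1 (Filter.mem_of_superset (Metric.closedBall_mem_nhds 0 (by norm_num)) hin)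

theorem int_ee_pow (j : ℕ) (hj : 1 ≤ j) :
    ∫ φ in (0 : ℝ)..(2 * Real.pi), ee φ ^ j = 0 := by
  have hd : ∀ t ∈ Set.uIcc (0 : ℝ) (2 * Real.pi),
      HasDerivAt (fun s : ℝ => (1 / ((j : ℂ) * Complex.I)) * ee ((j : ℝ) * s)) (ee t ^ j) t := by
    intro t _
    have h := (hasDerivAt_ee (j : ℝ) t).const_mul (1 / ((j : ℂ) * Complex.I))
    refine h.congr_deriv ?_
    have hj' : (j : ℂ) ≠ 0 := by exact_mod_cast (by omega : j ≠ 0)
    have e := ee_int_mul (j : ℤ) t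
    push_cast at e
    rw [e]
    have hI := Complex.I_ne_zero
    push_cast
    rw [zpow_natCast]
    field_simp
  have hc : Continuous (fun t : ℝ => ee t ^ j) := continuous_ee.pow j
  rw [intervalIntegral.integral_eq_sub_of_hasDerivAt hd (hc.intervalIntegrable _ _)]
  have e := ee_int (j : ℤ) 0
  push_cast at e
  rw [zero_add] at e
  rw [e, sub_self]

theorem mom_le (h : StPol) {K : Set ℂ} {κ B : ℝ} (hK : IsBody K) (h0 : 0 ≤ κ) (h1 : κ ≤ 1 / 100)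
    (hin : closedBall 0 (1 - κ) ⊆ K) (hout : K ⊆ closedBall 0 (1 + κ)) (j : ℕ) (hj : 1 ≤ j)
    (hB : ∀ R : ℝ, 1 - κ ≤ R → R ≤ 1 + κ → |R ^ (j + 2) - 1| ≤ B) :
    ‖∫ z in K, z ^ j‖ ≤ 2 * Real.pi / (j + 2) * B := by
  have hin' : closedBall (0 : ℂ) (1 / 2) ⊆ K :=
    (closedBall_subset_closedBall (by linarith)).trans hin
  have hp := Real.pi_pos
  rw [h K j hK hin']
  have hcg := cont_gauge hK hin'
  have hgpos : ∀ φ, gauge K (ee φ) ≠ 0 := by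
    intro φ
    have := (gauge_bounds h0 h1 hin hout (ee φ)).1
    rw [norm_ee] at this
    have : 0 < gauge K (ee φ) := lt_of_lt_of_le (by positivity) this
    exact this.ne'
  have hR : Continuous (fun φ : ℝ => (gauge K (ee φ))⁻¹) :=
    (hcg.comp continuous_ee).inv₀ hgpos
  have e1 : ∫ φ in (0 : ℝ)..(2 * Real.pi), (((gauge K (ee φ))⁻¹ ^ (j + 2) : ℝ) : ℂ) * ee φ ^ j =
      ∫ φ in (0 : ℝ)..(2 * Real.pi), (((gauge K (ee φ))⁻¹ ^ (j + 2) - 1 : ℝ) : ℂ) * ee φ ^ j := by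
    have c1 : Continuous (fun φ : ℝ => (((gauge K (ee φ))⁻¹ ^ (j + 2) : ℝ) : ℂ) * ee φ ^ j) :=
      (Complex.continuous_ofReal.comp (hR.pow _)).mul (continuous_ee.pow j)
    have c2 : Continuous (fun φ : ℝ => ee φ ^ j) := continuous_ee.pow j
    have := intervalIntegral.integral_sub (μ := volume) (a := 0) (b := 2 * Real.pi)
      (c1.intervalIntegrable _ _) (c2.intervalIntegrable _ _)
    rw [int_ee_pow j hj, sub_zero] at this
    rw [← this]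
    congr 1
    ext φ
    push_cast
    ring
  rw [e1, norm_mul]
  have h2 : ∀ φ ∈ Set.uIoc (0 : ℝ) (2 * Real.pi),
      ‖(((gauge K (ee φ))⁻¹ ^ (j + 2) - 1 : ℝ) : ℂ) * ee φ ^ j‖ ≤ B := by
    intro φ _
    rw [norm_mul, norm_pow, norm_ee, one_pow, mul_one, Complex.norm_real, Real.norm_eq_abs]
    obtain ⟨a, b⟩ := rad_bounds h0 h1 hin hout φ
    exact hB _ a b
  have h3 := intervalIntegral.norm_integral_le_of_norm_le_const h2
  rw [sub_zero, abs_of_pos (by positivity : (0 : ℝ) < 2 * Real.pi)] at h3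
  have h4 : ‖(1 / ((j : ℂ) + 2))‖ = 1 / ((j : ℝ) + 2) := by
    rw [norm_div, norm_one]
    congr 1
    have : ((j : ℂ) + 2) = (((j : ℝ) + 2 : ℝ) : ℂ) := by push_cast; ring
    rw [this, Complex.norm_real, Real.norm_eq_abs, abs_of_pos (by positivity)]
  rw [h4]
  calc 1 / ((j : ℝ) + 2) * ‖∫ φ in (0 : ℝ)..(2 * Real.pi),
        (((gauge K (ee φ))⁻¹ ^ (j + 2) - 1 : ℝ) : ℂ) * ee φ ^ j‖
      ≤ 1 / ((j : ℝ) + 2) * (B * (2 * Real.pi)) := by gcongr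
    _ = 2 * Real.pi / (j + 2) * B := by ring

theorem pow5 (κ R : ℝ) (h0 : 0 ≤ κ) (h1 : κ ≤ 1 / 100) (ha : 1 - κ ≤ R) (hb : R ≤ 1 + κ) :
    |R ^ (3 + 2) - 1| ≤ 6 * κ := by
  have e : R ^ (3 + 2) - 1 = (R - 1) * (R ^ 4 + R ^ 3 + R ^ 2 + R + 1) := by ring
  have hR : 0 ≤ R := by linarith
  have hR2 : R ≤ 1.01 := by linarith
  have p2 : R ^ 2 ≤ 1.01 ^ 2 := by gcongr
  have p3 : R ^ 3 ≤ 1.01 ^ 3 := by gcongr
  have p4 : R ^ 4 ≤ 1.01 ^ 4 := by gcongr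
  rw [e, abs_mul, abs_of_nonneg (by positivity : 0 ≤ R ^ 4 + R ^ 3 + R ^ 2 + R + 1)]
  have q : |R - 1| ≤ κ := by rw [_root_.abs_le]; constructor <;> linarith
  calc |R - 1| * (R ^ 4 + R ^ 3 + R ^ 2 + R + 1) ≤ κ * 6 := by
        apply mul_le_mul q _ (by positivity) h0
        norm_num at p2 p3 p4
        linarith
    _ = 6 * κ := by ring

theorem pow7 (κ R : ℝ) (h0 : 0 ≤ κ) (h1 : κ ≤ 1 / 100) (ha : 1 - κ ≤ R) (hb : R ≤ 1 + κ) :
    |R ^ (5 + 2) - 1| ≤ 8 * κ := by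
  have e : R ^ (5 + 2) - 1 = (R - 1) * (R ^ 6 + R ^ 5 + R ^ 4 + R ^ 3 + R ^ 2 + R + 1) := by ring
  have hR : 0 ≤ R := by linarith
  have hR2 : R ≤ 1.01 := by linarith
  have p2 : R ^ 2 ≤ 1.01 ^ 2 := by gcongr
  have p3 : R ^ 3 ≤ 1.01 ^ 3 := by gcongr
  have p4 : R ^ 4 ≤ 1.01 ^ 4 := by gcongr
  have p5 : R ^ 5 ≤ 1.01 ^ 5 := by gcongr
  have p6 : R ^ 6 ≤ 1.01 ^ 6 := by gcongr
  rw [e, abs_mul, abs_of_nonneg (by positivity : 0 ≤ R ^ 6 + R ^ 5 + R ^ 4 + R ^ 3 + R ^ 2 + R + 1)]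
  have q : |R - 1| ≤ κ := by rw [_root_.abs_le]; constructor <;> linarith
  calc |R - 1| * (R ^ 6 + R ^ 5 + R ^ 4 + R ^ 3 + R ^ 2 + R + 1) ≤ κ * 8 := by
        apply mul_le_mul q _ (by positivity) h0
        norm_num at p2 p3 p4 p5 p6
        linarith
    _ = 8 * κ := by ring

/-- the parameter of the base curve -/
noncomputable def xx (K : Set ℂ) : ℂ × ℂ :=
  ((∫ z in K, z ^ 3) / Real.pi, (∫ z in K, z ^ 5) / Real.pi)

theorem norm_xx_le (h : StPol) {K : Set ℂ} {κ : ℝ} (hK : IsBody K) (h0 : 0 ≤ κ) (h1 : κ ≤ 1 / 100)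
    (hin : closedBall 0 (1 - κ) ⊆ K) (hout : K ⊆ closedBall 0 (1 + κ)) : ‖xx K‖ ≤ 3 * κ := by
  have hp := Real.pi_pos
  have a := mom_le h hK h0 h1 hin hout 3 (by norm_num) (fun R => pow5 κ R h0 h1)
  have b := mom_le h hK h0 h1 hin hout 5 (by norm_num) (fun R => pow7 κ R h0 h1)
  have hn : ‖(Real.pi : ℂ)‖ = Real.pi := by
    rw [Complex.norm_real, Real.norm_eq_abs, abs_of_pos hp]
  unfold xx
  rw [Prod.norm_def]
  apply max_le
  · show ‖(∫ z in K, z ^ 3) / (Real.pi : ℂ)‖ ≤ 3 * κ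
    rw [norm_div, hn, div_le_iff₀ hp]
    push_cast at a
    nlinarith
  · show ‖(∫ z in K, z ^ 5) / (Real.pi : ℂ)‖ ≤ 3 * κ
    rw [norm_div, hn, div_le_iff₀ hp]
    push_cast at b
    nlinarith

theorem area_eq (h₄ : StPol) (h₅ : StSub) {K : Set ℂ} (hK : IsBody K)
    (hin : closedBall 0 (1 / 2) ⊆ K) (x : ℂ × ℂ) (hx : ‖x‖ ≤ 1 / 20) :
    area K = 1 / 2 * ∫ t in (0 : ℝ)..(2 * Real.pi), (gauge K (zh x t))⁻¹ ^ 2 * h0 (rot t x) := by
  have a := h₄ K 0 hK hin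
  rw [h₅ K x 0 hK hin hx] at a
  simp only [pow_zero, mul_one, zero_add, Nat.cast_zero] at a
  have b : ∫ z in K, (1 : ℂ) = ((area K : ℝ) : ℂ) := by
    rw [setIntegral_const]
    simp [area, Measure.real]
  rw [b, intervalIntegral.integral_ofReal] at a
  have c : ((area K : ℝ) : ℂ) = ((1 / 2 * ∫ t in (0 : ℝ)..(2 * Real.pi),
      (gauge K (zh x t))⁻¹ ^ 2 * h0 (rot t x) : ℝ) : ℂ) := by
    rw [a]; push_cast; ring
  exact_mod_cast c

end Helper49.LT.FIN
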