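import Pool.Agent.Helper49.LT.M_FINb

/-!
# Project LT, module FIN, third part: the scaled body
-/

open MeasureTheory Set Filter Metric

namespace Helper49.LT.FIN

open Helper97.CB Helper49.LT

theorem aff_scale (lam : ℝ) (z : ℂ) : aff (lam : ℂ) 0 0 z = (lam : ℂ) * z := by
  simp [aff]

theorem mem_scale {K : Set ℂ} {lam : ℝ} (hl : 0 < lam) (z : ℂ) :
    (lam : ℂ) * z ∈ aff (lam : ℂ) 0 0 '' K ↔ z ∈ K := by
  have hl' : (lam : ℂ) ≠ 0 := by exact_mod_cast hl.ne'
  constructor
  · rintro ⟨y, hy, e⟩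
    rw [aff_scale] at e
    have := mul_left_cancel₀ hl' e
    rwa [← this]
  · intro hz
    exact ⟨z, hz, aff_scale lam z⟩

theorem setup (hG : StGau) (h₄ : StPol) (h₅ : StSub) (h₁₃ : StAff) :
    ∃ C κ₁ : ℝ, 1 ≤ C ∧ 0 < κ₁ ∧ κ₁ ≤ 1 / 1000 ∧ C * Real.sqrt κ₁ ≤ 1 / 100 ∧
    ∀ (K : Set ℂ) (κ μ : ℝ), IsBody K → 0 ≤ κ → κ ≤ κ₁ →
    closedBall 0 (1 - κ) ⊆ K → K ⊆ closedBall 0 (1 + κ) → area K = Real.pi →
    Small K (2 * (m0 * (1 + μ)) * area K) →
    ∃ (lam : ℝ) (w w' : ℝ → ℝ), 0 < lam ∧ |lam - 1| ≤ 1 / 10 ∧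
      (∀ t, 1 + w t = lam * (gauge K (zh (xx K) t))⁻¹) ∧
      Stg (C * Real.sqrt κ) μ (aff (lam : ℂ) 0 0 '' K) (xx K) w w' := by
  obtain ⟨CG, hCG, hG⟩ := hG
  have hpi := Real.pi_pos
  refine ⟨16 * CG, (1 / (1600 * CG)) ^ 2, by linarith, by positivity, ?_, ?_, ?_⟩
  · have h1 : 1 / (1600 * CG) ≤ 1 / 1600 := by
      apply one_div_le_one_div_of_le (by norm_num); linarith
    have h2 : 0 < 1 / (1600 * CG) := by positivity
    nlinarith
  · rw [Real.sqrt_sq (by positivity)]
    apply le_of_eq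
    field_simp
    norm_num
  intro K κ μ hK hk0 hκ hin hout har hsm
  have hκ2 : Real.sqrt κ ≤ 1 / (1600 * CG) := by
    rw [Real.sqrt_le_left (by positivity)]; exact hκ
  have hκ3 : Real.sqrt κ ≤ 1 / 1600 := by
    refine hκ2.trans ?_
    apply one_div_le_one_div_of_le (by norm_num); linarith
  have hκs : κ ≤ Real.sqrt κ := by
    have h1 := Real.sq_sqrt hk0
    have h2 := Real.sqrt_nonneg κ
    nlinarith
  have hκ4 : κ ≤ 1 / 1600 := hκs.trans hκ3
  have hx := norm_xx_le h₄ hK hk0 (by linarith) hin hout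
  have hxn := norm_nonneg (xx K)
  obtain ⟨hbd, f', hr⟩ := hG K (xx K) κ hK hk0 (by linarith) hin hout (by linarith)
  set x := xx K with hxdef
  set f : ℝ → ℝ := fun t => (gauge K (zh x t))⁻¹ with hf
  set η₀ := CG * (Real.sqrt κ + ‖x‖) with hη₀
  have hη₀' : η₀ ≤ 4 * CG * Real.sqrt κ := by
    rw [hη₀]
    have : Real.sqrt κ + ‖x‖ ≤ 4 * Real.sqrt κ := by linarith
    nlinarith
  have hη₀n : 0 ≤ η₀ := by positivity
  have hη₁ : η₀ ≤ 1 / 400 := by
    have : CG * Real.sqrt κ ≤ 1 / 1600 := by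
      calc CG * Real.sqrt κ ≤ CG * (1 / (1600 * CG)) := by gcongr
        _ = 1 / 1600 := by field_simp
    linarith
  have hfc : Continuous f := by
    have h1 := hr.con
    have h2 : f = fun t => ((f t - 1) + 1) := by ext t; ring
    rw [h2]
    exact h1.add continuous_const
  have hfb : ∀ t, |f t - 1| ≤ η₀ := hr.bdd
  have hflow : ∀ t, 399 / 400 ≤ f t := by
    intro t
    have := (abs_le'.1 (hfb t)).2
    linarith
  have hfup : ∀ t, f t ≤ 401 / 400 := by
    intro t
    have := (abs_le'.1 (hfb t)).1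
    linarith
  -- the scaling factor
  set F := ∫ t in (0 : ℝ)..(2 * Real.pi), f t with hF
  have hFabs : |F - 2 * Real.pi| ≤ 2 * Real.pi * η₀ := by
    have e : F - 2 * Real.pi = ∫ t in (0 : ℝ)..(2 * Real.pi), (f t - 1) := by
      rw [intervalIntegral.integral_sub (hfc.intervalIntegrable _ _) intervalIntegrable_const,
        intervalIntegral.integral_const]
      simp [hF]
    rw [e]
    have h1 : ∀ t ∈ Set.uIoc (0 : ℝ) (2 * Real.pi), ‖f t - 1‖ ≤ η₀ := fun t _ => hfb t
    have h2 := intervalIntegral.norm_integral_le_of_norm_le_const h1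
    rw [sub_zero, abs_of_pos (by positivity : (0 : ℝ) < 2 * Real.pi)] at h2
    rw [Real.norm_eq_abs] at h2
    linarith
  have hFpos : 0 < F := by
    have := (abs_le'.1 hFabs).2
    nlinarith
  have hFlow : 2 * Real.pi * (1 - η₀) ≤ F := by
    have := (abs_le'.1 hFabs).2
    nlinarith
  have hFup : F ≤ 2 * Real.pi * (1 + η₀) := by
    have := (abs_le'.1 hFabs).1
    nlinarith
  set lam := 2 * Real.pi / F with hlam
  have hlpos : 0 < lam := by positivity
  have hl1 : lam ≤ 1 + 2 * η₀ := by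
    rw [hlam, div_le_iff₀ hFpos]
    have : 1 ≤ (1 + 2 * η₀) * (1 - η₀) := by nlinarith
    calc 2 * Real.pi = 2 * Real.pi * 1 := by ring
      _ ≤ 2 * Real.pi * ((1 + 2 * η₀) * (1 - η₀)) := by gcongr
      _ = (1 + 2 * η₀) * (2 * Real.pi * (1 - η₀)) := by ring
      _ ≤ (1 + 2 * η₀) * F := by gcongr
  have hl2 : 1 - 2 * η₀ ≤ lam := by
    rw [hlam, le_div_iff₀ hFpos]
    have : (1 - 2 * η₀) * (1 + η₀) ≤ 1 := by nlinarith
    calc (1 - 2 * η₀) * F ≤ (1 - 2 * η₀) * (2 * Real.pi * (1 + η₀)) := by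
          apply mul_le_mul_of_nonneg_left hFup; linarith
      _ = 2 * Real.pi * ((1 - 2 * η₀) * (1 + η₀)) := by ring
      _ ≤ 2 * Real.pi * 1 := by gcongr
      _ = 2 * Real.pi := by ring
  have hl3 : |lam - 1| ≤ 2 * η₀ := by rw [_root_.abs_le]; constructor <;> linarith
  have hl4 : lam ≤ 2 := by linarith
  set w : ℝ → ℝ := fun t => lam * f t - 1 with hw
  set w' : ℝ → ℝ := fun t => lam * f' t with hw'
  have hη : 4 * η₀ ≤ 16 * CG * Real.sqrt κ := by linarith
  have hwb : ∀ t, |w t| ≤ 4 * η₀ := by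
    intro t
    have e : w t = lam * (f t - 1) + (lam - 1) := by rw [hw]; ring
    rw [e]
    calc |lam * (f t - 1) + (lam - 1)| ≤ |lam * (f t - 1)| + |lam - 1| := abs_add_le _ _
      _ ≤ 2 * η₀ + 2 * η₀ := by
          gcongr
          rw [abs_mul, abs_of_pos hlpos]
          exact mul_le_mul hl4 (hfb t) (abs_nonneg _) (by norm_num)
      _ = 4 * η₀ := by ring
  have hR : Rough (4 * η₀) w w' := by
    refine ⟨?_, ?_, ?_, ?_, ?_, hwb, ?_⟩
    · intro t
      have := hr.per t
      have e : f (t + 2 * Real.pi) = f t := by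
        have h2 : f (t + 2 * Real.pi) - 1 = f t - 1 := this
        linarith
      show lam * f (t + 2 * Real.pi) - 1 = lam * f t - 1
      rw [e]
    · intro t
      show lam * f' (t + 2 * Real.pi) = lam * f' t
      rw [hr.per']
    · exact (continuous_const.mul hfc).sub continuous_const
    · intro t
      have h1 := (hr.der t).const_mul lam
      have h2 := h1.add_const (lam - 1)
      refine h2.congr_of_eventuallyEq ?_ ?_
      · filter_upwards with s
        show lam * f s - 1 = lam * (f s - 1) + (lam - 1)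
        ring
      · show lam * f t - 1 = lam * (f t - 1) + (lam - 1)
        ring
    · exact hr.mea.const_mul lam
    · intro t
      show |lam * f' t| ≤ 4 * η₀
      rw [abs_mul, abs_of_pos hlpos]
      have := hr.bdd' t
      nlinarith [abs_nonneg (f' t)]
  have haff := h₁₃ K (lam : ℂ) 0 0 hK (by
    rw [norm_zero, Complex.norm_real, Real.norm_eq_abs, abs_of_pos hlpos]; exact hlpos)
  have hl5 : ‖(lam : ℂ)‖ ^ 2 - ‖(0 : ℂ)‖ ^ 2 = lam ^ 2 := by
    rw [norm_zero, Complex.norm_real, Real.norm_eq_abs, sq_abs]; ring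
  rw [hl5] at haff
  obtain ⟨hb, ha, hs⟩ := haff
  refine ⟨lam, w, w', hlpos, by linarith, ?_, ?_⟩
  · intro t
    show 1 + (lam * f t - 1) = lam * f t
    ring
  have hinv : ∀ z : ℂ, (lam : ℂ) * (z / (lam : ℂ)) = z := by
    intro z
    have hl' : (lam : ℂ) ≠ 0 := by exact_mod_cast hlpos.ne'
    field_simp
  have hnl : ∀ z : ℂ, ‖z / (lam : ℂ)‖ = ‖z‖ / lam := by
    intro z
    rw [norm_div, Complex.norm_real, Real.norm_eq_abs, abs_of_pos hlpos]
  refine ⟨hb, ?_, ?_, hR.mono hη, ?_, ?_, ?_, ?_⟩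
  · intro z hz
    rw [mem_closedBall_zero_iff] at hz
    rw [← hinv z, mem_scale hlpos]
    apply hin
    rw [mem_closedBall_zero_iff, hnl, div_le_iff₀ hlpos]
    nlinarith
  · rintro _ ⟨y, hy, rfl⟩
    rw [aff_scale, mem_closedBall_zero_iff, norm_mul, Complex.norm_real, Real.norm_eq_abs,
      abs_of_pos hlpos]
    have := hout hy
    rw [mem_closedBall_zero_iff] at this
    have h1 := norm_nonneg y
    nlinarith
  · intro t ξ hξ
    have e : ((1 + ξ : ℝ) : ℂ) * zh x t =
        (lam : ℂ) * (((1 + ((1 + ξ) / lam - 1) : ℝ) : ℂ) * zh x t) := by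
      have h2 : (1 + ξ : ℝ) = lam * (1 + ((1 + ξ) / lam - 1)) := by field_simp; ring
      rw [← mul_assoc, ← Complex.ofReal_mul, ← h2]
    rw [e, mem_scale hlpos]
    have hpos : -1 < (1 + ξ) / lam - 1 := by
      have : 0 < (1 + ξ) / lam := div_pos (by linarith) hlpos
      linarith
    rw [hbd t _ hpos]
    show (1 + ξ) / lam - 1 ≤ f t - 1 ↔ ξ ≤ lam * f t - 1
    rw [sub_le_sub_iff_right, div_le_iff₀ hlpos]
    constructor <;> intro h <;> linarith
  · show ∫ t in (0 : ℝ)..(2 * Real.pi), (lam * f t - 1) = 0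
    have c1 : Continuous (fun t => lam * f t) := continuous_const.mul hfc
    rw [intervalIntegral.integral_sub (c1.intervalIntegrable _ _)
      intervalIntegrable_const, intervalIntegral.integral_const_mul,
      intervalIntegral.integral_const, ← hF, hlam]
    simp only [sub_zero, smul_eq_mul, mul_one]
    field_simp
    ring
  · rw [ha, area_eq h₄ h₅ hK ((closedBall_subset_closedBall (by linarith)).trans hin) x
      (by linarith)]
    have e : ∀ t, (1 + w t) ^ 2 * h0 (rot t x) =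
        lam ^ 2 * ((gauge K (zh x t))⁻¹ ^ 2 * h0 (rot t x)) := by
      intro t
      have : 1 + w t = lam * (gauge K (zh x t))⁻¹ := by
        show 1 + (lam * f t - 1) = lam * f t
        ring
      rw [this]; ring
    simp only [e]
    rw [intervalIntegral.integral_const_mul]
    ring
  · have := hs _ hsm
    rw [ha]
    have e : 2 * (m0 * (1 + μ)) * (lam ^ 2 * area K) = lam ^ 2 * (2 * (m0 * (1 + μ)) * area K) := by
      ring
    rw [e]; exact this

end Helper49.LT.FIN
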