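import Pool.Agent.Helper49.LT.Base
import Pool.Agent.Helper97.CB.St

/-!
# Project LT (MP_b21509_co, local theorem): statements with complete proofs, part A (geometry)

THEOREM. There are `ε₀, c > 0` such that every planar convex body `K` with `E ⊆ K ⊆ (1+ε₀) E` for
some ellipse `E` satisfies `θ(K) ≤ 2π/√27` (the conjectured bound), and
`θ(K) ≤ (2π/√27)/(1 + c δ⁴)` if there is no ellipse `E'` with `E' ⊆ K ⊆ (1+δ) E'`.

Overview (paper proof: MP_b21509-local.md in the team store). Only double lattices (`K`, `-K`) are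
used, so everything is affine invariant. After an affine map `K` is close to the unit disk, has
area `π` and `∫_K z = ∫_K z² = 0` (NRM). With `x = (∫_K z³, ∫_K z⁵)/π` the base curve
`zh x t = e^{it} + x₁ e^{-2it} + x₂ e^{-4it}` is the main part of the boundary and
`w(t) = 1/gauge(zh x t) - 1` (after a scaling with `∫ w = 0`) is the small rough rest (GAU, SMM).
If all hexagons of `K` are small then `∫ (h + C) W ≤ ...` (GEO) for the support function `h` and a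
lower bound `C(u)` of the height of the chord of length `√3` orthogonal to `ee u`. TIP, TP2 bound
`∫ h` from below; IFT, JET, TAY, CHO, CI1, SHA, BIL, CI2 bound `∫ C`. The linear terms cancel to
the second order (KER, LIN), the quadratic form is positive up to the modes 0,1,2,3,5 (QFO), and
the base functional is `≥ (117π/2)|x₁|⁴` (QU1, QU2, QUA, TBA): a fourth order analysis, since the
second order vanishes for the mode 3. The mode 5 and the mode 6 are controlled by weighted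
tests (BWX, CI3, WTS).

All modules are independent: the earlier statements are hypotheses. For every module: file
`Pool/Agent/<You>/LT/M_XX.lean`, namespace `Pool.Agent.<You>.LT`, one theorem `hXX : ... → StXx`
as said in the docstring. `Base.lean` has the basic facts on `ee, zh, zd, rot, h0, sg, Rough`.
-/

open MeasureTheory Set Filter Metric

namespace Helper49.LT

open Helper97.CB

/-- MODULE AFF (about 150 lines). `theorem hAFF : StAff`.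
Proof. Put `L z = α z + β conj z`, `D = ‖α‖² - ‖β‖² > 0`. `cr (L z) (L w) = D cr z w` (expand real
and imaginary parts). `L` is a linear bijection with the inverse
`y ↦ (conj α * y - β * conj y)/D`. So `f = aff α β b` is an affine homeomorphism: the image of a
compact convex set with nonempty interior is such a set. The volume of the image is `|det L|`
times the volume (`MeasureTheory.Measure.addHaar_image_linearMap` and translation invariance);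
the real determinant of `L` is `D` (matrix in the basis `1, i`:
columns `α + β` and `i (α - β)`). Small: if `Hex (f '' K) P a b γ φ c f'` then the six points have
preimages in `K`; with `P = f P₀`, `a = L a₀`, `b = L b₀` (`L` bijective) injectivity of `f` and
linearity give `Hex K P₀ a₀ b₀ γ φ c f'` (`f (p + q) = f p + L q`), and
`cr a b = D cr a₀ b₀`. -/
def StAff : Prop := ∀ (K : Set ℂ) (α β b : ℂ), IsBody K → ‖β‖ < ‖α‖ →
  IsBody (aff α β b '' K) ∧ area (aff α β b '' K) = (‖α‖ ^ 2 - ‖β‖ ^ 2) * area K ∧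
  ∀ B : ℝ, Small K B → Small (aff α β b '' K) ((‖α‖ ^ 2 - ‖β‖ ^ 2) * B)

/-- MODULE GEO (about 250 lines).
`theorem hGEO (hW : StWid) (hA : StHexA) (hR : StRot) : StGeo`.
Proof. (1) Fix `u`. Let `K'' = (ee (π/2 - u)) K` (StRot: body, same area, same `Small`). A chord of
`K` in the sense of `Chord K u c` gives the points `i (c + i y) = -y + i c` and `-(y+√3) + i c` of
`K''`, so a point of `Sh K'' √3` with imaginary part `c`. `Chord K (u+π) c'`: `ee (u+π) = -ee u`, so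
the points are `y - i c'` and `(y + √3) - i c'`: a point of `Sh K'' √3` with imaginary part `-c'`.
Hence `wid K'' √3 ≥ c + c'` (the imaginary parts of `K''` are bounded). For `p, q ∈ K`:
`Im (ee (π/2-u) p) = Re (p conj (ee u))`, so `wid K'' 0 ≥ Re (p conj ee u) - Re (q conj ee u)` (last
part of StWid), and `Re (q conj (ee (u+π))) = -Re (q conj (ee u))`. `√3 < 19/10 ≤ cmax K''`: the
disk gives `-19/20, 19/20 ∈ K''`, so `Sh K'' (19/10)` is nonempty. StHexA with `s = √3` and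
`Small` give `√3 (wid K'' 0 + wid K'' √3) < 2 m0 (1+μ) area K`, that is
`wid K'' 0 + wid K'' √3 < (3/π)(1+μ) area K`. (2) So for all `u`
`H u + C u + H (u+π) + C (u+π) ≤ (3/π)(1+μ) area K`. Multiply by `W u = W (u+π) ≥ 0` and integrate
over `[0, 2π]`; `∫ (H+C)(u+π) W(u+π) du = ∫ (H+C) W` by periodicity (`W` has the period `2π` too;
`integral_shift`). Divide by 2. -/
def StGeo : Prop := ∀ (K : Set ℂ) (μ : ℝ) (H C W : ℝ → ℝ), IsBody K →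
  closedBall 0 (99 / 100) ⊆ K → Small K (2 * (m0 * (1 + μ)) * area K) →
  Continuous H → Continuous C → Continuous W →
  (∀ u, H (u + 2 * Real.pi) = H u) → (∀ u, C (u + 2 * Real.pi) = C u) →
  (∀ u, 0 ≤ W u) → (∀ u, W (u + Real.pi) = W u) →
  (∀ u, ∃ p ∈ K, H u ≤ (p * (starRingEnd ℂ) (ee u)).re) →
  (∀ u, ∃ c, C u ≤ c ∧ Chord K u c) →
  ∫ u in (0 : ℝ)..(2 * Real.pi), (H u + C u) * W u ≤
    3 / (2 * Real.pi) * (1 + μ) * area K * ∫ u in (0 : ℝ)..(2 * Real.pi), W u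

/-- MODULE NRM (about 300 lines). `theorem hNRM (hA : StAff) : StNrm`.
Proof. Let `D = closedBall 0 1`, `A₀ = area K ∈ [π, π(1+ε)²]`. Since `∫_D z = ∫_D z² = 0` (the
rotation `z ↦ i z` preserves `D` and the measure, so `∫_D z = i ∫_D z` and `∫_D z² = -∫_D z²`),
`M₁ = ∫_K z` and `M₂ = ∫_K z²`
are integrals over `K \ D`, of absolute value `≤ (1+ε)² (A₀ - π) ≤ 10 ε` (for `ε ≤ 1/100`). Put
`c = M₁/A₀`, so `‖c‖ ≤ 4ε`, `S = ∫_K (z-c)² = M₂ - c² A₀`, `‖S‖ ≤ 20 ε`,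
`N = ∫_K ‖z - c‖² ≥ 1` (it is at least the integral over `closedBall c (9/10) ⊆ D`, or any lower
bound). Put `τ = 1/(N + √(N² - ‖S‖²))`, `β₀ = -S τ`, `‖β₀‖ ≤ ‖S‖ ≤ 20 ε`; `τ` is a root of
`‖S‖² τ² - 2 N τ + 1 = 0`, so `conj S β₀² + 2 N β₀ + S = S (‖S‖² τ² - 2Nτ + 1) = 0`. For
`L z = z + β₀ conj z`: `(L y)² = y² + 2 β₀ ‖y‖² + β₀² conj y²`, so `∫_K (L (z-c))² = 0`, and
`∫_K L (z - c) = 0`. Let `ρ > 0`, `ρ² = π/((1-‖β₀‖²) A₀)`, `|ρ - 1| ≤ C ε`, and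
`f z = ρ L (z - c) = aff ρ (ρ β₀) (-ρ (c + β₀ conj c)) z`. By AFF `f '' K` has area `π`. For the
moments: `∫_{f(K)} g = ρ² (1-‖β₀‖²) ∫_K g ∘ f` (change of variables
`MeasureTheory.integral_image_eq_integral_abs_det_fderiv_smul`, or
`MeasureTheory.Measure.map_linearMap_addHaar_eq_smul_addHaar`), so
`∫_{f(K)} z = ∫_{f(K)} z² = 0`. Inclusions: `‖f z‖ ≤ ρ (1+‖β₀‖)(‖z‖+‖c‖) ≤ 1 + C ε` on `K`; and if
`‖y‖ ≤ 1 - C ε` then the point `z` with `f z = y` has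
`‖z - c‖ ≤ (‖y‖/ρ)/(1-‖β₀‖)`, so `‖z‖ ≤ 1` and `z ∈ D ⊆ K`. -/
def StNrm : Prop := ∃ C ε₁ : ℝ, 1 ≤ C ∧ 0 < ε₁ ∧ ∀ (K : Set ℂ) (ε : ℝ), IsBody K → 0 ≤ ε →
  ε ≤ ε₁ → closedBall 0 1 ⊆ K → K ⊆ closedBall 0 (1 + ε) →
  ∃ α β b : ℂ, ‖β‖ < ‖α‖ ∧ closedBall 0 (1 - C * ε) ⊆ aff α β b '' K ∧
    aff α β b '' K ⊆ closedBall 0 (1 + C * ε) ∧ area (aff α β b '' K) = Real.pi ∧
    ∫ z in aff α β b '' K, z = 0 ∧ ∫ z in aff α β b '' K, z ^ 2 = 0

/-- MODULE POL (about 150 lines). `theorem hPOL : StPol`.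
Proof. `g = gauge ℝ K` is continuous, positively homogeneous, and positive off `0` (`K` is bounded,
`0` is an interior point), `z ∈ K ↔ g z ≤ 1` (`K` closed convex). In polar coordinates
(`Complex.integral_comp_polarCoord_symm`) with `f = indicator K (z ↦ z^j)`:
`∫_K z^j = ∫_{(r,φ), r > 0, φ ∈ (-π,π)} r • f (r ee φ)`, and `r ee φ ∈ K ↔ r ≤ R(φ) := (g (ee φ))⁻¹`,
so the inner integral is `ee φ ^ j ∫_0^{R(φ)} r^{j+1} dr = R(φ)^{j+2}/(j+2) ee φ ^ j`. Move the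
interval `(-π, π)` to `(0, 2π)` by periodicity. -/
def StPol : Prop := ∀ (K : Set ℂ) (j : ℕ), IsBody K → closedBall 0 (1 / 2) ⊆ K →
  ∫ z in K, z ^ j = (1 / ((j : ℂ) + 2)) * ∫ φ in (0 : ℝ)..(2 * Real.pi),
    (((gauge K (ee φ))⁻¹ ^ (j + 2) : ℝ) : ℂ) * ee φ ^ j

/-- MODULE SUB (about 200 lines). `theorem hSUB : StSub`.
Proof. `v(t) = rot t x`, `X + i Y = 1 + v₁ + v₂`, `X ≥ 9/10`, `φ(t) = t + arctan (Y/X)`. Then
`zh x t = ee t (X + iY) = ‖zh x t‖ ee (φ t)` (`Real.cos_arctan`, `Real.sin_arctan`) and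
`φ'(t) = h0 (rot t x)/‖zh x t‖²`: indeed `X' + i Y' = -3i v₁ - 5i v₂` (`hasDerivAt_rot`),
`(XY' - YX') = Im (conj (X+iY) (X'+iY'))` and
`X² + Y² + Im (conj(1+v₁+v₂)(-3iv₁-5iv₂)) = Re (conj(1+v₁+v₂)(1-2v₁-4v₂)) = h0`. `φ` is `C¹`,
`φ(2π) = φ(0) + 2π`. With the `2π`-periodic continuous function
`G(φ) = (g (ee φ))^{-(j+2)} ee φ ^ j`, `g = gauge ℝ K`, we have
`∫_0^{2π} G(φ(t)) φ'(t) dt = ∫_{φ(0)}^{φ(0)+2π} G = ∫_0^{2π} G`, and by homogeneity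
`g (ee (φ t)) = g (zh x t)/‖zh x t‖`, so
`G(φ(t)) φ'(t) = (g (zh x t))^{-(j+2)} (zh x t)^j h0 (rot t x)`. -/
def StSub : Prop := ∀ (K : Set ℂ) (x : ℂ × ℂ) (j : ℕ), IsBody K → closedBall 0 (1 / 2) ⊆ K →
  ‖x‖ ≤ 1 / 20 →
  ∫ φ in (0 : ℝ)..(2 * Real.pi), (((gauge K (ee φ))⁻¹ ^ (j + 2) : ℝ) : ℂ) * ee φ ^ j =
    ∫ t in (0 : ℝ)..(2 * Real.pi),
      (((gauge K (zh x t))⁻¹ ^ (j + 2) * h0 (rot t x) : ℝ) : ℂ) * zh x t ^ j

/-- MODULE GAU (about 300 lines). `theorem hGAU : StGau`.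
Proof. `g = gauge ℝ K`: sublinear, positively homogeneous, Lipschitz, `z ∈ K ↔ g z ≤ 1`,
`‖z‖/(1+κ) ≤ g z ≤ ‖z‖/(1-κ)`. `w t = (g (zh x t))⁻¹ - 1`. The equivalence `Bd`:
`g ((1+ξ) z) = (1+ξ) g z ≤ 1 ↔ ξ ≤ (g z)⁻¹ - 1`. Periodicity: `zh_per`.
Bounds: `|‖zh x t‖ - 1| ≤ 2‖x‖`, so `|w t| ≤ C(κ + ‖x‖) ≤ C(√κ + ‖x‖)`.
(1) Slope. Let `P = zh x s`, `Q = zh x t`, `d = ‖Q - P‖ > 0` small, `e = (Q-P)/d`, `τ = √κ + d`. By
convexity of `r ↦ g (P + r e)` on `[0, τ]`: `g Q - g P ≤ (d/τ)(g (P + τ e) - g P)`. Now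
`‖P + τe‖² = ‖P‖² + 2τ Re (P conj e) + τ²` and `|Re (P conj e)| ≤ C(‖x‖ + d)`, because
`Re (P conj (Q-P)) = ∫_s^t Re (zh x s conj (zd x r)) dr`,
`|Re (zh x s conj (zd x r))| ≤ |Re (ee s conj (i ee r))| + C‖x‖ ≤ |r - s| + C‖x‖`, and
`|t-s|/2 ≤ d ≤ 2|t-s|`. So `g (P+τe) - g P ≤ ‖P+τe‖/(1-κ) - ‖P‖/(1+κ) ≤ C(κ + τ(‖x‖+d) + τ²)`, and
`g Q - g P ≤ C d (√κ + ‖x‖ + d)` (`κ/τ ≤ √κ`); the same with `P, Q` exchanged. Hence
`|g (zh x t) - g (zh x s)| ≤ C |t-s| (√κ + ‖x‖ + |t-s|)` for all `s, t` close together.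
(2) Right derivative: for `z = zh x t`, `v = zd x t` the quotient `(g (z + rv) - g z)/r` is
nondecreasing in `r > 0` and bounded below (`g` convex and Lipschitz), so it has a limit as
`r → 0+`; and `‖zh x (t+r) - z - r v‖ = o(r)`, `g` Lipschitz. So `g ∘ zh x` has a right derivative
at `t`, of absolute value `≤ C(√κ + ‖x‖)` by (1), and so has `w` (`g ≥ 1/2`). Let `w' t` be the
right derivative (`derivWithin w (Ioi t) t`); it is periodic, and measurable as the pointwise limit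
of the continuous functions `n (w (t + 1/n) - w t)`. -/
def StGau : Prop := ∃ C : ℝ, 1 ≤ C ∧ ∀ (K : Set ℂ) (x : ℂ × ℂ) (κ : ℝ), IsBody K → 0 ≤ κ →
  κ ≤ 1 / 100 → closedBall 0 (1 - κ) ⊆ K → K ⊆ closedBall 0 (1 + κ) → ‖x‖ ≤ 1 / 100 →
  Bd K x (fun t => (gauge K (zh x t))⁻¹ - 1) ∧
  ∃ w' : ℝ → ℝ, Rough (C * (Real.sqrt κ + ‖x‖)) (fun t => (gauge K (zh x t))⁻¹ - 1) w'

/-- MODULE TIP (about 300 lines). `theorem hTIP : StTip`.
Proof. `K` is compact and nonempty, so the supremum `hs K u` is attained; `hs K` is Lipschitz with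
the constant `101/100` and periodic. Put `Z t = (1 + w t) zh x t ∈ K` (by `Bd`); `s⁻¹ Z t ∉ K` for
`0 < s < 1` (`Bd`). `Z` is continuous, `2π`-periodic, with the right derivative
`Z' t = w' t zh x t + (1 + w t) zd x t`, and `‖Z' t - i ee t‖ ≤ 1/4`. Let `n ≥ 100`, `h = 2π/n`,
`τ ∈ ℝ`, `t_i = τ + i h`, `Z_i = Z t_i`, `d_i = Z_{i+1} - Z_i` (all `i ∈ ℕ`; period `n`).
(1) `d_i = ∫_{t_i}^{t_{i+1}} Z'` (`intervalIntegral.integral_eq_sub_of_hasDeriv_right`), so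
`‖d_i - h i ee t_i‖ ≤ h (1/4 + h) < h`, hence `Re (d_i conj (i ee t_i)) > 0`. Let
`α_i = t_i + arg (d_i conj (i ee t_i))`: `|α_i - t_i| < π/2` (`Complex.abs_arg_lt_pi_div_two_iff`),
`d_i = ‖d_i‖ i ee α_i`, `α_{i+n} = α_i + 2π`.
(2) `cr Z_i Z_{i+1} > 0` (`= cr Z_i d_i`, as `Z_i` is near `ee t_i` and `d_i` near `h i ee t_i`) and in
the same way `cr Z_i Z_{i+2} > 0`. Claim: `cr d_i d_{i+1} ≥ 0`. With `P, Q, R = Z_i, Z_{i+1}, Z_{i+2}`
we have `cr d_i d_{i+1} = cr P Q + cr Q R - cr P R` and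
`cr P R • Q = cr Q R • P + cr P Q • R`. If the claim fails then `Q = s (λ P + (1-λ) R)` with
`s = (cr Q R + cr P Q)/cr P R ∈ (0,1)`, `λ ∈ [0,1]`, so `s⁻¹ Q ∈ K`, a contradiction.
So `sin (α_{i+1} - α_i) ≥ 0` (it is `cr d_i d_{i+1}/(‖d_i‖‖d_{i+1}‖)`), and `α_{i+1} - α_i > h - π`, hence
`α_i ≤ α_{i+1}`.
(3) `∫_0^{2π} hs K = ∫_{α_0}^{α_n} hs K = ∑_{i=1}^{n} ∫_{α_{i-1}}^{α_i} hs K
≥ ∑ Re (Z_i conj ∫_{α_{i-1}}^{α_i} ee) = ∑ Re (Z_i conj (-i (ee α_i - ee α_{i-1})))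
= ∑_{i=0}^{n-1} Re ((Z_{i+1} - Z_i) conj (i ee α_i)) = ∑_{i=0}^{n-1} ‖d_i‖` (summation by parts,
period `n`).
(4) Let `φ_n t = ‖Z (t + h) - Z t‖/h`, continuous, periodic, `≤ 2`. By (3)
`∫_0^{2π} φ_n = ∑_{i<n} ∫_0^h φ_n (τ + i h) dτ = ∫_0^h (∑_i ‖d_i‖)/h dτ ≤ ∫_0^{2π} hs K`. As `n → ∞`,
`φ_n t → ‖Z' t‖` (right derivative), so dominated convergence gives the claim. -/
def StTip : Prop := ∀ (K : Set ℂ) (x : ℂ × ℂ) (w w' : ℝ → ℝ) (η : ℝ), IsBody K →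
  closedBall 0 (99 / 100) ⊆ K → K ⊆ closedBall 0 (101 / 100) → ‖x‖ ≤ 1 / 100 → η ≤ 1 / 100 →
  Rough η w w' → Bd K x w →
  Continuous (hs K) ∧ (∀ u, hs K (u + 2 * Real.pi) = hs K u) ∧
  (∀ u, ∃ p ∈ K, hs K u ≤ (p * (starRingEnd ℂ) (ee u)).re) ∧
  ∫ t in (0 : ℝ)..(2 * Real.pi), ‖(w' t : ℂ) * zh x t + ((1 + w t : ℝ) : ℂ) * zd x t‖ ≤
    ∫ u in (0 : ℝ)..(2 * Real.pi), hs K u

/-- MODULE TP2 (about 200 lines). `theorem hTP2 : StTp2`.
Proof. Write `z = zh x t`, `z' = zd x t`, `z'' = -(ee t + 4 x₁ ee(-2t) + 16 x₂ ee(-4t))` (derivative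
of `zd x`), `σ = ‖z'‖ = sg (rot t x)`, `a·b = Re (a conj b)`. `V = w' z + (1+w) z'` has the
component `p = (1+w)σ + w' (z·z')/σ` along `z'/σ` and the orthogonal component `q` with
`|q| = |w'| h0/σ` (`cr z z' = h0`). `‖V‖ = √(p²+q²) ≥ p + q²/(2‖V‖)` if `p > 0`
(`√(p²+q²) - p = q²/(√(p²+q²)+p)`), `‖V‖ ≤ 1 + C(η+‖x‖)`, `h0/σ ≥ 1 - C‖x‖`, so
`‖V‖ ≥ (1+w)σ + w' (z·z')/σ + (1/2)(1 - C(η+‖x‖)) w'²`. Integrate: `G(t) = (z·z')/σ` is `C¹` and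
`2π`-periodic with `G' = σ - kt (rot t x)`: `(z·z')' = σ² + z·z''`, `σ' = (z'·z'')/σ`, so
`G' = σ + [(z·z'')(z'·z') - (z·z')(z'·z'')]/σ³ = σ + cr z z' * cr z'' z'/σ³` (Lagrange identity
`cr a b * cr c d = (a·c)(b·d) - (a·d)(b·c)`), and `cr z' z'' = Re (conj(1-2v₁-4v₂)(1+4v₁+16v₂))`,
`v = rot t x`. `∫ (w' G + w G') = 0` since `wG` is periodic, continuous with right derivative
`w'G + wG'` (`intervalIntegral.integral_eq_sub_of_hasDeriv_right`). -/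
def StTp2 : Prop := ∃ C r : ℝ, 0 < C ∧ 0 < r ∧ ∀ (x : ℂ × ℂ) (w w' : ℝ → ℝ) (η : ℝ), ‖x‖ ≤ r →
  η ≤ r → Rough η w w' →
  (∫ t in (0 : ℝ)..(2 * Real.pi), sg (rot t x))
    + (∫ t in (0 : ℝ)..(2 * Real.pi), w t * kt (rot t x))
    + 1 / 2 * q2 w' - C * (η + ‖x‖) * q2 w' ≤
  ∫ t in (0 : ℝ)..(2 * Real.pi), ‖(w' t : ℂ) * zh x t + ((1 + w t : ℝ) : ℂ) * zd x t‖

end Helper49.LT
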