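import Pool.Agent.Helper49.LT.Base

/-!
# Project LT (MP_b21509_co, local theorem): statements with complete proofs, part B (analysis)

See `StA.lean` for the overview and the conventions for module files. The space
`(ℂ × ℂ) × (ℝ × ℝ)` carries the sup norm; `p = (v, ζ)`.
-/

open MeasureTheory Set Filter Metric

namespace Helper49.LT

/-- MODULE IFT (about 200 lines). `theorem hIFT : StIft`.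
Proof. Let `X = (ℂ × ℂ) × (ℝ × ℝ)` and
`G(p, s, s') = (1+p.2.1) zh p.1 s - (1+p.2.2) zh p.1 s' - i√3` on `X × ℝ × ℝ`, with values in `ℂ`; it
is `C^∞` (`contDiff_zh`). `G(0, π/3, -π/3) = e^{iπ/3} - e^{-iπ/3} - i√3 = 0`, and the derivative in
`(s, s')` at this point is `(a, b) ↦ a i e^{iπ/3} - b i e^{-iπ/3}`, an isomorphism `ℝ² → ℂ` (the two
complex numbers are not parallel). Inverse function theorem (`ContDiffAt.toOpenPartialHomeomorph`,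
`ContDiffAt.to_localInverse`) for `(p, s, s') ↦ (p, G(p, s, s'))` at `(0, π/3, -π/3)`: there is a
smooth local inverse; its last components at `(p, 0)` are `sp p`, `sm p`. This gives the values at
`0`, the equation, smoothness and (by continuity) `near` on a small ball.
Uniqueness: if `|s - π/3| ≤ 1/10`, `|s' + π/3| ≤ 1/10` and both `(s, s')` and `(sp p, sm p)` solve the
equation then with `a = s - sp p`, `b = s' - sm p`: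
`0 = (1+ζ₁)(zh v s - zh v (sp p)) - (1+ζ₂)(zh v s' - zh v (sm p))`. The first term is
`a (i e^{iπ/3} + e₁)` and the second `b (i e^{-iπ/3} + e₂)` with `|e_j| ≤ 1/8` for small `p` (the
derivative `zd v r` differs from `i ee r` by at most `6‖v‖`, and `‖ee r - ee (±π/3)‖ ≤ 1/10`). Since
`‖a i e^{iπ/3} - b i e^{-iπ/3}‖² = a² + b² + ... ≥ (a²+b²)/2` (the angle between the two directions is
`60°` or `120°`), i.e. `≥ (|a|+|b|)/2` in norm, we get `(|a|+|b|)/2 ≤ (|a|+|b|)/7`, so `a = b = 0`. -/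
def StIft : Prop := ∃ (r : ℝ) (sp sm : (ℂ × ℂ) × (ℝ × ℝ) → ℝ), Chd r sp sm

/-- MODULE SOF (about 250 lines). `theorem hSOF : StSof`.
Proof. `f` is `C⁴` near `0`, so for `j ≤ 4` the `j`-th derivative is bounded near `0`, say by `M` on the
ball of radius `4r'`. Fix `v`, `ρ = ‖v‖` small, `‖h‖ = 1` and `g(τ) = f(v + τ h)` for `τ ∈ [0, 3ρ]`:
`|g| ≤ C (4ρ)^m` and `|g^{(m)}| ≤ M`. Taylor's formula at `0` (`taylor_mean_remainder_lagrange`) at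
`τ = ρ, 2ρ, 3ρ` gives, with errors `≤ C' ρ^{m-1}`,
`m = 2`: `g'(0) = (g(ρ) - g(0))/ρ + O(ρ)`;
`m = 3`: `g'(0) = (-3g(0) + 4g(ρ) - g(2ρ))/(2ρ) + O(ρ²)`;
`m = 4`: `g'(0) = (-11g(0) + 18g(ρ) - 9g(2ρ) + 2g(3ρ))/(6ρ) + O(ρ³)`.
So `|Df(v)h| ≤ C'' ρ^{m-1}`. The last claim follows by the mean value inequality on the segment
(`Convex.norm_image_sub_le_of_norm_fderiv_le`), the ball of radius `max ‖v‖ ‖v'‖` being convex. (Any other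
proof is welcome, e.g. by induction on `m` for vector valued `f`.) -/
def StSof : Prop := ∀ (E : Type) [NormedAddCommGroup E] [NormedSpace ℝ E] (f : E → ℝ)
  (r C : ℝ) (m : ℕ), 0 < r → 2 ≤ m → m ≤ 4 → ContDiffOn ℝ 4 f (ball 0 r) →
  (∀ v ∈ ball (0 : E) r, |f v| ≤ C * ‖v‖ ^ m) →
  ∃ C' r' : ℝ, 0 ≤ C' ∧ 0 < r' ∧ r' ≤ r ∧
    (∀ v ∈ ball (0 : E) r', ‖fderiv ℝ f v‖ ≤ C' * ‖v‖ ^ (m - 1)) ∧
    (∀ v ∈ ball (0 : E) r', ∀ v' ∈ ball (0 : E) r',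
      |f v - f v'| ≤ C' * (‖v - v'‖ * (‖v‖ + ‖v'‖) ^ (m - 1)))

/-- MODULE EVN (about 120 lines). `theorem hEVN : StEvn`.
Proof. The fourth derivative is bounded by `M` near `0`. For `v` near `0` let `g(τ) = f(τ v)`,
`τ ∈ [-1, 1]`: `C⁴`, even, `|g(τ)| ≤ C |τ|³ ‖v‖³`, `|g''''| ≤ M ‖v‖⁴`. So `g(0) = g'(0) = g''(0) = 0`
(from the cubic bound) and `g'''(0) = 0` (even). Taylor: `|g(1)| ≤ M ‖v‖⁴/24`. (Or: Taylor of order 3 at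
`1` and `-1` added.) -/
def StEvn : Prop := ∀ (E : Type) [NormedAddCommGroup E] [NormedSpace ℝ E] (f : E → ℝ) (r C : ℝ),
  0 < r → ContDiffOn ℝ 4 f (ball 0 r) → (∀ v, f (-v) = f v) →
  (∀ v ∈ ball (0 : E) r, |f v| ≤ C * ‖v‖ ^ 3) →
  ∃ C' r' : ℝ, 0 ≤ C' ∧ 0 < r' ∧ r' ≤ r ∧ ∀ v ∈ ball (0 : E) r', |f v| ≤ C' * ‖v‖ ^ 4

/-- MODULE JET (about 300 lines). `theorem hJET : StJet`.
Proof. `p = (v, ζ)`, `S = π/3 + lsp p`, `S' = -π/3 + lsm p`, `A(s) = (1+ζ₁) zh v s`,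
`B(s') = (1+ζ₂) zh v s'`. All `O` are uniform, `C` a constant.
(1) `‖A(S) - B(S') - i√3‖ ≤ C‖p‖²`: replace `ee(n(π/3+δ))` by `ee(nπ/3)(1 + inδ)` (error `O(δ²)`) and
products of two small quantities by `0`; the linear part vanishes:
`e^{iπ/3}(ζ₁ + ρ₊ + i(τ₊ + δ₊)) = e^{-iπ/3}(ζ₂ + ρ₋ + i(τ₋ + δ₋))` for `δ₊ = lsp p`, `δ₋ = lsm p`, where
`ρ_± + iτ_± = -v₁ + v₂ e^{±iπ/3}` (a linear identity in `ζ₁, ζ₂, k3, s3, k5, s5`; use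
`cos(π/3) = 1/2`, `sin(π/3) = √3/2`).
(2) Hence `|sp p - S| + |sm p - S'| ≤ C‖p‖²`: as in the uniqueness part of IFT
`‖(A(s) - B(s')) - (A(S) - B(S'))‖ ≥ c (|s - S| + |s' - S'|)` for `s, S` within `1/10` of `π/3` and
`s', S'` within `1/10` of `-π/3`.
(3) Let `Ψ(s, s') = (Re A(s) + Re B(s'))/2 + (√3/2)(Im A(s) - Im B(s') - √3)`. By the equation
`Ψ(sp p, sm p) = Re A(sp p) = cc sp p`. The derivative of `Ψ` in `s` and `s'` at `(S, S')` is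
`O(‖p‖)` (it vanishes for `p = 0`: `-sin(π/3)/2 + (√3/2) cos(π/3) = 0`, and the same for `s'`) and the
second derivatives are bounded, so `|Ψ(sp p, sm p) - Ψ(S, S')| ≤ C‖p‖³` by (2).
(4) `Ψ(S, S') = tcc p + O(‖p‖³)`: replace `ee(n(π/3+δ))` by `ee(nπ/3)(1 + inδ - n²δ²/2)` (error `O(|δ|³)`)
and expand; the terms of degree `≤ 2` give `tcc p` (an identity of polynomials in
`ζ₁, ζ₂, k3, s3, k5, s5` with `√3² = 3`), the other terms are `O(‖p‖³)`. (Checked by computer algebra.) -/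
def StJet : Prop := ∀ (r : ℝ) (sp sm : (ℂ × ℂ) × (ℝ × ℝ) → ℝ), Chd r sp sm →
  ∃ C r₁ : ℝ, 0 < C ∧ 0 < r₁ ∧ r₁ ≤ r ∧ ∀ p ∈ ball (0 : (ℂ × ℂ) × (ℝ × ℝ)) r₁,
    |sp p - (Real.pi / 3 + lsp p)| ≤ C * ‖p‖ ^ 2 ∧
    |sm p - (-(Real.pi / 3) + lsm p)| ≤ C * ‖p‖ ^ 2 ∧
    |cc sp p - tcc p| ≤ C * ‖p‖ ^ 3

/-- MODULE TAY (about 300 lines). `theorem hTAY (h₁ : StSof) (h₂ : StJet) : StTay`.
Proof. `cc sp` is `C⁶` on the ball. `κp v = D(cc sp)(v,0)(0,(1,0))`, `κm v = D(cc sp)(v,0)(0,(0,1))`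
(`fderiv`), of class `C⁵`. `f = cc sp - tcc` is `O(‖p‖³)`, so `‖Df p‖ ≤ C‖p‖²` by SOF (`m = 3`). At `(v, 0)`
this is `kp`, `km` (the `ζ`-derivative of `tcc` at `(v,0)`), and `vp`, `vm` for `v = 0`. Moreover
`D²f(0) = 0` and `D²f` is `C¹`, so `‖D²f p‖ ≤ C‖p‖`.
`tc`: Taylor of order 2 of `τ ↦ cc sp (v, τζ)` on `[0,1]`; its second derivative is
`D²tcc((0,ζ),(0,ζ)) + O((‖v‖+‖ζ‖)‖ζ‖²)`, and `D²tcc((0,ζ),(0,ζ)) = -(5/3)(ζ₁²+ζ₂²) - (8/3)ζ₁ζ₂`.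
`tp`, `tm`: `g = sp - π/3 - lsp` is `O(‖p‖²)`, so `‖Dg p‖ ≤ C‖p‖` (SOF, `m = 2`) and
`|g(v,ζ) - g(v,0)| ≤ C(‖v‖+‖ζ‖)‖ζ‖`, while `lsp(v,ζ) - lsp(v,0) = -(ζ₁+2ζ₂)/√3`; the same for `sm`.
`lp`, `lm`: `F(v,ζ) = sp(v,ζ) - sp(v,0)`. `|F(v',ζ) - F(v',ζ')| ≤ C‖ζ-ζ'‖` (`sp` is Lipschitz near `0`), and
`|F(v,ζ) - F(v',ζ)| ≤ C‖ζ‖‖v-v'‖` because the derivative of `v ↦ F(v,ζ)` is
`D_v sp(v,ζ) - D_v sp(v,0) = O(‖ζ‖)` (`Dsp` is Lipschitz near `0`). -/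
def StTay : Prop := ∀ (r : ℝ) (sp sm : (ℂ × ℂ) × (ℝ × ℝ) → ℝ), Chd r sp sm →
  ∃ (r₁ C : ℝ) (κp κm : ℂ × ℂ → ℝ), r₁ ≤ r ∧ Tay r₁ C sp sm κp κm

/-- MODULE CHO (about 200 lines). `theorem hCHO : StCho`.
Proof. Choose `r₁` and `L ≥ 1` such that `sp, sm, cc sp` are Lipschitz with the constant `L` on the ball of
radius `4r₁` contained in `ball 0 r` (they are `C¹`), and `4 L r₁ ≤ 1`. Let `v = rot u x` (`‖v‖ = ‖x‖`),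
`a = z0 ..`, `b = z1 ..`, all components bounded by `η`. Let
`D = max(|b.1 - w(u + sp(v,b))|, |b.2 - w(u + sm(v,b))|) ≤ η L ‖b - a‖` (`w` has the Lipschitz constant
`η`, `Rough.lip`, and `b.1 = w(u + sp(v,a))`). Put `c = (b.1 - 2D, b.2 - 2D)`. Then
`w(u + sp(v,c)) ≥ w(u + sp(v,b)) - ηL·2D ≥ b.1 - D - 2ηLD ≥ c.1`, and the same for `sm`, `c.2`. By `Bd`
the points `(1+c.1) zh x (u + sp(v,c))` and `(1+c.2) zh x (u + sm(v,c))` are in `K`; by `zh_rot` they are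
`ee u (1+c.1) zh v (sp(v,c))` and `ee u (1+c.2) zh v (sm(v,c))`, and by the chord equation the second
factors differ by `i√3`; both have the real part `cc sp (v,c)`. So `Chord K u (cc sp (v,c))`, and
`cc sp (v,c) ≥ cc sp (v,b) - 2LD ≥ cc sp (v,b) - 2L²η‖b-a‖`. -/
def StCho : Prop := ∀ (r : ℝ) (sp sm : (ℂ × ℂ) × (ℝ × ℝ) → ℝ), Chd r sp sm →
  ∃ C r₁ : ℝ, 0 < C ∧ 0 < r₁ ∧ r₁ ≤ r ∧ ∀ (K : Set ℂ) (x : ℂ × ℂ) (w w' : ℝ → ℝ) (η : ℝ),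
    ‖x‖ ≤ r₁ → η ≤ r₁ → Rough η w w' → Bd K x w → ∀ u : ℝ,
    ∃ c : ℝ, Chord K u c ∧ cc sp (rot u x, z1 sp sm w x u)
      - C * (η * (|(z1 sp sm w x u).1 - (z0 sp sm w x u).1|
        + |(z1 sp sm w x u).2 - (z0 sp sm w x u).2|)) ≤ c

/-- MODULE CI1 (about 200 lines). `theorem hCI1 (h : StCho) : StCi1`.
Proof. By CHO a chord of height `≥ cc sp (v,b) - Cη(|b.1-a.1|+|b.2-a.2|)` exists (`v = rot u x`,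
`a = z0 ..`, `b = z1 ..`, components bounded by `η`). By `Tay.tc` at `(v,b)`
`cc sp (v,b) ≥ cc sp (v,0) + κp b.1 + κm b.2 - (5/6)(b.1²+b.2²) - (4/3) b.1 b.2 - C(‖x‖+η)‖b‖²`. Here
`|b.1² - a.1²| ≤ 2η|b.1-a.1|` etc., `|b.1b.2 - a.1a.2| ≤ η(|b.1-a.1|+|b.2-a.2|)` and
`‖b‖² ≤ 2(a.1²+a.2²) + 4η(|b.1-a.1|+|b.2-a.2|)`. Together this is `≥ cf C' η ...`.
Continuity: `u ↦ rot u x` is continuous, `sp, sm, cc sp, κp, κm` are continuous on the ball,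
`w` is continuous. Periodicity: `rot_per` and the periodicity of `w`. -/
def StCi1 : Prop := ∀ (r : ℝ) (sp sm : (ℂ × ℂ) × (ℝ × ℝ) → ℝ), Chd r sp sm →
  ∀ (r' C' : ℝ) (κp κm : ℂ × ℂ → ℝ), r' ≤ r → Tay r' C' sp sm κp κm →
  ∃ C r₁ : ℝ, 0 < C ∧ 0 < r₁ ∧ ∀ (K : Set ℂ) (x : ℂ × ℂ) (w w' : ℝ → ℝ) (η : ℝ),
    ‖x‖ ≤ r₁ → η ≤ r₁ → Rough η w w' → Bd K x w →
    Continuous (cf C η sp sm κp κm w x) ∧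
    (∀ u, cf C η sp sm κp κm w x (u + 2 * Real.pi) = cf C η sp sm κp κm w x u) ∧
    (∀ u, ∃ c, cf C η sp sm κp κm w x u ≤ c ∧ Chord K u c)

/-- MODULE SHA (about 350 lines). `theorem hSHA : StSha`.
Proof. Put `T₀ u = u + s u`, `T₁ u = T₀ u + θ u`, `T_σ = T₀ + σθ` (`0 ≤ σ ≤ 1`): continuous, right
differentiable with `T_σ' ∈ [1-2δ, 1+2δ] ⊆ [4/5, 6/5]`, so strictly increasing bijections of `ℝ` with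
`T_σ(u+2π) = T_σ(u)+2π`; let `Ψ_σ` be the inverse. `Ψ_σ` is right differentiable with
`Ψ_σ'(τ) = 1/T_σ'(Ψ_σ(τ)) ∈ [5/6, 5/4]`, and for continuous `2π`-periodic `h`
`∫_0^{2π} h(Ψ_σ τ) Ψ_σ'(τ) dτ = ∫_0^{2π} h` (`intervalIntegral.integral_comp_mul_deriv'''`, which needs
only right derivatives). Let `g_ε(τ) = (w(τ+ε) - w(τ))/ε`, continuous, periodic, `|g_ε| ≤ 1`, and
`g_ε → w'` pointwise as `ε → 0+`, so all formulas below pass to the limit by dominated convergence.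
(a) `∫_0^{2π} g_ε(T_σ u)² du = ∫ g_ε(τ)² Ψ_σ'(τ) dτ ≤ (5/4) ∫ g_ε²`, so `∫ w'(T_σ)² ≤ (5/4) q2 w'`.
(b) `w(T₁ u) - w(T₀ u) = ∫_0^1 w'(T_σ u) θ(u) dσ` (FTC for right derivatives, `Rough.ftc`,
and a linear substitution), so `∫ |w(T₁) - w(T₀)| ≤ ∫_0^1 ∫ |w'(T_σ)||θ| ≤ √(5/4) √(q2 w') √(q2 θ)`.
(c) With `h = (g_ε ∘ T_σ) θ`: `∫ g_ε(T_σ u)θ(u)du = ∫ g_ε(τ) θ(Ψ_σ τ) Ψ_σ'(τ) dτ`. Compare `σ` and `0`: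
`T_σ(Ψ₀ τ) = τ + σθ(Ψ₀ τ)`, so `|Ψ_σ τ - Ψ₀ τ| ≤ (5/4)|θ(Ψ₀ τ)|`, hence
`|θ(Ψ_σ τ) - θ(Ψ₀ τ)| ≤ 2δ|θ(Ψ₀ τ)|` (`θ` has the Lipschitz constant `δ`), and
`|Ψ_σ' - Ψ₀'| ≤ 4δ·2`. So `|∫ g_ε(T_σ)θ - ∫ g_ε(T₀)θ| ≤ 20δ ∫ |g_ε(τ)||θ(Ψ₀ τ)| dτ
≤ 30δ √(∫ g_ε²) √(q2 θ)` (`∫ θ(Ψ₀ τ)² dτ ≤ (6/5)∫ θ(Ψ₀)² Ψ₀' = (6/5) q2 θ`). Let `ε → 0` and integrate
over `σ`. (`∫ g_ε² → q2 w'` by dominated convergence.) -/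
def StSha : Prop := ∃ C : ℝ, 0 < C ∧ ∀ (δ : ℝ) (w w' s s' θ θ' : ℝ → ℝ), δ ≤ 1 / 10 →
  Rough 1 w w' → (∀ u, s (u + 2 * Real.pi) = s u) → (∀ u, HasDerivAt s (s' u) u) →
  Continuous s' → (∀ u, |s' u| ≤ δ) → Rough δ θ θ' →
  ∫ u in (0 : ℝ)..(2 * Real.pi), |w (u + s u + θ u) - w (u + s u)| ≤
    C * (Real.sqrt (q2 w') * Real.sqrt (q2 θ)) ∧
  |(∫ u in (0 : ℝ)..(2 * Real.pi), (w (u + s u + θ u) - w (u + s u)))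
    - ∫ u in (0 : ℝ)..(2 * Real.pi), w' (u + s u) * θ u| ≤
    C * (δ * (Real.sqrt (q2 w') * Real.sqrt (q2 θ)))

/-- MODULE BIL (about 250 lines). `theorem hBIL (h : StSha) : StBil`.
Proof. As `∫ w = 0`, `|w| ≤ ∫|w'|` (`w` vanishes somewhere), so `q2 w ≤ 40 q2 w'`, and the same bounds hold
for shifts. (1) `∫ (w(u+s₂ u) - w(u+c₂))² du ≤ 2δ² q2 w'`: the difference is
`∫_0^1 w'(u + c₂ + σ(s₂ u - c₂))(s₂ u - c₂) dσ` and `∫ w'(u + c₂ + σ(s₂ u - c₂))² du ≤ 2 q2 w'` by the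
substitution `τ = u + c₂ + σ(s₂ u - c₂)`, a `C¹` diffeomorphism with derivative `≥ 9/10`
(`w'` is bounded measurable; approximate by `(w(·+ε)-w)/ε` as in SHA, or use
`MeasureTheory.integral_image_eq_integral_abs_deriv_smul`). So in both integrals `s₂` may be replaced by
`c₂` (Cauchy-Schwarz), and in the second one also `s₁` by `c₁`.
(2) `∫ w'(u+s₁ u) w(u+c₂) du` versus `∫ w'(u+c₁) w(u+c₂) du`: with the inverse `Ψ` of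
`T = id + s₁`, the first is `∫ w'(τ) w(Ψτ + c₂) Ψ'(τ) dτ`, the second `∫ w'(τ) w(τ - c₁ + c₂) dτ`;
`|Ψ' - 1| ≤ 2δ`, `|Ψτ - (τ - c₁)| ≤ δ` (as `T(Ψτ) = τ`), and as in (1)
`∫ (w(Ψτ + c₂) - w(τ - c₁ + c₂))² dτ ≤ Cδ² q2 w'`. Cauchy-Schwarz. (The hypothesis `h` may be useful but
is not needed.) -/
def StBil : Prop := ∃ C : ℝ, 0 < C ∧ ∀ (δ c₁ c₂ : ℝ) (w w' s₁ s₁' s₂ s₂' : ℝ → ℝ), δ ≤ 1 / 10 →
  Rough 1 w w' → ∫ t in (0 : ℝ)..(2 * Real.pi), w t = 0 →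
  (∀ u, s₁ (u + 2 * Real.pi) = s₁ u) → (∀ u, HasDerivAt s₁ (s₁' u) u) → Continuous s₁' →
  (∀ u, |s₁' u| ≤ δ) → (∀ u, |s₁ u - c₁| ≤ δ) →
  (∀ u, s₂ (u + 2 * Real.pi) = s₂ u) → (∀ u, HasDerivAt s₂ (s₂' u) u) → Continuous s₂' →
  (∀ u, |s₂' u| ≤ δ) → (∀ u, |s₂ u - c₂| ≤ δ) →
  |(∫ u in (0 : ℝ)..(2 * Real.pi), w' (u + s₁ u) * w (u + s₂ u))
    - ∫ u in (0 : ℝ)..(2 * Real.pi), w' (u + c₁) * w (u + c₂)| ≤ C * (δ * q2 w') ∧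
  |(∫ u in (0 : ℝ)..(2 * Real.pi), w (u + s₁ u) * w (u + s₂ u))
    - ∫ u in (0 : ℝ)..(2 * Real.pi), w (u + c₁) * w (u + c₂)| ≤ C * (δ * q2 w')

/-- MODULE CI2 (about 350 lines). `theorem hCI2 (h₁ : StSha) (h₂ : StBil) : StCi2`.
Proof. `v = rot u x`, `a = z0 ..`, `b = z1 ..` (functions of `u`), `s(u) = sp(v,0)`, `s_-(u) = sm(v,0)`:
`C¹`, periodic, `|s'| ≤ C‖x‖`, `|s - π/3| ≤ C‖x‖`, `|s_- + π/3| ≤ C‖x‖` (`hasDerivAt_rot`, `sp` is `C¹`).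
`θ(u) = sp(v,a) - sp(v,0)`, `θ_-(u) = sm(v,a) - sm(v,0)`. By `Tay.lp` (with `q = 0`-variants) `|θ| ≤ C‖a‖`,
`θ` has a Lipschitz constant `≤ Cη` (`|a(u) - a(u')| ≤ Cη|u-u'|`, `‖a‖ ≤ η`,
`‖v(u) - v(u')‖ ≤ 5‖x‖|u-u'|`), and `θ` is right differentiable (`a` is: `u ↦ w(u + s(u))` with `u + s(u)`
strictly increasing and `C¹`; chain rule with the differentiable `sp`). So `Rough (C(η+‖x‖)) θ θ'`.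
Now `b.1 = w(u + s + θ)`, `a.1 = w(u + s)`, `b.2 = w(u + s_- + θ_-)`, `a.2 = w(u + s_-)`.
(1) `∫ κp b.1 = ∫ κp a.1 + ∫ (b.1 - a.1) + ∫ (κp - 1)(b.1 - a.1)`, `|κp - 1| ≤ C‖x‖`; SHA:
`∫|b.1 - a.1| ≤ C√(q2 w')√(q2 θ) ≤ C q2 w'` (`q2 θ ≤ C∫‖a‖² ≤ C q2 w ≤ C q2 w'`: substitution
`τ = u + s(u)`, and `w` has mean `0`), `∫ (b.1 - a.1) ≥ ∫ w'(u+s)θ - C(η+‖x‖) q2 w'`.
(2) By `Tay.tp` `|θ + (a.1 + 2a.2)/√3| ≤ C(η+‖x‖)‖a‖`, so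
`∫ w'(u+s)θ ≥ -(1/√3)∫ w'(u+s)w(u+s) - (2/√3)∫ w'(u+s)w(u+s_-) - C(η+‖x‖) q2 w'`; by BIL these are, up to
`C‖x‖ q2 w'`, `∫ w'(u+π/3)w(u+π/3) = 0` (derivative of `w²/2`) and `∫ w'(u+π/3)w(u-π/3) = iI w w'`. In the
same way `∫ w'(u+s_-)θ_- ≥ (2/√3)∫ w'(u-π/3)w(u+π/3) - C(η+‖x‖) q2 w'`, and
`∫ w'(u-π/3)w(u+π/3) = ∫ w'(t)w(t+2π/3) = -∫ w(t)w'(t+2π/3) = -iI w w'`. Total `-(4/√3) iI w w'`.
(3) `∫ (5/6)(a.1²+a.2²) ≤ (10/6) q2 w + C‖x‖q2 w'` and `|∫ a.1a.2 - iP w| ≤ C‖x‖ q2 w'` by BIL.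
(4) The last term of `cf` is at least `-C₁(η+‖x‖)C q2 w'`. -/
def StCi2 : Prop := ∀ (r : ℝ) (sp sm : (ℂ × ℂ) × (ℝ × ℝ) → ℝ), Chd r sp sm →
  ∀ (r' C' : ℝ) (κp κm : ℂ × ℂ → ℝ), r' ≤ r → Tay r' C' sp sm κp κm →
  ∃ C r₁ : ℝ, 0 < C ∧ 0 < r₁ ∧ ∀ (C₁ η : ℝ) (x : ℂ × ℂ) (w w' : ℝ → ℝ), 0 ≤ C₁ →
    ‖x‖ ≤ r₁ → η ≤ r₁ → Rough η w w' → ∫ t in (0 : ℝ)..(2 * Real.pi), w t = 0 →
    (∫ u in (0 : ℝ)..(2 * Real.pi), cc sp (rot u x, 0))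
    + (∫ u in (0 : ℝ)..(2 * Real.pi), κp (rot u x) * w (u + sp (rot u x, 0)))
    + (∫ u in (0 : ℝ)..(2 * Real.pi), κm (rot u x) * w (u + sm (rot u x, 0)))
    - 4 / Real.sqrt 3 * iI w w' - 1 / 6 * (10 * q2 w + 8 * iP w)
    - C * ((1 + C₁) * ((η + ‖x‖) * q2 w')) ≤
    ∫ u in (0 : ℝ)..(2 * Real.pi), cf C₁ η sp sm κp κm w x u

/-- MODULE CI3 (about 250 lines). `theorem hCI3 (h : StSha) : StCi3`.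
Proof. Notation of CI2; `W = wW ω n`, `0 ≤ W ≤ 2`, `|W'| ≤ 10`. In `cf` the terms other than
`cc sp (v,0) + a.1 + a.2` are bounded below by
`-C(1+C₁)(‖x‖(|a.1|+|a.2|) + ‖a‖² + |b.1-a.1| + |b.2-a.2|)` (`|κp - 1| ≤ C‖x‖`, `η ≤ 1`), whose integral against
`W ≤ 2` is at least `-C(1+C₁)(‖x‖ n1 w + q2 w')` (SHA for `∫|b.1-a.1| ≤ C q2 w'`, substitution
`τ = u + s(u)` for `∫|a.1| ≤ 2 n1 w`). Finally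
`∫ a.1 W = ∫ w(u+s(u)) W(u) du = ∫ w(τ) W(Ψτ) Ψ'(τ) dτ` with the inverse `Ψ` of the `C¹` map `u + s(u)`,
`|Ψ' - 1| ≤ C‖x‖`, `|Ψτ - (τ - π/3)| ≤ C‖x‖`, so it is `∫ w(t)W(t-π/3)dt + O(‖x‖ n1 w)`. The same
for `a.2` with `W(t+π/3)`. -/
def StCi3 : Prop := ∀ (r : ℝ) (sp sm : (ℂ × ℂ) × (ℝ × ℝ) → ℝ), Chd r sp sm →
  ∀ (r' C' : ℝ) (κp κm : ℂ × ℂ → ℝ), r' ≤ r → Tay r' C' sp sm κp κm →
  ∃ C r₁ : ℝ, 0 < C ∧ 0 < r₁ ∧ ∀ (C₁ η : ℝ) (x : ℂ × ℂ) (w w' : ℝ → ℝ) (ω : ℂ) (n : ℕ),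
    0 ≤ C₁ → ‖x‖ ≤ r₁ → η ≤ r₁ → Rough η w w' → ∫ t in (0 : ℝ)..(2 * Real.pi), w t = 0 →
    ‖ω‖ ≤ 1 → n ≤ 10 →
    (∫ u in (0 : ℝ)..(2 * Real.pi), cc sp (rot u x, 0) * wW ω n u)
    + (∫ t in (0 : ℝ)..(2 * Real.pi),
        w t * (wW ω n (t - Real.pi / 3) + wW ω n (t + Real.pi / 3)))
    - C * ((1 + C₁) * (‖x‖ * n1 w + q2 w')) ≤
    ∫ u in (0 : ℝ)..(2 * Real.pi), cf C₁ η sp sm κp κm w x u * wW ω n u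

/-- MODULE KER (about 350 lines). `theorem hKER (h : StSof) : StKer`.
Here `X y = (-3i y₁, -5i y₂)` is the generator of `rot` (`hasDerivAt_rot`), commuting with `rot`.
Proof. (1) `κ` is `C³` near `0`, so `κ v = 1 + K₁ v + K₂ v + O(‖v‖³)` with `K₂` a quadratic form
(`K₂ v = D²κ(0)(v,v)/2`; Taylor on segments), and `s v = σ₀ + S₁ v + S₂ v + O(‖v‖³)`; moreover
`Ds(v) = S₁ + DS₂(v) + O(‖v‖²)` (SOF with `m = 3` for the difference). (2) Let `v = rot u x`,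
`T(u) = u + s(v)`, so `T'(u) = 1 + Ds(v)(X v) = 1 + S₁(Xv) + DS₂(v)(Xv) + O(‖x‖³)` and
`rot (T u) x = rot (s v) v = rot σ₀ v + S₁(v) X(rot σ₀ v) + O(‖x‖³)` (`rot_add`, Taylor in the angle).
Define the linear form `A y = K₁(rot (-σ₀) y) - S₁(X(rot (-σ₀) y))` and the quadratic form `Q` by
`Q(rot σ₀ v) = K₂ v - S₁(v) A(X rot σ₀ v) - S₁(Xv) A(rot σ₀ v) - DS₂(v)(Xv)`. Then with
`M(t) = 1 + A(rot t x) + Q(rot t x)`: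
`κ(v) = T'(u) M(T u) + O(‖x‖³)` (multiply out; the terms of order 1 and 2 agree).
(3) So `∫ κ(v) w(T u) du = ∫ T'(u) M(T u) w(T u) du + O(‖x‖³) ∫|w(T u)| du`, the first integral is
`∫_0^{2π} M w` (substitution, periodicity), and `∫|w(T u)| du ≤ 2 n1 w`. (4) `∫ w = 0`. `Q` is a quadratic
form on `ℂ²`: `Q y = c₁‖y₁‖² + Re (c₂ y₁²) + R(y)`, `|R(y)| ≤ C(‖y₁‖‖y₂‖ + ‖y₂‖²)` (a real quadratic form of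
`y₁ = a + ib` is a combination of `a²+b²`, `a²-b²`, `ab`). For `y = rot t x`: `‖y₁‖ = ‖x₁‖`,
`y₁² = x₁² ee(-6t)`, so `|∫ w Q(rot t x)| ≤ C‖x₁‖²‖wf w 6‖ + C(‖x₁‖‖x₂‖+‖x₂‖²) n1 w`. -/
def StKer : Prop := ∀ (κ s : ℂ × ℂ → ℝ) (r σ₀ C₀ : ℝ) (K₁ S₁ : ℂ × ℂ →L[ℝ] ℝ), 0 < r →
  ContDiffOn ℝ 4 κ (ball 0 r) → ContDiffOn ℝ 4 s (ball 0 r) → κ 0 = 1 → s 0 = σ₀ → |σ₀| ≤ 2 →
  (∀ v ∈ ball (0 : ℂ × ℂ) r, |κ v - 1 - K₁ v| ≤ C₀ * ‖v‖ ^ 2) →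
  (∀ v ∈ ball (0 : ℂ × ℂ) r, |s v - σ₀ - S₁ v| ≤ C₀ * ‖v‖ ^ 2) →
  ∃ C r₁ : ℝ, 0 < C ∧ 0 < r₁ ∧ r₁ ≤ r ∧ ∀ (x : ℂ × ℂ) (w : ℝ → ℝ), ‖x‖ < r₁ → Continuous w →
    (∀ t, w (t + 2 * Real.pi) = w t) → ∫ t in (0 : ℝ)..(2 * Real.pi), w t = 0 →
    |(∫ u in (0 : ℝ)..(2 * Real.pi), κ (rot u x) * w (u + s (rot u x)))
      - ∫ t in (0 : ℝ)..(2 * Real.pi), w t * (K₁ (rot (-σ₀) (rot t x))
        - S₁ (-3 * Complex.I * (rot (-σ₀) (rot t x)).1,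
              -5 * Complex.I * (rot (-σ₀) (rot t x)).2))| ≤
    C * (‖x.1‖ ^ 2 * ‖wf w 6‖ + (‖x.1‖ * ‖x.2‖ + ‖x.2‖ ^ 2 + ‖x‖ ^ 3) * n1 w)

/-- MODULE LIN (about 250 lines). `theorem hLIN (h₁ : StJet) (h₂ : StKer) : StLin`.
Proof. Apply KER four times: `(κp, sp(·,0))` with `σ₀ = π/3`, `(κm, sm(·,0))` with `σ₀ = -π/3`,
`(kt, 0)` and `(h0, 0)` with `σ₀ = 0`. First order data (in the coordinates `k3, s3, k5, s5`, JET and `Tay`):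
`κp: 2k3 + √3 s3 - (17/2)k5 - (√3/2)s5`, `sp: √3 k3 - s3 - √3 k5 + s5`,
`κm: 2k3 - √3 s3 - (17/2)k5 + (√3/2)s5`, `sm: -√3 k3 - s3 + √3 k5 + s5`,
`kt: 7k3 + 21k5`, `h0: -k3 - 3k5`. `X` acts by `k3 ↦ -3s3`, `s3 ↦ 3k3`, `k5 ↦ -5s5`, `s5 ↦ 5k5`;
`rot (-π/3) y = (ee(π) y₁, ee(5π/3) y₂) = (-y₁, ee(-π/3) y₂)`, so
`k3 ↦ -k3, s3 ↦ -s3, k5 ↦ k5/2 - (√3/2)s5, s5 ↦ (√3/2)k5 + s5/2`; `rot (π/3) y`:
`k3 ↦ -k3, s3 ↦ -s3, k5 ↦ k5/2 + (√3/2)s5, s5 ↦ -(√3/2)k5 + s5/2`.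
The resulting linear forms at `y = rot t x` are
`κp-part: -5k3 - 4√3 s3 - 15k5 + 4√3 s5`, `κm-part: -5k3 + 4√3 s3 - 15k5 - 4√3 s5`, `kt: 7k3 + 21k5`,
`-3·h0: 3k3 + 9k5`; the sum is `0`. (`kt` is smooth near `0`, and
`|kt v - 1 - 7k3 - 21k5| ≤ C‖v‖²`.) So all four integrals against `w` of the linear forms cancel in `lL`. -/
def StLin : Prop := ∀ (r : ℝ) (sp sm : (ℂ × ℂ) × (ℝ × ℝ) → ℝ), Chd r sp sm →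
  ∀ (r' C' : ℝ) (κp κm : ℂ × ℂ → ℝ), r' ≤ r → Tay r' C' sp sm κp κm →
  ∃ C r₁ : ℝ, 0 < C ∧ 0 < r₁ ∧ ∀ (x : ℂ × ℂ) (w : ℝ → ℝ), ‖x‖ ≤ r₁ → Continuous w →
    (∀ t, w (t + 2 * Real.pi) = w t) → ∫ t in (0 : ℝ)..(2 * Real.pi), w t = 0 →
    |lL sp sm κp κm x w| ≤
      C * (‖x.1‖ ^ 2 * ‖wf w 6‖ + (‖x.1‖ * ‖x.2‖ + ‖x.2‖ ^ 2 + ‖x‖ ^ 3) * n1 w)

/-- MODULE QFO (about 250 lines). `theorem hQFO : StQfo`.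
Proof. Let `D t = w' t + (2/√3)(w(t+2π/3) - w(t-2π/3))`. Expanding and using periodicity and
`∫ w'(t)w(t+2π/3) = -iI`, `∫ w'(t)w(t-2π/3) = iI`, `∫ w(t+2π/3)w(t-2π/3) = iP w`:
`∫ D² = q2 w' - (8/√3) iI w w' + (8/3)(q2 w - iP w)`, so `qQ w w' = (1/2)(∫ D² - 9 q2 w)`.
Fourier coefficients `ŵ(n) = wf w n/(2π)`: those of `w'` are `i n ŵ(n)` (integration by parts,
`(w e^{-int})` is periodic; FTC for right derivatives), so those of `D` are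
`i (n + 2χ(n)) ŵ(n)`, `χ(n) = 0, 1, -1` for `n ≡ 0, 1, 2 mod 3`
(`ee(2πn/3) - ee(-2πn/3) = 2i sin(2πn/3) = i√3 χ(n)`). Parseval (e.g. `tsum_sq_fourierCoeff`,
`hasSum_sq_fourierCoeffOn`) for `w`, `w'`, `D`:
`qQ w w' - (1/5) q2 w' = 2π ∑_n c_n |ŵ(n)|²`, `c_n = ((n+2χ(n))² - 9)/2 - n²/5`. For `|n| ≥ 8`:
`(n+2χ)² ≥ (|n|-2)²` and `5(n² - 4|n| - 5) ≥ 2n²`, so `c_n ≥ 0`; `n = ±4, ±6`: `(36-9)/2 - n²/5 > 0`;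
`±7`: `(81-9)/2 - 49/5 > 0`; the others, `n ∈ {0, ±1, ±2, ±3, ±5}`, have `c_n ≥ -6`, and
`|ŵ(-n)| = |ŵ(n)|`. So the sum is at least `-2π·12 ∑_{n∈{0,1,2,3,5}} |ŵ(n)|²`. -/
def StQfo : Prop := ∃ C : ℝ, 0 < C ∧ ∀ (w w' : ℝ → ℝ), Rough 1 w w' →
  1 / 5 * q2 w' - C * (‖wf w 0‖ ^ 2 + ‖wf w 1‖ ^ 2 + ‖wf w 2‖ ^ 2 + ‖wf w 3‖ ^ 2 + ‖wf w 5‖ ^ 2) ≤
    qQ w w'

end Helper49.LT
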