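import Pool.Agent.Helper49.LT.StA
import Pool.Agent.Helper49.LT.StB

/-!
# Project LT (MP_b21509_co, local theorem): statements with complete proofs, part C

See `StA.lean` for the overview and the conventions for module files.
-/

open MeasureTheory Set Filter Metric

namespace Helper49.LT

open Helper97.CB

/-- MODULE QU1 (about 300 lines). `theorem hQU1 : StQu1`.
Proof. `x = (a, 0)`, `0 ≤ a ≤ r₁`. For `α ∈ ℝ` put `k = a cos 3α`, `s = a sin 3α`, `v' = rot α x`, so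
`v'.1 = k - i s`, `v'.2 = 0`; `q = 1/2 + pq k s ∈ (0.4, 0.6)`, `β = arccos q`, so `|β - π/3| ≤ 1/20` for
small `a`; `E = 1 - 2q v'.1 = eR k s + i eI k s`, `δ = arctan (eI/eR)`, so `E = ‖E‖ ee δ`,
`‖E‖² = eN k s`, `|δ| ≤ 1/20`; `u = α + δ`, `v = rot u x = rot δ v'`.
(1) `(1 - q²) eN k s = 3/4 + O(a⁵)`: a polynomial identity in `k, s`: all monomials of
`(1 - (1/2+pq)²)((1-(1+2pq)k)² + ((1+2pq)s)²) - 3/4` have degree `≥ 5` (checked by computer algebra;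
expand and bound every monomial `|k^i s^j| ≤ a^{i+j} ≤ a⁵`, or substitute `k = a X`, `s = a Y` and
divide by `a⁵`). So `1 + ζ := (√3/2)/√((1-q²) eN)` has `|ζ| ≤ C a⁵`.
(2) `zh v' β - zh v' (-β) = 2i sin β - 2i v'.1 sin 2β = 2i sin β E` and by `zh_rot`
(`zh v' (δ + t) = ee δ * zh v t`) `zh v (β-δ) - zh v (-β-δ) = ee (-δ) 2i sin β E = 2i sin β ‖E‖`, and
`(1+ζ) 2 sin β ‖E‖ = √3` as `sin β = √(1-q²)`. So `((v, (ζ,ζ)), β-δ, -β-δ)` solves the chord equation; by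
uniqueness `sp (v,(ζ,ζ)) = β - δ`, and
`cc sp (v,(ζ,ζ)) = (1+ζ) Re (ee(-δ) zh v' β) = (1+ζ) Re (conj E (M + i sin β E))/‖E‖`
`= (1+ζ) rR k s/√(eN k s)`, where `M = cos β + cos 2β v'.1 = q + (2q²-1)(k - is)`
(`zh v' β = M + i sin β E`). As `cc sp` is Lipschitz near `0`,
`|cc sp (v,0) - rR k s/√(eN k s)| ≤ C a⁵`.
(3) `u(α) = α + δ(α)` is `C¹` (`k' = -3s`, `s' = 3k`, so `pq` has the derivative `pqd`, `eR` the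
derivative `eRd`, `eI` the derivative `eId`), `u' = 1 + (eR eId - eI eRd)/eN`, `u(2π) = u(0) + 2π`, so
`∫_0^{2π} cc sp (rot u x, 0) du = ∫_0^{2π} cc sp (rot (u(α)) x, 0) u'(α) dα` (substitution and
periodicity), `0 ≤ u' ≤ 2`. -/
def StQu1 : Prop := ∀ (r : ℝ) (sp sm : (ℂ × ℂ) × (ℝ × ℝ) → ℝ), Chd r sp sm →
  ∃ C r₁ : ℝ, 0 < C ∧ 0 < r₁ ∧ ∀ a : ℝ, 0 ≤ a → a ≤ r₁ →
    |(∫ u in (0 : ℝ)..(2 * Real.pi), cc sp (rot u ((a : ℂ), (0 : ℂ)), 0))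
      - ∫ α in (0 : ℝ)..(2 * Real.pi), gam (a * Real.cos (3 * α)) (a * Real.sin (3 * α))| ≤
    C * a ^ 5

/-- MODULE QU2 (about 300 lines). `theorem hQU2 : StQu2`.
Proof (power series up to the order 4; `≈` means up to `C a⁵` for `|k|, |s| ≤ a ≤ r₁`). All
quantities are polynomials in `k, s` even in `s`, so their truncations have at most 9 monomials.
With `p = pq k s`, `q = 1/2 + p`: `(1-q²) eN ≈ 3/4` (see QU1 (1)), so with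
`ε = (4/3)(p + p²)` (`1 - ε = (4/3)(1-q²)`, `|ε| ≤ 3a`) `eN⁻¹ ≈ 1 - ε` and `(√eN)⁻¹ ≈ √(1-ε)
≈ 1 - ε/2 - ε²/8 - ε³/16 - 5ε⁴/128`. Replace every polynomial by its truncation at degree 4 and
multiply step by step, each time dropping the monomials of degree `≥ 5`: `ε`, `ε²`, `ε³`, `ε⁴`, `rR`,
`J = eR eId - eI eRd`; then `gam = rR (√eN)⁻¹ (1 + J eN⁻¹) ≈ tgam` (checked by computer algebra,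
exact rational arithmetic: script `MP_b21509-base.py` in the team store; it prints every
truncated series). A convenient tool: a polynomial in `k, s` all of whose monomials have degree `≥ 5`
is bounded by `C a⁵` for `|k|, |s| ≤ a ≤ 1`. -/
def StQu2 : Prop := ∃ C r₁ : ℝ, 0 < C ∧ 0 < r₁ ∧ ∀ a k s : ℝ, a ≤ r₁ → |k| ≤ a → |s| ≤ a →
  |gam k s - tgam k s| ≤ C * a ^ 5

/-- MODULE QUA (about 200 lines). `theorem hQUA (h₁ : StQu1) (h₂ : StQu2) : StQua`.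
Proof. First `x₁ = a ≥ 0` real. `∫_0^{2π} tgam(a cos 3α, a sin 3α) dα = 2π(1/2 - 4a² + 29a⁴)`: odd powers
integrate to `0`, `∫cos² = ∫sin² = π`, `∫cos⁴ = ∫sin⁴ = 3π/4`, `∫cos²sin² = π/4`, `∫ cos sin² = 0`,
`∫cos³ = 0` (arguments `3α`), so `2π(1/2) + π a²(4 - 12) + π a⁴(2·3/4 - 224/4 + 150·3/4) =
π - 8πa² + 58πa⁴`. By QU1, QU2 `∫ cc sp (rot u x,0) du ≥ π - 8πa² + 58πa⁴ - Ca⁵`. Next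
`sg (rot u x) = ‖1 - 2a ee(-3u)‖ = √(1+y)`, `y = -4a cos 3u + 4a²`, and
`√(1+y) ≥ 1 + y/2 - y²/8 + y³/16 - 5y⁴/128 - C|y|⁵`; up to `a⁵` this is
`1 + y/2 - y²/8 + y³/16 - 5y⁴/128`; its mean: with
`c = cos 3u`: `y² = 16a²c² - 32a³c + 16a⁴`, `y³ ≈ -64a³c³ + 192a⁴c²`, `y⁴ ≈ 256a⁴c⁴`; means
`⟨y⟩ = 4a²`, `⟨y²⟩ = 8a² + 16a⁴`, `⟨y³⟩ ≈ 96a⁴`, `⟨y⁴⟩ ≈ 96a⁴`: total
`1 + 2a² - a² - 2a⁴ + 6a⁴ - 15a⁴/4 = 1 + a² + a⁴/4`. And `∫ h0 = 2π(1 - 2a²)`. Sum: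
`π - 8πa² + 58πa⁴ + 2π(1+a²+a⁴/4) - 3π(1-2a²) = (58 + 1/2)πa⁴ = (117/2)πa⁴`.
General `y = ‖y‖ ee(-3θ)`: `rot u (y,0) = rot (u+θ) (‖y‖,0)`, and the integral is invariant under
the shift (`integral_shift`). -/
def StQua : Prop := ∀ (r : ℝ) (sp sm : (ℂ × ℂ) × (ℝ × ℝ) → ℝ), Chd r sp sm →
  ∃ C r₁ : ℝ, 0 < C ∧ 0 < r₁ ∧ ∀ y : ℂ, ‖y‖ ≤ r₁ →
    117 / 2 * Real.pi * ‖y‖ ^ 4 - C * ‖y‖ ^ 5 ≤ tB sp (y, 0)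

/-- MODULE TBA (about 250 lines).
`theorem hTBA (h₁ : StJet) (h₂ : StSof) (h₃ : StEvn) (h₄ : StQua) : StTba`.
Proof. `Λ v = cc sp (v,0) + sg v - (3/2) h0 v`, smooth near `0` (`1 - 2v₁ - 4v₂ ≠ 0`).
`sg v = 1 - 2k3 - 4k5 + (2s3+4s5)²/2 + O(‖v‖³)` (`sg² = (1-2k3-4k5)² + (2s3+4s5)²`), so by JET
`Λ v = Λ₁ v + Λ₂ v + O(‖v‖³)`, `Λ₁ = -(5/2)k3 + (3/2)k5`,
`Λ₂ = 27(k3 k5 + s3 s5) - 9k5² + 9s5²` (coefficients: `k3²: -3+3 = 0`, `s3²: -5+2+3 = 0`,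
`k3k5: 18+9`, `s3s5: 10+8+9`, `k5²: -15+6`, `s5²: -5+8+6`).
`Ψ v = (Λ v + Λ(-v))/2 - Λ₂ v` (choose a version even on the whole space: automatic) is `C⁴` near `0`,
even, `O(‖v‖³)`; EVN: `O(‖v‖⁴)`; SOF (`m = 4`): `|Ψ v - Ψ v'| ≤ C‖v-v'‖(‖v‖+‖v'‖)³`.
Since `rot (u+π) x = -rot u x` and by the shift `u ↦ u + π`: `tB sp x = ∫ (Λ(y)+Λ(-y))/2`, `y = rot u x`,
`= ∫ Ψ(rot u x) du + ∫ Λ₂(rot u x) du`, and the last integral is `0`: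
`k3k5+s3s5 = Re (y₁ conj y₂)`, `k5²-s5² = Re (y₂²)` are multiples of `cos`, `sin` of `2u` and `10u`.
The same for `(x₁, 0)`. So `|tB sp x - tB sp (x₁,0)| ≤ 2πC‖x₂‖(2‖x‖)³`; QUA gives the claim. -/
def StTba : Prop := ∀ (r : ℝ) (sp sm : (ℂ × ℂ) × (ℝ × ℝ) → ℝ), Chd r sp sm →
  ∃ C r₁ : ℝ, 0 < C ∧ 0 < r₁ ∧ ∀ x : ℂ × ℂ, ‖x‖ ≤ r₁ →
    117 / 2 * Real.pi * ‖x.1‖ ^ 4 - C * (‖x.2‖ * ‖x‖ ^ 3 + ‖x‖ ^ 5) ≤ tB sp x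

/-- MODULE BWX (about 250 lines). `theorem hBWX (h : StJet) : StBwx`.
Proof. `σ = st v = -2s3 - 4s5`. Expanding `zh v σ` with `ee(nσ) = 1 + inσ - n²σ²/2 + O(σ³)`:
`Re (zh v σ) = 1 - σ²/2 + k3 + k5 - 2σ s3 - 4σ s5 + O(‖v‖³) = 1 + k3 + k5 + 2(s3+2s5)² + O(‖v‖³)`. With JET
`Re zh v σ + cc sp (v,0) = 3/2 - k3 + 2k5 - 3(k3²+s3²) + 18(k3k5+s3s5) - 15k5² + 3s5² + O(‖v‖³)`.
Here `v = rot u x`: `k3²+s3² = ‖x₁‖²`, `k3k5+s3s5 = Re (v₁ conj v₂)` (frequency 2),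
`-15k5²+3s5² = -6‖x₂‖² - 9 Re (v₂²)`, `v₂² = x₂² ee(-10u)`. Integrate against
`W = 1 + Re (ω ee(-nu))`, `n = 6, 10`: the terms with the frequencies 3, 5, 2 give `0`; the constants give
`3π - 6π‖x₁‖² - 12π‖x₂‖²`, and `-9∫ Re(x₂² ee(-10u)) W = 0` for `n = 6`, `= -9π Re (x₂² conj ω)` for
`n = 10`. And `(3/2)∫ h0 = 3π(1 - 2‖x₁‖² - 4‖x₂‖²)` (`ksq3`, `ksq5`, the rest has mean `0`). -/
def StBwx : Prop := ∀ (r : ℝ) (sp sm : (ℂ × ℂ) × (ℝ × ℝ) → ℝ), Chd r sp sm →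
  ∃ C r₁ : ℝ, 0 < C ∧ 0 < r₁ ∧ ∀ (x : ℂ × ℂ) (ω : ℂ), ‖x‖ ≤ r₁ → ‖ω‖ ≤ 1 →
    |bW sp x ω 6| ≤ C * ‖x‖ ^ 3 ∧
    |bW sp x ω 10 + 9 * Real.pi * (x.2 ^ 2 * (starRingEnd ℂ) ω).re| ≤ C * ‖x‖ ^ 3

/-- MODULE WTS (about 300 lines).
`theorem hWTS (h₁ : StGeo) (h₂ : StCi1) (h₃ : StCi3) (h₄ : StBwx) : StWts`.
Proof. Let `W = wW ω n` with `‖ω‖ ≤ 1`, `n ∈ {6, 10}`: continuous, `≥ 0`, `W(u+π) = W(u)`.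
`H(u) = (1 + w(u + σ)) Re (zh v σ)`, `v = rot u x`, `σ = st v`: continuous, periodic, and
`p = (1 + w(u+σ)) zh x (u+σ) ∈ K` (`Bd`) has `Re (p conj (ee u)) = H(u)` (`zh_rot`). GEO with `H` and
`C = cf C₁ η ...` (CI1) gives
`∫ H W + ∫ cf W ≤ (3/2π)(1+μ) area K · 2π = (3/2)(1+μ) ∫ (1+w)² h0 ≤ (3/2)∫ h0 + C(‖x‖ n1 w + q2 w + μ)`
(`∫ W = 2π`, `∫ w = 0`, `|h0 - 1| ≤ 30‖x‖`, `Stg.ar`).
`∫ H W = ∫ Re (zh v σ) W + ∫ w(u+σ) Re (zh v σ) W`, and the last integral is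
`∫ w(t) W(t) dt + O(‖x‖ n1 w)` (substitution `t = u + st (rot u x)`, `C¹`, derivative `1 + O(‖x‖)`).
With CI3: `bW sp x ω n + ∫ w(t)(W(t) + W(t-π/3) + W(t+π/3)) dt ≤ C(‖x‖ n1 w + q2 w + q2 w' + μ)`, and
`n1 w ≤ C√(q2 w')`, `q2 w ≤ C q2 w'` (mean 0: `|w| ≤ ∫|w'|`). `W(t)+W(t-π/3)+W(t+π/3) =
3 + (1 + 2cos(nπ/3)) Re (ω ee(-nt))`: the factor is `3` for `n = 6` and `0` for `n = 10`. For `n = 6` take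
`ω` with `Re (ω wf w 6) = ‖wf w 6‖` and use `|bW sp x ω 6| ≤ C‖x‖³`; for `n = 10` take
`ω = -x₂²/‖x₂‖²` (`x₂ ≠ 0`), so `bW sp x ω 10 ≥ 9π‖x₂‖² - C‖x‖³`. -/
def StWts : Prop := ∀ (r : ℝ) (sp sm : (ℂ × ℂ) × (ℝ × ℝ) → ℝ), Chd r sp sm →
  ∀ (r' C' : ℝ) (κp κm : ℂ × ℂ → ℝ), r' ≤ r → Tay r' C' sp sm κp κm →
  ∃ C r₁ : ℝ, 0 < C ∧ 0 < r₁ ∧ ∀ (η μ : ℝ) (K : Set ℂ) (x : ℂ × ℂ) (w w' : ℝ → ℝ),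
    ‖x‖ ≤ r₁ → η ≤ r₁ → 0 ≤ μ → μ ≤ 1 → Stg η μ K x w w' →
    ‖wf w 6‖ + ‖x.2‖ ^ 2 ≤ C * (‖x‖ ^ 3 + ‖x‖ * Real.sqrt (q2 w') + q2 w' + μ)

/-- MODULE TIN (about 250 lines).
`theorem hTIN (h₁ : StGeo) (h₂ : StCi1) (h₃ : StCi2) (h₄ : StTip) (h₅ : StTp2) : StTin`.
Proof. GEO with `W = 1`, `H = hs K` (TIP), `C = cf C₁ η ...` (CI1):
`∫ hs K + ∫ cf ≤ (3/2π)(1+μ) area K · 2π = (3/2)(1+μ)∫(1+w)² h0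
≤ (3/2)∫ h0 + 3∫ w h0 + (3/2) q2 w + C(‖x‖ q2 w' + μ)` (`q2 w ≤ C q2 w'` as `∫ w = 0`, `|h0-1| ≤ 30‖x‖`,
`(1+w)² h0 ≤ 4`). By TIP and TP2 `∫ hs K ≥ ∫ sg + ∫ w kt + (1/2) q2 w' - C(η+‖x‖) q2 w'`, and CI2
bounds `∫ cf` from below. Collect: `tB + lL + qQ` appears. -/
def StTin : Prop := ∀ (r : ℝ) (sp sm : (ℂ × ℂ) × (ℝ × ℝ) → ℝ), Chd r sp sm →
  ∀ (r' C' : ℝ) (κp κm : ℂ × ℂ → ℝ), r' ≤ r → Tay r' C' sp sm κp κm →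
  ∃ C r₁ : ℝ, 0 < C ∧ 0 < r₁ ∧ ∀ (η μ : ℝ) (K : Set ℂ) (x : ℂ × ℂ) (w w' : ℝ → ℝ),
    ‖x‖ ≤ r₁ → η ≤ r₁ → 0 ≤ μ → μ ≤ 1 → Stg η μ K x w w' →
    tB sp x + lL sp sm κp κm x w + qQ w w' ≤ C * ((η + ‖x‖) * q2 w' + μ)

/-- MODULE SMM (about 300 lines). `theorem hSMM (h₁ : StPol) (h₂ : StSub) : StSmm`.
Proof. `g = gauge ℝ K`, `1 + w t = λ (g (zh x t))⁻¹` with `λ > 0`, `|λ - 1| ≤ 1/10`. POL and SUB: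
`(j+2) λ^{j+2} ∫_K z^j = ∫ (1+w)^{j+2} h0(rot t x) (zh x t)^j dt` for every `j`. Write
`X = ‖x‖`, `N = n1 w`, `S = q2 w` (`|w| ≤ 1/10`). `(1+w)^{j+2} = 1 + (j+2)w + O(w²)`.
`j = 0`: `2λ² π = ∫ h0 + 2∫ w h0 + ∫ w² h0`, `∫ h0 = 2π(1 - 2‖x₁‖² - 4‖x₂‖²)`, `∫ w h0 = ∫ w (h0 - 1)`, so
`|λ² - 1| ≤ C(X² + XN + S)`, the same for `λ - 1`.
Base integrals (trigonometric polynomials; `(zh x t)^j = ee(jt)(1+v₁+v₂)^j`, `v = rot t x`,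
`h0 = 1 - Re v₁ - 3Re v₂ - 2|v₁|² - 4|v₂|² - 6Re (conj v₁ v₂)`; write the terms of degree `≤ 2` in `x` as
exponentials, only frequency `0` survives): `∫ z h0 = O(X³)`,
`∫ z² h0 = -8π conj(x₁) x₂ + O(X³)`, `∫ z³ h0 = 5π x₁ + O(X³)`, `∫ z⁵ h0 = 7π x₂ + O(X³)`.
(degree 1: `ee(jt)(j(v₁+v₂) - (v₁ + conj v₁)/2 - (3/2)(v₂ + conj v₂))` has frequency 0 only for
`j = 3`: `(3 - 1/2) x₁`, and `j = 5`: `(5 - 3/2) x₂`; degree 2: the frequencies of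
`v₁², v₁v₂, v₂², |v₁|², |v₂|², v₁ conj v₂, conj v₁ v₂, conj v₁², conj v₁ conj v₂, conj v₂²` are
`-6, -8, -10, 0, 0, 2, -2, 6, 8, 10`; only `-2` cancels `j = 2`, with the coefficient of
`conj v₁ v₂`: `2·(-1/2) - 3 = -4`.)
`j = 1`: `0 = ∫ z h0 + 3∫ w z h0 + O(S)`, and `∫ w z h0 = ∫ w ee(t) dt + O(XN)`, so
`‖∫ w ee(t)‖ ≤ C(X³ + XN + S)`; `wf w 1` is its conjugate. `j = 2` in the same way with the extra term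
`8π‖x₁‖‖x₂‖`. `j = 3`: `5λ⁵π x₁ = 5π x₁ + O(X³) + 5∫ w z³ h0 + O(S)`, so
`‖∫ w ee(3t)‖ ≤ C(X³ + X|λ-1| + XN + S)`. `j = 5`: the same with `7λ⁷π x₂`. -/
def StSmm : Prop := ∃ C r₁ : ℝ, 0 < C ∧ 0 < r₁ ∧ ∀ (K : Set ℂ) (x : ℂ × ℂ) (lam : ℝ)
    (w : ℝ → ℝ), IsBody K → closedBall 0 (1 / 2) ⊆ K → ‖x‖ ≤ r₁ →
  area K = Real.pi → ∫ z in K, z = 0 → ∫ z in K, z ^ 2 = 0 →
  ∫ z in K, z ^ 3 = Real.pi * x.1 → ∫ z in K, z ^ 5 = Real.pi * x.2 →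
  |lam - 1| ≤ 1 / 10 → Continuous w → (∀ t, 1 + w t = lam * (gauge K (zh x t))⁻¹) →
  (∀ t, |w t| ≤ 1 / 10) → ∫ t in (0 : ℝ)..(2 * Real.pi), w t = 0 →
  ‖wf w 1‖ ≤ C * (‖x‖ ^ 3 + ‖x‖ * n1 w + q2 w) ∧
  ‖wf w 2‖ ≤ C * (‖x.1‖ * ‖x.2‖ + ‖x‖ ^ 3 + ‖x‖ * n1 w + q2 w) ∧
  ‖wf w 3‖ ≤ C * (‖x‖ ^ 3 + ‖x‖ * n1 w + q2 w) ∧
  ‖wf w 5‖ ≤ C * (‖x‖ ^ 3 + ‖x‖ * n1 w + q2 w)

/-- MODULE FI1 (about 150 lines). `theorem hFI1 : StFi1`.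
Proof. All variables are in `[0, r₁]` except `μ ∈ [0,1]`; `X ≤ A + e`, `C ≥ 1`; `C'` denotes constants
depending on `C` only. From the first hypothesis `e² ≤ C'((A+e)³ + (A+e)q + q² + μ)`; for small `r₁` the terms
`C'e³`, `C'eq ≤ e²/4 + C'q²` are absorbed: `e² ≤ C'(A³ + Aq + q² + μ)` and
`W ≤ C'((A+e)³ + (A+e)q + q² + μ) ≤ C'(A³ + Aq + q² + e³ + μ)` (`eq ≤ e² + q²`).
Let `κ > 0` be small (to be chosen depending on `C`), then `r₁` small depending on `κ`. Each term of the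
second hypothesis is at most `κ(A⁴+q²) + C'_κ μ`:
`e X³ ≤ C'(eA³ + e⁴) ≤ κA⁴ + C'_κ e⁴`, and `e⁴ ≤ C'(A⁶ + A²q² + q⁴ + μ²) ≤ κ(A⁴+q²) + C'μ`;
`X⁵ ≤ C'(A⁵ + e⁵)`; `(Ae)² ≤ C'A²(A³+Aq+q²+μ) ≤ κ(A⁴+q²) + C'μ` (`A³q ≤ A(A⁴+q²)`);
`(X³+Xq+q²)² ≤ C'(X⁶ + X²q² + q⁴)`; `A²W ≤ C'(A⁵ + A³q + A²q² + A²e³ + A²μ)` and
`A²e³ ≤ A⁴e + e⁵`; `Aeq ≤ κq² + C'_κ(Ae)²` (use the bound for `(Ae)²` with a smaller `κ`);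
`e²q ≤ κq² + C'_κ e⁴`; `X³q ≤ κq² + C'_κX⁶`; `(η+X)q² ≤ κq²`. So `A⁴ + q²/5 ≤ (1/10)(A⁴+q²) + C'μ`, hence
`A⁴ + q² ≤ C'μ`, and `e⁴ ≤ C'(A⁶+A²q²+q⁴+μ²) ≤ C'μ`. -/
def StFi1 : Prop := ∀ C : ℝ, 1 ≤ C → ∃ C' r₁ : ℝ, 0 < C' ∧ 0 < r₁ ∧ ∀ A e X q W μ η : ℝ,
  0 ≤ A → 0 ≤ e → A ≤ X → e ≤ X → X ≤ A + e → 0 ≤ q → 0 ≤ W → 0 ≤ μ → μ ≤ 1 → 0 ≤ η →
  X ≤ r₁ → q ≤ r₁ → η ≤ r₁ →
  W + e ^ 2 ≤ C * (X ^ 3 + X * q + q ^ 2 + μ) →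
  A ^ 4 + q ^ 2 / 5 ≤ C * (e * X ^ 3 + X ^ 5 + (A * e + X ^ 3 + X * q + q ^ 2) ^ 2 + A ^ 2 * W
    + (A * e + e ^ 2 + X ^ 3) * q + (η + X) * q ^ 2 + μ) →
  A ^ 4 + e ^ 4 + q ^ 2 ≤ C' * μ

/-- MODULE FIN (about 350 lines). `theorem hFIN (h₁ : StIft) (h₂ : StTay) (h₃ : StGau) (h₄ : StPol)
(h₅ : StSub) (h₆ : StSmm) (h₇ : StLin) (h₈ : StQfo) (h₉ : StTba) (h₁₀ : StWts) (h₁₁ : StTin)
(h₁₂ : StFi1) (h₁₃ : StAff) : StFin`.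
Proof. Fix `r, sp, sm` (IFT) and `κp, κm` (TAY). Let `K` be as in the statement with `κ` small. Put
`x = (∫_K z³, ∫_K z⁵)/π`; `‖x‖ ≤ Cκ`, since `∫ z^j` over the disk `closedBall 0 (1-κ)` is `0` and the rest of
`K` has area `≤ Cκ`. By GAU the function `f(t) = (gauge K (zh x t))⁻¹` satisfies `Rough η₀ (f - 1) f'`,
`η₀ = C(√κ + ‖x‖)`. Let `lam = 2π/∫f`, `|lam - 1| ≤ 2η₀`, `K' = lam K` (AFF with `α = lam`, `β = b = 0`: body,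
`area K' = lam² π`, `Small K' (lam² B)`), `w = lam f - 1`, `w' = lam f'`. Then `∫ w = 0`,
`Rough η w w'` with `η = 4η₀`, `Bd K' x w` (`(1+ξ)z ∈ lam K ↔ (1+ξ)/lam z ∈ K`, use `Bd` for `K`),
`closedBall 0 (99/100) ⊆ K' ⊆ closedBall 0 (101/100)`,
`area K' = lam² area K = (1/2)∫ (1+w)² h0` (POL and SUB with `j = 0`; `∫_K 1 = area K`). So
`Stg η μ K' x w w'`. Put `A = ‖x₁‖`, `e = ‖x₂‖`, `X = ‖x‖ = max`, `q = √(q2 w')`, `W = ‖wf w 6‖`.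
`q ≤ √(2π) η` is small; `n1 w ≤ C q`, `q2 w ≤ C q²` (mean 0), `wf w 0 = 0`. WTS is the first
hypothesis of FI1. TIN, TBA, LIN, QFO, SMM give the second one:
`(117π/2)A⁴ - C(eX³+X⁵) - C(A²W + (Ae+e²+X³) q) + q²/5 - C∑_{n=1,2,3,5}‖wf w n‖² ≤ C((η+X)q² + μ)` and
`‖wf w n‖ ≤ C(Ae + X³ + Xq + q²)`. FI1: `A⁴ + e⁴ + q² ≤ C'μ`. Now `|w| ≤ ∫|w'| ≤ 3q ≤ C√μ ≤ Cμ^{1/4}` and
`|‖zh x t‖ - 1| ≤ 2X ≤ Cμ^{1/4}`. Every `z ≠ 0` is a positive multiple of some `zh x t` (its argument takes all values: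
`φ(t)` of SUB is continuous with `φ(2π) = φ(0) + 2π`), so by `Bd` `z ∈ K'` if `‖z‖ ≤ 1 - C'μ^{1/4}` and
`z ∉ K'` if `‖z‖ > 1 + C'μ^{1/4}`. Divide by `lam`: `ρ = 1/lam`. -/
def StFin : Prop := ∃ C κ₀ : ℝ, 1 ≤ C ∧ 0 < κ₀ ∧ ∀ (K : Set ℂ) (κ μ : ℝ), IsBody K → 0 ≤ κ →
  κ ≤ κ₀ → 0 ≤ μ → μ ≤ 1 → closedBall 0 (1 - κ) ⊆ K → K ⊆ closedBall 0 (1 + κ) →
  area K = Real.pi → ∫ z in K, z = 0 → ∫ z in K, z ^ 2 = 0 →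
  Small K (2 * (m0 * (1 + μ)) * area K) →
  ∃ ρ : ℝ, 0 < ρ ∧ closedBall 0 (ρ * (1 - C * μ ^ ((1 : ℝ) / 4))) ⊆ K ∧
    K ⊆ closedBall 0 (ρ * (1 + C * μ ^ ((1 : ℝ) / 4)))

/-- MODULE DSK (about 80 lines). `theorem hDSK : StDsk`.
Proof. Regular hexagon: `P = ρ(-1/2 - i√3/2)`, `a = ρ`, `b = i√3ρ`, `γ = φ = c = f = 1/2`. All six points
have modulus `ρ`, `cr a b = √3ρ²`, so `(2+γ+φ) cr a b = 3√3ρ² = 2 m0 πρ²` and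
`area (closedBall 0 ρ) = πρ²` (`Complex.volume_closedBall`). -/
def StDsk : Prop := ∀ ρ : ℝ, 0 < ρ →
  ¬ Small (closedBall (0 : ℂ) ρ) (2 * (m0 * (1 + 0)) * area (closedBall (0 : ℂ) ρ))

/-- MODULE MAI (about 350 lines). `theorem hMAI (h₁ : StAff) (h₂ : StNrm) (h₃ : StFin) (h₄ : StDsk)
(h₅ : StSml) : StMai`.
Proof. Let `f = aff α β b` (an affine bijection with inverse of the same kind, see AFF) with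
`f '' D ⊆ K ⊆ f '' closedBall 0 (1+ε)`, `D = closedBall 0 1`, `ε ≤ ε₀` small. `K₁ = f⁻¹ '' K` satisfies
`D ⊆ K₁ ⊆ closedBall 0 (1+ε)`; NRM gives `g = aff ..` with `K₂ = g '' K₁` close to the disk (`κ = Cε`),
area `π` and vanishing moments. Suppose `theta K ≤ ofReal (1/(m0 (1+μ)))` fails for some `μ ∈ [0,1]`.
By SML `Small K (2 (m0 (1+μ)) area K)`, by AFF (twice) `Small K₂ (2 (m0 (1+μ)) area K₂)`, and FIN gives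
`closedBall 0 (ρ(1-s)) ⊆ K₂ ⊆ closedBall 0 (ρ(1+s))`, `s = C μ^{1/4}`. (1) `μ = 0`: `K₂ = closedBall 0 ρ`,
contradiction to DSK. So the first claim holds. (2) Let `c = (4C)^{-4}`, `μ = cδ⁴`, so `s = δ/4`
and `(1+s) ≤ (1+δ)(1-s)` (`δ ≤ 1`). With `F = f ∘ g⁻¹ ∘ (ρ(1-s) ·)` (again some `aff α' β' b'`,
`‖β'‖ < ‖α'‖`) we get `F '' D ⊆ K ⊆ F '' closedBall 0 (1+δ)`, contradiction. -/
def StMai : Prop := ∃ ε₀ c : ℝ, 0 < ε₀ ∧ 0 < c ∧ ∀ (K : Set ℂ) (α β b : ℂ), IsBody K → ‖β‖ < ‖α‖ →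
  aff α β b '' closedBall 0 1 ⊆ K → K ⊆ aff α β b '' closedBall 0 (1 + ε₀) →
  theta K ≤ ENNReal.ofReal (1 / m0) ∧
  ∀ δ ∈ Icc (0 : ℝ) 1,
    (∀ α' β' b' : ℂ, ‖β'‖ < ‖α'‖ → aff α' β' b' '' closedBall 0 1 ⊆ K →
      ¬ K ⊆ aff α' β' b' '' closedBall 0 (1 + δ)) →
    theta K ≤ ENNReal.ofReal (1 / (m0 * (1 + c * δ ^ 4)))

end Helper49.LT
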